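import Pool.Agent.Q187.PS.Seq
import Pool.Agent.Q187.Steiner.Main

/-!
# Assembly in the space `XX m`
-/

set_option autoImplicit false
set_option linter.unusedSectionVars false

open MeasureTheory Set Filter Topology Metric
open scoped RealInnerProductSpace ENNReal NNReal

namespace Q187.PS

open Pool.Agent.H318R3.St Q187.Steiner

variable {M L ρ : ℝ} {m : ℕ}

lemma XX.norm_sq (x : XX m) : ‖x‖ ^ 2 = ‖x.fst‖ ^ 2 + ‖x.snd‖ ^ 2 :=
  WithLp.prod_norm_sq_eq_of_L2 x

lemma XX.fst_continuous : Continuous fun x : XX m => x.fst :=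
  (WithLp.prod_continuous_ofLp 2 V2 (EuclideanSpace ℝ (Fin m))).fst

lemma XX.snd_continuous : Continuous fun x : XX m => x.snd :=
  (WithLp.prod_continuous_ofLp 2 V2 (EuclideanSpace ℝ (Fin m))).snd

lemma Eg_closed {g : V2 → ℝ} (hg : Continuous g) (c : ℝ) : IsClosed (Eg m g c) :=
  isClosed_le ((XX.snd_continuous.norm.pow 2).add continuous_const) (hg.comp XX.fst_continuous)

lemma Eg_compact {g : V2 → ℝ} (hg : Adm M L ρ g) {c : ℝ} (hc : 0 < c) : IsCompact (Eg m g c) := by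
  refine Metric.isCompact_of_isClosed_isBounded (Eg_closed hg.continuous c) ?_
  refine isBounded_closedBall.subset (s := Eg m g c) (t := closedBall (0 : XX m) (ρ ^ 2 + M + 1))
    fun x hx => ?_
  have h1 : ‖x.snd‖ ^ 2 + c ≤ g x.fst := hx
  have h2 : ‖x.fst‖ ≤ ρ := by
    by_contra hcon
    rw [hg.out _ (not_le.1 hcon)] at h1
    nlinarith [sq_nonneg ‖x.snd‖]
  have h3 := hg.le x.fst
  rw [mem_closedBall_zero_iff]
  have h4 := XX.norm_sq x
  have h5 : ‖x.fst‖ ^ 2 ≤ ρ ^ 2 := pow_le_pow_left₀ (norm_nonneg _) h2 2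
  have h6 : ‖x‖ ^ 2 ≤ ρ ^ 2 + M := by linarith
  have h7 := norm_nonneg x
  nlinarith [sq_nonneg ρ, sq_nonneg (‖x‖ - 1)]

lemma Eg_interior {g : V2 → ℝ} (hg : Continuous g) (h : (lev g 10).Nonempty) :
    (interior (Eg m g 9)).Nonempty := by
  obtain ⟨v, hv⟩ := h
  have hv' : (10 : ℝ) ≤ g v := hv
  have hopen : IsOpen {x : XX m | ‖x.snd‖ ^ 2 + 9 < g x.fst} :=
    isOpen_lt ((XX.snd_continuous.norm.pow 2).add continuous_const) (hg.comp XX.fst_continuous)
  refine ⟨WithLp.toLp 2 (v, 0), mem_interior.2 ⟨{x : XX m | ‖x.snd‖ ^ 2 + 9 < g x.fst},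
    fun x hx => (le_of_lt (show ‖x.snd‖ ^ 2 + 9 < g x.fst from hx) :
      ‖x.snd‖ ^ 2 + 9 ≤ g x.fst), hopen, ?_⟩⟩
  show ‖(0 : EuclideanSpace ℝ (Fin m))‖ ^ 2 + 9 < g v
  rw [norm_zero]
  linarith

/-- The body is close to the ball. -/
lemma Eg_near {g : V2 → ℝ} {η : ℝ} (hη9 : η < 9)
    (h : ∀ x, |g x - max 0 (18 - ‖x‖ ^ 2)| ≤ η) :
    closedBall (0 : XX m) √(9 - η) ⊆ Eg m g 9 ∧ Eg m g 9 ⊆ closedBall (0 : XX m) √(9 + η) := by
  constructor
  · intro x hx
    rw [mem_closedBall_zero_iff] at hx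
    have h1 : ‖x‖ ^ 2 ≤ 9 - η := by
      have := pow_le_pow_left₀ (norm_nonneg _) hx 2
      rwa [Real.sq_sqrt (by linarith)] at this
    rw [XX.norm_sq] at h1
    have h2 := (abs_le.1 (h x.fst)).1
    have h3 := le_max_right 0 (18 - ‖x.fst‖ ^ 2)
    show ‖x.snd‖ ^ 2 + 9 ≤ g x.fst
    linarith
  · intro x hx
    have h1 : ‖x.snd‖ ^ 2 + 9 ≤ g x.fst := hx
    have h2 := (abs_le.1 (h x.fst)).2
    rw [mem_closedBall_zero_iff]
    refine Real.le_sqrt_of_sq_le ?_
    rw [XX.norm_sq]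
    rcases le_total (18 - ‖x.fst‖ ^ 2) 0 with h3 | h3
    · rw [max_eq_left h3] at h2
      nlinarith [sq_nonneg ‖x.snd‖]
    · rw [max_eq_right h3] at h2
      linarith

lemma finrank_XX : Module.finrank ℝ (XX m) = m + 2 := by
  have e : XX m ≃ₗ[ℝ] V2 × EuclideanSpace ℝ (Fin m) := WithLp.linearEquiv 2 ℝ _
  rw [e.finrank_eq, Module.finrank_prod, finrank_euclideanSpace_fin, finrank_euclideanSpace_fin,
    add_comm]

/-- The statement in the space `XX m`. -/
def Main (X : Type) [NormedAddCommGroup X] [InnerProductSpace ℝ X]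
    [FiniteDimensional ℝ X] [MeasurableSpace X] [BorelSpace X] : Prop :=
  ∃ (E : Set X) (u : ℕ → X) (δ : ℝ), 0 < δ ∧ IsCompact E ∧ (interior E).Nonempty ∧
    per E < ⊤ ∧ (∀ i, ‖u i‖ = 1) ∧ volume E = volume (closedBall (0 : X) 3) ∧
    (∀ ε : ℝ, 0 < ε → ∀ᶠ i in atTop, closedBall (0 : X) (3 - ε) ⊆ iter u E i ∧
      iter u E i ⊆ closedBall (0 : X) (3 + ε)) ∧
    ∀ i, per (closedBall (0 : X) 3) + ENNReal.ofReal δ ≤ per (iter u E i)

/-- The starting data (from `S_Nu`, `S_Sum`, `S_Sprd`, `S_Strt`). -/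
lemma start_exists (hnu : S_Nu) (hsum : S_Sum) (hsprd : S_Sprd) (hstrt : S_Strt) :
    ∃ g : V2 → ℝ, St 18 36 18 18 g ∧
      ENNReal.ofReal (1 / 2) ≤ volume (crit g (Icc 16 (18 - 1 / 8))) := by
  obtain ⟨ν, hν⟩ := hnu
  obtain ⟨β, hβ⟩ := hsprd ν hν (hsum ν hν).2
  obtain ⟨h1, h2, h3⟩ := hstrt ν β hν hβ
  exact ⟨start β, ⟨h1, h2, h1.le⟩, h3⟩

theorem main_XX (hm : 1 ≤ m) (hseq : S_Seq) (hnu : S_Nu) (hsum : S_Sum) (hsprd : S_Sprd)
    (hstrt : S_Strt) (hball : S_Ball) (hevol : S_Evol) (hefin : S_Efin) (hlow : S_LowC)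
    (hesym : S_Esym) : Main (XX m) := by
  obtain ⟨g, hg, hcrit⟩ := start_exists hnu hsum hsprd hstrt
  obtain ⟨θ, G, h0, hG, hGen, hlim⟩ := hseq 18 36 18 g (by norm_num) (by norm_num) (by norm_num)
    hg.adm 18 (by norm_num) hg.vol hg.le
  have hSt : ∀ i, St 18 36 18 18 (G i) := by
    intro i
    induction i with
    | zero => rw [h0]; exact hg
    | succ i ih =>
      rw [hG i]
      exact ih.step (by norm_num) (by norm_num) (by norm_num) (by norm_num) (norm_dir _)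
  have hcr : ∀ i, ENNReal.ofReal (1 / 2) ≤ volume (crit (G i) (Icc 16 (18 - 1 / 8))) := by
    intro i
    induction i with
    | zero => rw [h0]; exact hcrit
    | succ i ih =>
      rw [hG i]
      refine ih.trans ?_
      refine persist (by norm_num) (by norm_num) (by norm_num) (hSt i).adm (norm_dir _) (hGen i)
        measurableSet_Icc fun s hs => ?_
      exact lt_of_lt_of_le (by norm_num) hs.1
  obtain ⟨δ, hδ, hlow⟩ := hlow m hm
  have hvol : ∀ i, volume (Eg m (G i) 9) = volume (closedBall (0 : XX m) 3) := by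
    intro i
    rw [hevol m 36 18 (G i) (by norm_num) (by norm_num) (hSt i).adm (hSt i).vol 9 (by norm_num)
      (by norm_num), show (18 : ℝ) - 9 = 3 ^ 2 by norm_num, Real.sqrt_sq (by norm_num)]
  set B : ℝ := (volume (closedBall (0 : XX m) 3)).toReal with hB
  have hB0 : 0 ≤ B := ENNReal.toReal_nonneg
  have hperB : per (closedBall (0 : XX m) 3) ≤ ENNReal.ofReal ((m + 2) * B / 3) := by
    have := hball (XX m) 3 (by norm_num)
    rw [finrank_XX] at this
    push_cast at this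
    exact this
  -- a radius close to three
  obtain ⟨r, hr3, hr⟩ : ∃ r : ℝ, 3 < r ∧ (m + 2) * B / 3 + δ / 2 ≤ (m + 2) * B / r + δ := by
    have h1 : Tendsto (fun r : ℝ => (m + 2) * B / r + δ) (𝓝 3) (𝓝 ((m + 2) * B / 3 + δ)) :=
      (tendsto_const_nhds.div tendsto_id (by norm_num)).add tendsto_const_nhds
    have h2 : ∀ᶠ r in 𝓝 (3 : ℝ), (m + 2) * B / 3 + δ / 2 < (m + 2) * B / r + δ :=
      h1.eventually (lt_mem_nhds (by linarith))
    have h3 : ∀ᶠ r in 𝓝[>] (3 : ℝ), 3 < r ∧ (m + 2) * B / 3 + δ / 2 < (m + 2) * B / r + δ := by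
      filter_upwards [self_mem_nhdsWithin, mem_nhdsWithin_of_mem_nhds h2] with r h4 h5
      exact ⟨h4, h5⟩
    obtain ⟨r, h4, h5⟩ := h3.exists
    exact ⟨r, h4, h5.le⟩
  set ρ' : ℝ := (3 + r) / 2 with hρ'
  set η : ℝ := min (ρ' ^ 2 - 9) 1 with hη
  have hη0 : 0 < η := by
    rw [hη, lt_min_iff]
    constructor
    · nlinarith
    · norm_num
  obtain ⟨N, hN⟩ := eventually_atTop.1 (hlim η hη0)
  have hsub : ∀ i, N ≤ i → Eg m (G i) 9 ⊆ closedBall 0 ρ' := by
    intro i hi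
    refine (Eg_near (by linarith [min_le_right (ρ' ^ 2 - 9) 1]) (hN i hi)).2.trans ?_
    refine closedBall_subset_closedBall ?_
    rw [Real.sqrt_le_left (by linarith)]
    linarith [min_le_left (ρ' ^ 2 - 9) 1]
  have hperlow : ∀ i, N ≤ i → per (closedBall (0 : XX m) 3) + ENNReal.ofReal (δ / 2) ≤
      per (Eg m (G i) 9) := by
    intro i hi
    have h1 := hlow 36 18 (G i) (by norm_num) (by norm_num) (hSt i).adm (hcr i) ρ' r
      (by linarith) (by linarith) (by linarith) (hsub i hi)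
    rw [hvol i] at h1
    refine le_trans ?_ h1
    refine (add_le_add hperB le_rfl).trans ?_
    rw [← ENNReal.ofReal_add (by positivity) (by positivity)]
    exact ENNReal.ofReal_le_ofReal hr
  -- the iterates
  let u : ℕ → XX m := fun i => WithLp.toLp 2 (dir (θ (N + i)), 0)
  have hu : ∀ i, ‖u i‖ = 1 := fun i => (hesym m 18 36 18 (G 0) (by norm_num) (by norm_num)
    (by norm_num) (hSt 0).adm _ (norm_dir _) 1 (by norm_num)).1
  have hiter : ∀ i, iter u (Eg m (G N) 9) i = Eg m (G (N + i)) 9 := by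
    intro i
    induction i with
    | zero => rfl
    | succ i ih =>
      show sym (u i) (iter u (Eg m (G N) 9) i) = _
      rw [ih, (hesym m 18 36 18 (G (N + i)) (by norm_num) (by norm_num) (by norm_num)
        (hSt (N + i)).adm _ (norm_dir _) 9 (by norm_num)).2, ← hG (N + i)]
      rfl
  refine ⟨Eg m (G N) 9, u, δ / 2, by positivity, Eg_compact (hSt N).adm (by norm_num),
    Eg_interior (hSt N).adm.continuous ?_, hefin m 36 18 (G N) (by norm_num) (by norm_num)
    (hSt N).adm (hSt N).vol, hu, hvol N, ?_, ?_⟩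
  · have h1 := (hSt N).vol 10 ⟨by norm_num, by norm_num⟩
    refine nonempty_of_measure_ne_zero (μ := volume) ?_
    rw [h1, Ne, ENNReal.ofReal_eq_zero, not_le]
    have := Real.pi_pos
    positivity
  · intro ε hε
    set κ : ℝ := min ε 1 with hκ
    have hκ0 : 0 < κ := lt_min hε one_pos
    obtain ⟨N', hN'⟩ := eventually_atTop.1 (hlim κ hκ0)
    refine eventually_atTop.2 ⟨N', fun i hi => ?_⟩
    rw [hiter i]
    have hκ1 : κ ≤ 1 := min_le_right _ _
    have hκε : κ ≤ ε := min_le_left _ _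
    obtain ⟨h1, h2⟩ := Eg_near (m := m) (by linarith) (hN' (N + i) (by omega))
    constructor
    · refine (closedBall_subset_closedBall ?_).trans h1
      refine (show 3 - ε ≤ 3 - κ by linarith).trans ?_
      refine Real.le_sqrt_of_sq_le ?_
      nlinarith
    · refine h2.trans (closedBall_subset_closedBall ?_)
      refine le_trans ?_ (show 3 + κ ≤ 3 + ε by linarith)
      rw [Real.sqrt_le_left (by linarith)]
      nlinarith
  · intro i
    rw [hiter i]
    exact hperlow (N + i) (by omega)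

end Q187.PS
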