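import Pool.Agent.Q187.PS.Stm

/-!
# JOB BALL
-/

set_option autoImplicit false
set_option linter.unusedSectionVars false

open MeasureTheory Set Filter Topology Metric
open scoped RealInnerProductSpace ENNReal NNReal

namespace Q187.PS

theorem ball (hmink : S_Mink) : S_Ball := by
  intro X _ _ _ _ _ R hR
  set n := Module.finrank ℝ X with hn
  set β : ℝ := (volume (closedBall (0 : X) 1)).toReal with hβ
  have hvol : ∀ r : ℝ, 0 ≤ r → volume (closedBall (0 : X) r) = ENNReal.ofReal (r ^ n * β) := by
    intro r hr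
    rw [Measure.addHaar_closedBall' _ _ hr, ENNReal.ofReal_mul (by positivity), hβ,
      ENNReal.ofReal_toReal (isCompact_closedBall _ _).measure_lt_top.ne]
  have hβ0 : 0 ≤ β := ENNReal.toReal_nonneg
  have key : ∀ c : ℝ, n / R < c → per (closedBall (0 : X) R) ≤ ENNReal.ofReal (c * (R ^ n * β)) := by
    intro c hc
    have hc0 : 0 ≤ c := le_trans (by positivity) hc.le
    refine hmink X (closedBall 0 R) _ (isCompact_closedBall _ _) (by positivity) ?_
    have hd : HasDerivAt (fun t : ℝ => (R + t) ^ n) (n * R ^ (n - 1) * 1) 0 := by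
      have h0 := ((hasDerivAt_id (0 : ℝ)).const_add R).fun_pow n
      simpa using h0
    have hlt : (n : ℝ) * R ^ (n - 1) * 1 < c * R ^ n := by
      rw [mul_one]
      rcases Nat.eq_zero_or_pos n with h0 | h0
      · rw [h0] at hc ⊢
        simp at hc ⊢
        exact hc
      · have : R ^ n = R ^ (n - 1) * R := by
          rw [← pow_succ, Nat.sub_add_cancel h0]
        rw [this]
        rw [div_lt_iff₀ hR] at hc
        have hp : 0 < R ^ (n - 1) := by positivity
        nlinarith
    have hev := (hasDerivAt_iff_tendsto_slope.1 hd).eventually (gt_mem_nhds hlt)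
    have hev2 : ∀ᶠ t in 𝓝[>] (0 : ℝ), slope (fun t : ℝ => (R + t) ^ n) 0 t < c * R ^ n :=
      hev.filter_mono (nhdsWithin_mono _ (fun t ht => ne_of_gt ht))
    filter_upwards [hev2, self_mem_nhdsWithin] with t ht ht0
    have ht0' : 0 < t := ht0
    rw [slope_def_field] at ht
    simp only [sub_zero, add_zero] at ht
    rw [div_lt_iff₀ ht0'] at ht
    rw [cthickening_closedBall ht0'.le hR.le, hvol _ (by positivity), hvol _ hR.le,
      ← ENNReal.ofReal_add (by positivity) (by positivity)]
    refine ENNReal.ofReal_le_ofReal ?_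
    have h1 : (t + R) ^ n ≤ R ^ n + c * R ^ n * t := by
      rw [add_comm t R]
      linarith
    calc (t + R) ^ n * β ≤ (R ^ n + c * R ^ n * t) * β := mul_le_mul_of_nonneg_right h1 hβ0
      _ = R ^ n * β + c * (R ^ n * β) * t := by ring
  have hlim : Tendsto (fun c : ℝ => ENNReal.ofReal (c * (R ^ n * β))) (𝓝[>] (n / R))
      (𝓝 (ENNReal.ofReal (n / R * (R ^ n * β)))) := by
    have h1 : Continuous fun c : ℝ => ENNReal.ofReal (c * (R ^ n * β)) :=
      ENNReal.continuous_ofReal.comp (continuous_id.mul continuous_const)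
    exact (h1.tendsto _).mono_left nhdsWithin_le_nhds
  have h2 := ge_of_tendsto hlim (eventually_nhdsWithin_of_forall fun c hc => key c hc)
  refine h2.trans (le_of_eq ?_)
  rw [hvol R hR.le, ENNReal.toReal_ofReal (by positivity)]
  congr 1
  ring

end Q187.PS
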