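import Pool.Agent.Q187.PS.Fun

/-!
# The moment of inertia
-/

set_option autoImplicit false
set_option linter.unusedSectionVars false

open MeasureTheory Set Filter Topology Metric
open scoped RealInnerProductSpace ENNReal NNReal

namespace Q187.PS

open Pool.Agent.H318R3.St Q187.Steiner

lemma meas_w (c : ℝ) : Measurable fun s : ℝ => ENNReal.ofReal (c + s ^ 2) :=
  (continuous_const.add (continuous_id.pow 2)).measurable.ennreal_ofReal

/-- Among the sets of given length the centred interval has the least moment. -/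
lemma mom_one {C : Set ℝ} (hC : IsCompact C) {c : ℝ} (hc : 0 ≤ c) :
    (∫⁻ s in Icc (-((volume C).toReal / 2)) ((volume C).toReal / 2), ENNReal.ofReal (c + s ^ 2) ≤
      ∫⁻ s in C, ENNReal.ofReal (c + s ^ 2)) ∧
    (∫⁻ s in C, ENNReal.ofReal (c + s ^ 2) ≤
      ∫⁻ s in Icc (-((volume C).toReal / 2)) ((volume C).toReal / 2), ENNReal.ofReal (c + s ^ 2) →
      volume (C \ Icc (-((volume C).toReal / 2)) ((volume C).toReal / 2)) = 0) := by
  set ℓ := (volume C).toReal with hℓ
  set B := Icc (-(ℓ / 2)) (ℓ / 2) with hB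
  have hℓ0 : 0 ≤ ℓ := ENNReal.toReal_nonneg
  have hCm := hC.measurableSet
  have hBm : MeasurableSet B := measurableSet_Icc
  have hCfin : volume C ≠ ⊤ := hC.measure_lt_top.ne
  have hBvol : volume B = volume C := by
    rw [hB, Real.volume_Icc, show ℓ / 2 - -(ℓ / 2) = ℓ by ring, hℓ, ENNReal.ofReal_toReal hCfin]
  have hBfin : volume B ≠ ⊤ := by rw [hBvol]; exact hCfin
  have hdiff : volume (C \ B) = volume (B \ C) := by
    have h1 := measure_inter_add_sdiff (μ := volume) C hBm
    have h2 := measure_inter_add_sdiff (μ := volume) B hCm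
    rw [hBvol, ← h1, inter_comm B C] at h2
    exact ((ENNReal.add_right_inj ((measure_mono inter_subset_left).trans_lt
      hC.measure_lt_top).ne).1 h2).symm
  set a := ENNReal.ofReal (c + (ℓ / 2) ^ 2) with ha
  have hCB : ∀ s ∈ C \ B, a ≤ ENNReal.ofReal (c + s ^ 2) ∧ a ≠ ENNReal.ofReal (c + s ^ 2) := by
    rintro s ⟨_, hs⟩
    rw [hB, mem_Icc, ← abs_le, not_le] at hs
    have h1 : (ℓ / 2) ^ 2 < s ^ 2 := by
      rw [← sq_abs s]
      exact pow_lt_pow_left₀ hs (by positivity) two_ne_zero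
    constructor
    · exact ENNReal.ofReal_le_ofReal (by linarith)
    · refine ne_of_lt ?_
      rw [ha, ENNReal.ofReal_lt_ofReal_iff (by nlinarith [sq_nonneg (ℓ / 2)])]
      linarith
  have hBC : ∀ s ∈ B \ C, ENNReal.ofReal (c + s ^ 2) ≤ a := by
    rintro s ⟨hs, _⟩
    rw [hB, mem_Icc, ← abs_le] at hs
    refine ENNReal.ofReal_le_ofReal ?_
    have h1 : s ^ 2 ≤ (ℓ / 2) ^ 2 := by
      rw [← sq_abs s]
      exact pow_le_pow_left₀ (abs_nonneg _) hs 2
    linarith
  have e1 : ∫⁻ s in C, ENNReal.ofReal (c + s ^ 2) = (∫⁻ s in C ∩ B, ENNReal.ofReal (c + s ^ 2)) +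
      ∫⁻ s in C \ B, ENNReal.ofReal (c + s ^ 2) :=
    (lintegral_inter_add_sdiff (μ := volume) (fun s => ENNReal.ofReal (c + s ^ 2)) C hBm).symm
  have e2 : ∫⁻ s in B, ENNReal.ofReal (c + s ^ 2) = (∫⁻ s in C ∩ B, ENNReal.ofReal (c + s ^ 2)) +
      ∫⁻ s in B \ C, ENNReal.ofReal (c + s ^ 2) := by
    rw [inter_comm C B]
    exact (lintegral_inter_add_sdiff (μ := volume) (fun s => ENNReal.ofReal (c + s ^ 2)) B hCm).symm
  have e3 : ∫⁻ s in C \ B, a ≤ ∫⁻ s in C \ B, ENNReal.ofReal (c + s ^ 2) :=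
    setLIntegral_mono' (hCm.diff hBm) fun s hs => (hCB s hs).1
  have e4 : ∫⁻ s in B \ C, ENNReal.ofReal (c + s ^ 2) ≤ ∫⁻ s in B \ C, a :=
    setLIntegral_mono' (hBm.diff hCm) fun s hs => hBC s hs
  have e5 : ∫⁻ _ in C \ B, a = ∫⁻ _ in B \ C, a := by
    rw [setLIntegral_const, setLIntegral_const, hdiff]
  constructor
  · rw [e1, e2]
    exact add_le_add_right (e4.trans (e5.symm.le.trans e3)) _
  · intro h
    have hfinB : ∫⁻ s in C ∩ B, ENNReal.ofReal (c + s ^ 2) ≠ ⊤ := by
      have h1 : ∫⁻ s in C ∩ B, ENNReal.ofReal (c + s ^ 2) ≤ ∫⁻ s in C ∩ B, a := by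
        refine setLIntegral_mono' (hCm.inter hBm) fun s hs => ?_
        have hs2 := hs.2
        rw [hB, mem_Icc, ← abs_le] at hs2
        refine ENNReal.ofReal_le_ofReal ?_
        have h1 : s ^ 2 ≤ (ℓ / 2) ^ 2 := by
          rw [← sq_abs s]
          exact pow_le_pow_left₀ (abs_nonneg _) hs2 2
        linarith
      refine ne_top_of_le_ne_top ?_ h1
      rw [setLIntegral_const]
      exact ENNReal.mul_ne_top ENNReal.ofReal_ne_top
        ((measure_mono inter_subset_left).trans_lt hC.measure_lt_top).ne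
    rw [e1, e2] at h
    have h2 := (ENNReal.add_le_add_iff_left hfinB).1 h
    have h3 : ∫⁻ s in C \ B, ENNReal.ofReal (c + s ^ 2) ≤ ∫⁻ s in C \ B, a :=
      h2.trans (e4.trans e5.symm.le)
    have h4 : (fun _ => a) =ᵐ[volume.restrict (C \ B)] fun s => ENNReal.ofReal (c + s ^ 2) := by
      refine ae_eq_of_ae_le_of_lintegral_le ?_ ?_ (meas_w c).aemeasurable h3
      · rw [Filter.EventuallyLE, ae_restrict_iff' (hCm.diff hBm)]
        exact Eventually.of_forall fun s hs => (hCB s hs).1
      · rw [setLIntegral_const]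
        exact ENNReal.mul_ne_top ENNReal.ofReal_ne_top
          ((measure_mono sdiff_subset).trans_lt hC.measure_lt_top).ne
    rw [Filter.EventuallyEq, ae_restrict_iff' (hCm.diff hBm)] at h4
    refine measure_eq_zero_iff_ae_notMem.2 ?_
    filter_upwards [h4] with s hs hsm
    exact (hCB s hsm).2 (hs hsm)

section

variable {V : Type*} [NormedAddCommGroup V] [InnerProductSpace ℝ V] [FiniteDimensional ℝ V]
  [MeasurableSpace V] [BorelSpace V]

/-- The moment of a set. -/
noncomputable def im (K : Set V) : ℝ≥0∞ := ∫⁻ x in K, ENNReal.ofReal (‖x‖ ^ 2)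

lemma im_line {u : V} (hu : ‖u‖ = 1) {K : Set V} (hK : MeasurableSet K) :
    im K = ∫⁻ x in slab u, ∫⁻ s in chord u (foot u x) K, ENNReal.ofReal (‖foot u x‖ ^ 2 + s ^ 2) := by
  unfold im
  rw [setLIntegral_line hu (fun x => ENNReal.ofReal (‖x‖ ^ 2))
    (continuous_norm.pow 2).measurable.ennreal_ofReal hK]
  refine lintegral_congr fun x => ?_
  refine lintegral_congr fun s => ?_
  rw [norm_line hu (foot_inner hu x)]

lemma meas_chord_lint {u : V} {K : Set V} (hK : MeasurableSet K) :
    Measurable fun x : V => ∫⁻ s in chord u (foot u x) K,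
      ENNReal.ofReal (‖foot u x‖ ^ 2 + s ^ 2) := by
  have h1 : ∀ x : V, ∫⁻ s in chord u (foot u x) K, ENNReal.ofReal (‖foot u x‖ ^ 2 + s ^ 2) =
      ∫⁻ s : ℝ, K.indicator (fun _ => (1 : ℝ≥0∞)) (foot u x + s • u) *
        ENNReal.ofReal (‖foot u x‖ ^ 2 + s ^ 2) := by
    intro x
    have hm : MeasurableSet (chord u (foot u x) K) :=
      (by fun_prop : Continuous fun s : ℝ => foot u x + s • u).measurable hK
    rw [← lintegral_indicator hm]
    refine lintegral_congr fun s => ?_
    by_cases hs : s ∈ chord u (foot u x) K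
    · rw [indicator_of_mem hs, indicator_of_mem (show foot u x + s • u ∈ K from hs), one_mul]
    · rw [indicator_of_notMem hs, indicator_of_notMem (show foot u x + s • u ∉ K from hs), zero_mul]
  simp_rw [h1]
  refine Measurable.lintegral_prod_right' (f := fun p : V × ℝ =>
    K.indicator (fun _ => (1 : ℝ≥0∞)) (foot u p.1 + p.2 • u) *
        ENNReal.ofReal (‖foot u p.1‖ ^ 2 + p.2 ^ 2)) ?_
  refine Measurable.mul ?_ ?_
  · exact (measurable_const.indicator hK).comp
      (((foot_continuous u).comp continuous_fst).add (continuous_snd.smul continuous_const)).measurable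
  · refine Measurable.ennreal_ofReal (Continuous.measurable ?_)
    exact (((foot_continuous u).comp continuous_fst).norm.pow 2).add (continuous_snd.pow 2)

lemma chord_mom {u : V} (hu : ‖u‖ = 1) {K : Set V} (hK : IsCompact K) (x : V) :
    (∫⁻ s in chord u (foot u x) (sym u K), ENNReal.ofReal (‖foot u x‖ ^ 2 + s ^ 2) ≤
      ∫⁻ s in chord u (foot u x) K, ENNReal.ofReal (‖foot u x‖ ^ 2 + s ^ 2)) ∧
    (∫⁻ s in chord u (foot u x) K, ENNReal.ofReal (‖foot u x‖ ^ 2 + s ^ 2) ≤
      ∫⁻ s in chord u (foot u x) (sym u K), ENNReal.ofReal (‖foot u x‖ ^ 2 + s ^ 2) →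
      volume (chord u (foot u x) K \ chord u (foot u x) (sym u K)) = 0) := by
  have hx := foot_inner hu x
  rcases Set.eq_empty_or_nonempty (chord u (foot u x) K) with h | h
  · rw [chord_sym_empty hu hx h, h]
    simp
  · rw [chord_sym hu hx h]
    exact mom_one (chord_isCompact hu _ hK) (by positivity)

lemma im_sym_le {u : V} (hu : ‖u‖ = 1) {K : Set V} (hK : IsCompact K) : im (sym u K) ≤ im K := by
  rw [im_line hu hK.measurableSet, im_line hu (sym_compact hu hK).measurableSet]
  exact lintegral_mono fun x => (chord_mom hu hK x).1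

lemma im_lt_top {K : Set V} (hK : IsCompact K) : im K < ⊤ := by
  obtain ⟨r, hr⟩ := hK.isBounded.subset_closedBall 0
  unfold im
  have h1 : ∫⁻ x in K, ENNReal.ofReal (‖x‖ ^ 2) ≤ ∫⁻ x in K, ENNReal.ofReal (r ^ 2) := by
    refine setLIntegral_mono' hK.measurableSet fun x hx => ?_
    have h2 := hr hx
    rw [mem_closedBall_zero_iff] at h2
    exact ENNReal.ofReal_le_ofReal (pow_le_pow_left₀ (norm_nonneg _) h2 2)
  refine lt_of_le_of_lt h1 ?_
  rw [setLIntegral_const]
  exact ENNReal.mul_lt_top ENNReal.ofReal_lt_top hK.measure_lt_top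

lemma im_sym_eq {u : V} (hu : ‖u‖ = 1) {K : Set V} (hK : IsCompact K) (h : im K ≤ im (sym u K)) :
    volume (K \ sym u K) = 0 := by
  have hS := sym_compact hu hK
  have hfin : im (sym u K) ≠ ⊤ := (im_lt_top hS).ne
  rw [im_line hu hK.measurableSet, im_line hu hS.measurableSet] at h
  rw [im_line hu hS.measurableSet] at hfin
  have h1 := ae_eq_of_ae_le_of_lintegral_le (μ := volume.restrict (slab u))
    (Eventually.of_forall fun x => (chord_mom hu hK x).1) hfin
    (meas_chord_lint hK.measurableSet).aemeasurable h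
  have h2 := setLIntegral_line hu (fun _ => (1 : ℝ≥0∞)) measurable_const
    (hK.measurableSet.diff hS.measurableSet)
  rw [setLIntegral_one] at h2
  rw [h2]
  refine (lintegral_congr_ae (g := fun _ => 0) ?_).trans (by simp)
  filter_upwards [h1] with x hx
  have h3 := (chord_mom hu hK x).2 hx.ge
  have e : ∀ A B : Set V, chord u (foot u x) (A \ B) = chord u (foot u x) A \ chord u (foot u x) B :=
    fun A B => rfl
  rw [← h3, ← e, setLIntegral_one]

end

end Q187.PS
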