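import Pool.Agent.Q187.PS.Fun
import Pool.Agent.Q187.PS.Mom

/-!
# Perimeter along Steiner symmetrizations: definitions (project PS)
-/

set_option autoImplicit false
set_option linter.unusedSectionVars false

open MeasureTheory Set Filter Topology Metric
open scoped RealInnerProductSpace ENNReal NNReal

namespace Q187.PS

open Pool.Agent.H318R3.St Q187.Steiner

/-- The plane. -/
abbrev V2 := EuclideanSpace ℝ (Fin 2)

/-- The unit vector of angle `θ`. -/
noncomputable def dir (θ : ℝ) : V2 := !₂[Real.cos θ, Real.sin θ]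

lemma norm_dir (θ : ℝ) : ‖dir θ‖ = 1 := by
  rw [dir, EuclideanSpace.norm_eq]
  simp [Fin.sum_univ_two]

section

variable {V : Type*} [NormedAddCommGroup V] [InnerProductSpace ℝ V] [FiniteDimensional ℝ V]
  [MeasurableSpace V] [BorelSpace V]

/-- The direction `u` is generic for `g`. -/
def Gen (g : V → ℝ) (u : V) : Prop := ∀ᵐ x, fderiv ℝ g x u = 0 → fderiv ℝ g x = 0

/-- The moment of a function. -/
noncomputable def mom (g : V → ℝ) : ℝ≥0∞ := ∫⁻ x, ENNReal.ofReal (‖x‖ ^ 2) * ENNReal.ofReal (g x)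

/-- The perimeter of a set. -/
noncomputable def per (K : Set V) : ℝ≥0∞ :=
  ⨆ (φ : V → V) (_ : ContDiff ℝ 1 φ) (_ : HasCompactSupport φ) (_ : ∀ x, ‖φ x‖ ≤ 1),
    ENNReal.ofReal (∫ x in K, LinearMap.trace ℝ V (fderiv ℝ φ x : V →ₗ[ℝ] V))

end

/-- The space of dimension `m + 2`. -/
abbrev XX (m : ℕ) := WithLp 2 (V2 × EuclideanSpace ℝ (Fin m))

/-- The body of revolution over a function on the plane. -/
def Eg (m : ℕ) (g : V2 → ℝ) (c : ℝ) : Set (XX m) := {x | ‖x.snd‖ ^ 2 + c ≤ g x.fst}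

/-- The properties of the measure with random base four digits in `{0, 1}`. -/
structure Dig (ν : Measure ℝ) : Prop where
  prob : IsProbabilityMeasure ν
  supp : ν (Icc 0 (1 / 3))ᶜ = 0
  self : ∀ A : Set ℝ, MeasurableSet A →
    ν A = 2⁻¹ * ν {v | v / 4 ∈ A} + 2⁻¹ * ν {v | (v + 1) / 4 ∈ A}
  sing : ∃ D : Set ℝ, MeasurableSet D ∧ volume D = 0 ∧ ν Dᶜ = 0

/-- The function which spreads out the measure `volume + ν`. -/
structure Spread (ν : Measure ℝ) (β : ℝ → ℝ) : Prop where
  lip : ∀ x y, |β x - β y| ≤ |x - y|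
  near : ∀ x, |β x - x| ≤ 1
  inj : Function.Injective β
  map : Measure.map β volume = volume + ν

/-- The function of two variables. -/
noncomputable def HH (β : ℝ → ℝ) (v : V2) : ℝ := 2 * |β (v 0)| + |β (v 1)|

/-- The area of its sublevel sets. -/
noncomputable def area (β : ℝ → ℝ) (t : ℝ) : ℝ := (volume {v : V2 | HH β v ≤ t}).toReal

/-- The starting function. -/
noncomputable def start (β : ℝ → ℝ) (v : V2) : ℝ := max 0 (18 - area β (min (HH β v) 16) / Real.pi)

/-- The set of critical points at given heights. -/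
def crit (g : V2 → ℝ) (J : Set ℝ) : Set V2 := {v | g v ∈ J ∧ fderiv ℝ g v = 0}

/-- The cut-off function: zero up to `1`, one from `7` on. -/
noncomputable def th (s : ℝ) : ℝ := Real.smoothTransition ((s - 1) / 6)

/-- The radial coefficient. -/
noncomputable def bb (r s : ℝ) : ℝ := th s * (1 / √s - 1 / r)

/-- The radial density. -/
noncomputable def kk (m : ℕ) (s : ℝ) : ℝ := th s * (√s) ^ m / s

/-- The volume of the unit ball. -/
noncomputable def bv (m : ℕ) : ℝ := (volume (closedBall (0 : EuclideanSpace ℝ (Fin m)) 1)).toReal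

/-- The divergence of the test field. -/
noncomputable def dv (m : ℕ) (r : ℝ) (χ : V2 → ℝ) (x : XX m) : ℝ :=
  (m + 2) / r - 1 / r * (th (‖x.snd‖ ^ 2) * (2 * χ x.fst + fderiv ℝ χ x.fst x.fst)) +
    χ x.fst * (m * bb r (‖x.snd‖ ^ 2) + 2 * ‖x.snd‖ ^ 2 * deriv (bb r) (‖x.snd‖ ^ 2))

/-- The density of the excess. -/
noncomputable def hh (m : ℕ) (r : ℝ) (g : V2 → ℝ) (v : V2) : ℝ :=
  m * bv m * (1 / (2 * r) * (kk m (g v - 9) * fderiv ℝ g v v) +
    (√(g v - 9)) ^ m * bb r (g v - 9))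

end Q187.PS
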