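import Pool.Agent.Q187.PS.Asm

/-!
# JOB EVOL
-/

set_option autoImplicit false
set_option linter.unusedSectionVars false

open MeasureTheory Set Filter Topology Metric
open scoped RealInnerProductSpace ENNReal NNReal

namespace Q187.PS

open Pool.Agent.H318R3.St Q187.Steiner

lemma evol_aux (m : ℕ) {g : V2 → ℝ} (hg : Continuous g)
    (h : ∀ s : ℝ, 0 < s → volume (lev g s) = ENNReal.ofReal (Real.pi * (18 - s))) {c : ℝ}
    (hc : 0 < c) : volume (Eg m g c) =
      ∫⁻ w : EuclideanSpace ℝ (Fin m), ENNReal.ofReal (Real.pi * (18 - (‖w‖ ^ 2 + c))) := by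
  let S : Set (V2 × EuclideanSpace ℝ (Fin m)) := {p | ‖p.2‖ ^ 2 + c ≤ g p.1}
  have hS : MeasurableSet S :=
    (isClosed_le ((continuous_snd.norm.pow 2).add continuous_const)
      (hg.comp continuous_fst)).measurableSet
  have h1 : Eg m g c = (WithLp.ofLp : XX m → V2 × EuclideanSpace ℝ (Fin m)) ⁻¹' S := rfl
  rw [h1, (WithLp.volume_preserving_ofLp V2 (EuclideanSpace ℝ (Fin m))).measure_preimage
    hS.nullMeasurableSet, Measure.volume_eq_prod, Measure.prod_apply_symm hS]
  refine lintegral_congr fun w => ?_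
  exact h (‖w‖ ^ 2 + c) (by positivity)

/-- The paraboloid. -/
noncomputable def gst (v : V2) : ℝ := max 0 (18 - ‖v‖ ^ 2)

lemma gst_cont : Continuous gst := by
  unfold gst
  fun_prop

lemma gst_lev {s : ℝ} (hs : 0 < s) : volume (lev gst s) = ENNReal.ofReal (Real.pi * (18 - s)) := by
  rcases le_or_gt s 18 with h | h
  · have h1 : lev gst s = closedBall 0 √(18 - s) := by
      ext v
      rw [mem_closedBall_zero_iff]
      constructor
      · intro hv
        have h2 : s ≤ max 0 (18 - ‖v‖ ^ 2) := hv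
        refine Real.le_sqrt_of_sq_le ?_
        rcases le_max_iff.1 h2 with h3 | h3
        · linarith
        · linarith
      · intro hv
        have h2 := pow_le_pow_left₀ (norm_nonneg _) hv 2
        rw [Real.sq_sqrt (by linarith)] at h2
        show s ≤ max 0 (18 - ‖v‖ ^ 2)
        exact le_max_of_le_right (by linarith)
    rw [h1, EuclideanSpace.volume_closedBall_fin_two, ← ENNReal.ofReal_pow (Real.sqrt_nonneg _),
      ← ENNReal.ofReal_mul (by positivity), Real.sq_sqrt (by linarith), mul_comm]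
  · have h1 : lev gst s = ∅ := by
      rw [eq_empty_iff_forall_notMem]
      intro v hv
      have h2 : s ≤ max 0 (18 - ‖v‖ ^ 2) := hv
      rcases le_max_iff.1 h2 with h3 | h3
      · linarith
      · nlinarith [sq_nonneg ‖v‖]
    rw [h1, measure_empty, ENNReal.ofReal_of_nonpos]
    have := Real.pi_pos
    nlinarith

lemma gst_Eg {m : ℕ} {c : ℝ} (hc : 0 < c) (hc18 : c ≤ 18) :
    Eg m gst c = closedBall (0 : XX m) √(18 - c) := by
  ext x
  rw [mem_closedBall_zero_iff]
  constructor
  · intro hx
    have h1 : ‖x.snd‖ ^ 2 + c ≤ max 0 (18 - ‖x.fst‖ ^ 2) := hx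
    refine Real.le_sqrt_of_sq_le ?_
    rw [XX.norm_sq]
    rcases le_max_iff.1 h1 with h3 | h3
    · nlinarith [sq_nonneg ‖x.snd‖]
    · linarith
  · intro hx
    have h2 := pow_le_pow_left₀ (norm_nonneg _) hx 2
    rw [Real.sq_sqrt (by linarith), XX.norm_sq] at h2
    show ‖x.snd‖ ^ 2 + c ≤ max 0 (18 - ‖x.fst‖ ^ 2)
    exact le_max_of_le_right (by linarith)

theorem evol : S_Evol := by
  intro m L ρ g hL hρ hg hvol c hc hc18
  have h1 : ∀ s : ℝ, 0 < s → volume (lev g s) = ENNReal.ofReal (Real.pi * (18 - s)) := by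
    intro s hs
    rcases le_or_gt s 18 with h | h
    · exact hvol s ⟨hs, h⟩
    · have h1 : lev g s = ∅ := by
        rw [eq_empty_iff_forall_notMem]
        intro v hv
        have h2 : s ≤ g v := hv
        have h3 := hg.le v
        linarith
      rw [h1, measure_empty, ENNReal.ofReal_of_nonpos]
      have := Real.pi_pos
      nlinarith
  rw [evol_aux m hg.continuous h1 hc, ← evol_aux m gst_cont (fun s hs => gst_lev hs) hc,
    gst_Eg hc hc18]

end Q187.PS
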