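import Pool.Agent.Q187.PS.Transfer

/-!
# The final form
-/

set_option autoImplicit false

open MeasureTheory Set Filter Topology Metric
open scoped RealInnerProductSpace ENNReal Pointwise

namespace Q187.PS.Fin

/-- The Steiner symmetral `S_u E`: every nonempty section `E ∩ (x' + ℝ u)`, `x' ⊥ u`, is replaced
by the closed segment `{x' + t u : |t| ≤ ℓ(x') / 2}`, where `ℓ(x')` is the one-dimensional measure
of the section, i.e. of `{s | x' + s u ∈ E}`. -/
def steiner {n : ℕ} (u : EuclideanSpace ℝ (Fin n)) (E : Set (EuclideanSpace ℝ (Fin n))) :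
    Set (EuclideanSpace ℝ (Fin n)) :=
  {y | ∃ (x' : EuclideanSpace ℝ (Fin n)) (t : ℝ), ⟪x', u⟫ = 0 ∧ (∃ s : ℝ, x' + s • u ∈ E) ∧
    |t| ≤ (volume {s : ℝ | x' + s • u ∈ E}).toReal / 2 ∧ y = x' + t • u}

/-- The iterated symmetrals: `E_0 = E` and `E_{i+1} = S_{u_{i+1}} E_i`; the direction `u_{i+1}` is
`u i`. -/
def iterate {n : ℕ} (u : ℕ → EuclideanSpace ℝ (Fin n)) (E : Set (EuclideanSpace ℝ (Fin n))) :
    ℕ → Set (EuclideanSpace ℝ (Fin n))
  | 0 => E
  | i + 1 => steiner (u i) (iterate u E i)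

/-- The Hausdorff distance: the least `lam ≥ 0` with `E ⊆ F + lam Bⁿ` and `F ⊆ E + lam Bⁿ`. -/
noncomputable def dH {n : ℕ} (E F : Set (EuclideanSpace ℝ (Fin n))) : ℝ :=
  sInf {lam : ℝ | 0 ≤ lam ∧ E ⊆ F + closedBall 0 lam ∧ F ⊆ E + closedBall 0 lam}

/-- The perimeter `P(E) = |D χ_E|(ℝⁿ)`: the supremum of `∫_E div φ` over all continuously
differentiable vector fields `φ` with compact support and `|φ| ≤ 1` everywhere. -/
noncomputable def perimeter {n : ℕ} (E : Set (EuclideanSpace ℝ (Fin n))) : ℝ≥0∞ :=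
  ⨆ (φ : EuclideanSpace ℝ (Fin n) → EuclideanSpace ℝ (Fin n)) (_ : ContDiff ℝ 1 φ)
    (_ : HasCompactSupport φ) (_ : ∀ x, ‖φ x‖ ≤ 1),
    ENNReal.ofReal (∫ x in E, ∑ i, fderiv ℝ φ x (EuclideanSpace.single i 1) i)

lemma steiner_eq {n : ℕ} (u : EuclideanSpace ℝ (Fin n)) (E : Set (EuclideanSpace ℝ (Fin n))) :
    steiner u E = Pool.Agent.H318R3.St.sym u E := by
  ext y
  constructor
  · rintro ⟨x, t, h1, h2, h3, h4⟩
    exact ⟨x, t, h4, h1, h2, by
      have : (volume {s : ℝ | x + s • u ∈ E}).toReal =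
        (volume (Pool.Agent.H318R3.St.chord u x E)).toReal := rfl
      linarith⟩
  · rintro ⟨x, t, h4, h1, h2, h3⟩
    exact ⟨x, t, h1, h2, by
      have : (volume {s : ℝ | x + s • u ∈ E}).toReal =
        (volume (Pool.Agent.H318R3.St.chord u x E)).toReal := rfl
      linarith, h4⟩

lemma iterate_eq {n : ℕ} (u : ℕ → EuclideanSpace ℝ (Fin n))
    (E : Set (EuclideanSpace ℝ (Fin n))) (i : ℕ) : iterate u E i = Q187.Steiner.iter u E i := by
  induction i with
  | zero => rfl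
  | succ i ih =>
    show steiner (u i) (iterate u E i) = Pool.Agent.H318R3.St.sym (u i) (Q187.Steiner.iter u E i)
    rw [steiner_eq, ih]

lemma dH_le {n : ℕ} {E F : Set (EuclideanSpace ℝ (Fin n))} {lam : ℝ} (h0 : 0 ≤ lam)
    (h1 : E ⊆ F + closedBall 0 lam) (h2 : F ⊆ E + closedBall 0 lam) : dH E F ≤ lam := by
  apply csInf_le
  · exact ⟨0, fun x hx => hx.1⟩
  · exact ⟨h0, h1, h2⟩

lemma dH_nonneg {n : ℕ} (E F : Set (EuclideanSpace ℝ (Fin n))) : 0 ≤ dH E F :=
  Real.sInf_nonneg fun x hx => hx.1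

lemma trace_eq {n : ℕ} (A : EuclideanSpace ℝ (Fin n) →L[ℝ] EuclideanSpace ℝ (Fin n)) :
    LinearMap.trace ℝ _ (A : EuclideanSpace ℝ (Fin n) →ₗ[ℝ] EuclideanSpace ℝ (Fin n)) =
      ∑ i, A (EuclideanSpace.single i 1) i := by
  rw [LinearMap.trace_eq_matrix_trace ℝ (EuclideanSpace.basisFun (Fin n) ℝ).toBasis, Matrix.trace]
  refine Finset.sum_congr rfl fun i _ => ?_
  rw [Matrix.diag_apply, LinearMap.toMatrix_apply]
  simp

lemma perimeter_eq {n : ℕ} (E : Set (EuclideanSpace ℝ (Fin n))) :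
    perimeter E = Q187.PS.per E := by
  unfold perimeter Q187.PS.per
  simp_rw [trace_eq]

/-- From nested balls to the Hausdorff distance. -/
lemma dH_balls {n : ℕ} {E : Set (EuclideanSpace ℝ (Fin n))} {R ε : ℝ} (hε : 0 < ε)
    (hεR : ε < R) (h1 : closedBall (0 : EuclideanSpace ℝ (Fin n)) (R - ε) ⊆ E)
    (h2 : E ⊆ closedBall 0 (R + ε)) : dH E (closedBall 0 R) ≤ ε := by
  -- scaling moves the points of a ball into a smaller one
  have key : ∀ (a b : ℝ), 0 < a → 0 < b → b - a ≤ ε →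
      closedBall (0 : EuclideanSpace ℝ (Fin n)) b ⊆ closedBall 0 a + closedBall 0 ε := by
    intro a b ha hb hab x hx
    rw [mem_closedBall_zero_iff] at hx
    rcases le_or_gt ‖x‖ a with h | h
    · exact ⟨x, mem_closedBall_zero_iff.2 h, 0, mem_closedBall_zero_iff.2 (by simpa using hε.le),
        add_zero _⟩
    · have hx0 : 0 < ‖x‖ := ha.trans h
      refine ⟨(a / ‖x‖) • x, ?_, (1 - a / ‖x‖) • x, ?_, ?_⟩
      · rw [mem_closedBall_zero_iff, norm_smul, Real.norm_eq_abs, abs_of_pos (by positivity),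
          div_mul_cancel₀ _ hx0.ne']
      · have h3 : 0 ≤ 1 - a / ‖x‖ := by
          rw [sub_nonneg, div_le_one hx0]
          exact h.le
        rw [mem_closedBall_zero_iff, norm_smul, Real.norm_eq_abs, abs_of_nonneg h3, sub_mul,
          one_mul, div_mul_cancel₀ _ hx0.ne']
        linarith
      · show (a / ‖x‖) • x + (1 - a / ‖x‖) • x = x
        rw [← add_smul]
        simp
  refine dH_le hε.le ?_ ?_
  · exact h2.trans (key R (R + ε) (by linarith) (by linarith) (by linarith))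
  · exact (key (R - ε) R (by linarith) (by linarith) (by linarith)).trans
      (add_subset_add_right h1)

/-- The final theorem from the abstract one. -/
theorem fin {n : ℕ} (h : Q187.PS.Main (EuclideanSpace ℝ (Fin n))) :
    ∃ (E : Set (EuclideanSpace ℝ (Fin n))) (u : ℕ → EuclideanSpace ℝ (Fin n)) (R δ : ℝ),
      IsCompact E ∧ (interior E).Nonempty ∧ perimeter E < ⊤ ∧ (∀ i, ‖u i‖ = 1) ∧ 0 < R ∧
      volume (closedBall (0 : EuclideanSpace ℝ (Fin n)) R) = volume E ∧
      Tendsto (fun i => dH (iterate u E i) (closedBall 0 R)) atTop (𝓝 0) ∧ 0 < δ ∧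
      (∀ i, perimeter (closedBall (0 : EuclideanSpace ℝ (Fin n)) R) + ENNReal.ofReal δ ≤
        perimeter (iterate u E i)) ∧
      ¬ Tendsto (fun i => perimeter (iterate u E i)) atTop
        (𝓝 (perimeter (closedBall (0 : EuclideanSpace ℝ (Fin n)) R))) := by
  obtain ⟨E, u, δ, h1, h2, h3, h4, h5, h6, h7, h8⟩ := h
  have hge : ∀ i, perimeter (closedBall (0 : EuclideanSpace ℝ (Fin n)) 3) + ENNReal.ofReal δ ≤
      perimeter (iterate u E i) := by
    intro i
    rw [perimeter_eq, perimeter_eq, iterate_eq]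
    exact h8 i
  have hfin : perimeter E < ⊤ := by
    rw [perimeter_eq]
    exact h4
  have hball : perimeter (closedBall (0 : EuclideanSpace ℝ (Fin n)) 3) < ⊤ :=
    (le_self_add.trans (hge 0)).trans_lt hfin
  refine ⟨E, u, 3, δ, h2, h3, hfin, h5, by norm_num, h6.symm, ?_, h1, hge, ?_⟩
  · rw [Metric.tendsto_atTop]
    intro ε hε
    set κ : ℝ := min (ε / 2) 1 with hκ
    have hκ0 : 0 < κ := lt_min (by positivity) one_pos
    have hκ1 : κ ≤ 1 := min_le_right _ _
    have hκε : κ ≤ ε / 2 := min_le_left _ _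
    obtain ⟨N, hN⟩ := eventually_atTop.1 (h7 κ hκ0)
    refine ⟨N, fun i hi => ?_⟩
    have h9 := hN i hi
    rw [← iterate_eq] at h9
    have h10 := dH_balls hκ0 (by linarith) h9.1 h9.2
    rw [Real.dist_eq, sub_zero, abs_of_nonneg (dH_nonneg _ _)]
    linarith
  · intro hcon
    have h9 := ge_of_tendsto' hcon hge
    have h10 : perimeter (closedBall (0 : EuclideanSpace ℝ (Fin n)) 3) <
        perimeter (closedBall (0 : EuclideanSpace ℝ (Fin n)) 3) + ENNReal.ofReal δ :=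
      ENNReal.lt_add_right hball.ne (ENNReal.ofReal_pos.2 h1).ne'
    exact absurd h9 (not_le.2 h10)

end Q187.PS.Fin
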