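import Pool.Agent.Q187.Steiner.Basic

/-!
# Steiner symmetrization of functions
-/

set_option autoImplicit false
set_option linter.unusedSectionVars false

open MeasureTheory Set Filter Topology Metric
open scoped RealInnerProductSpace ENNReal

namespace Q187.PS

open Pool.Agent.H318R3.St Q187.Steiner

/-- Adding an interval to a compact set of numbers. -/
lemma vol_thick {C : Set ℝ} (hC : IsCompact C) (hne : C.Nonempty) {h : ℝ} (hh : 0 ≤ h) :
    ENNReal.ofReal (2 * h) + volume C ≤ volume {t : ℝ | ∃ τ ∈ C, |t - τ| ≤ h} := by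
  have ha : sInf C ∈ C := hC.sInf_mem hne
  have hb : sSup C ∈ C := hC.sSup_mem hne
  have hla : ∀ x ∈ C, sInf C ≤ x := fun x hx => csInf_le hC.bddBelow hx
  have hlb : ∀ x ∈ C, x ≤ sSup C := fun x hx => le_csSup hC.bddAbove hx
  have h1 : Ico (sInf C - h) (sInf C) ∪ (C ∪ Ioc (sSup C) (sSup C + h)) ⊆
      {t : ℝ | ∃ τ ∈ C, |t - τ| ≤ h} := by
    rintro t (ht | ht | ht)
    · exact ⟨_, ha, abs_le.2 ⟨by linarith [ht.1], by linarith [ht.2]⟩⟩
    · exact ⟨t, ht, by simpa using hh⟩
    · exact ⟨_, hb, abs_le.2 ⟨by linarith [ht.1], by linarith [ht.2]⟩⟩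
  refine le_trans (le_of_eq ?_) (measure_mono h1)
  rw [measure_union, measure_union, Real.volume_Ico, Real.volume_Ioc]
  · rw [show sInf C - (sInf C - h) = h by ring, show sSup C + h - sSup C = h by ring,
      two_mul, ENNReal.ofReal_add hh hh]
    ring
  · rw [Set.disjoint_left]
    intro t ht ht'
    exact absurd (hlb t ht) (not_le.2 ht'.1)
  · exact measurableSet_Ioc
  · rw [Set.disjoint_left]
    rintro t ht (ht' | ht')
    · exact absurd (hla t ht') (not_le.2 ht.2)
    · have h2 := hla _ hb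
      exact absurd ht'.1 (not_lt.2 (by linarith [ht.2]))
  · exact hC.measurableSet.union measurableSet_Ioc

section

variable {V : Type*} [NormedAddCommGroup V] [InnerProductSpace ℝ V]

/-- The superlevel sets. -/
def lev (g : V → ℝ) (s : ℝ) : Set V := {x | s ≤ g x}

/-- The admissible functions. -/
structure Adm (M L ρ : ℝ) (g : V → ℝ) : Prop where
  nonneg : ∀ x, 0 ≤ g x
  le : ∀ x, g x ≤ M
  lip : ∀ x y, |g x - g y| ≤ L * ‖x - y‖
  out : ∀ x, ρ < ‖x‖ → g x = 0

/-- The Steiner symmetral of a function. -/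
noncomputable def symf (u : V) (g : V → ℝ) (x : V) : ℝ :=
  sSup {s : ℝ | s = 0 ∨ (0 < s ∧ x ∈ sym u (lev g s))}

variable {M L ρ : ℝ} {g : V → ℝ}

lemma Adm.continuous (hg : Adm M L ρ g) : Continuous g := by
  have hL : LipschitzWith (Real.toNNReal L) g := by
    refine LipschitzWith.of_dist_le_mul fun x y => ?_
    rw [Real.dist_eq, dist_eq_norm]
    refine (hg.lip x y).trans ?_
    exact mul_le_mul_of_nonneg_right (Real.le_coe_toNNReal L) (norm_nonneg _)
  exact hL.continuous

lemma Adm.lipschitz (hg : Adm M L ρ g) : LipschitzWith (Real.toNNReal L) g := by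
  refine LipschitzWith.of_dist_le_mul fun x y => ?_
  rw [Real.dist_eq, dist_eq_norm]
  refine (hg.lip x y).trans ?_
  exact mul_le_mul_of_nonneg_right (Real.le_coe_toNNReal L) (norm_nonneg _)

lemma lev_anti (g : V → ℝ) {s s' : ℝ} (h : s ≤ s') : lev g s' ⊆ lev g s :=
  fun _ hx => le_trans h hx

lemma Adm.lev_sub (hg : Adm M L ρ g) {s : ℝ} (hs : 0 < s) : lev g s ⊆ closedBall 0 ρ := by
  intro x hx
  rw [mem_closedBall_zero_iff]
  by_contra h
  have h1 : s ≤ g x := hx
  rw [hg.out x (not_le.1 h)] at h1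
  linarith

lemma Adm.lev_closed (hg : Adm M L ρ g) (s : ℝ) : IsClosed (lev g s) :=
  isClosed_le continuous_const hg.continuous

lemma Adm.lev_compact [FiniteDimensional ℝ V] (hg : Adm M L ρ g) {s : ℝ} (hs : 0 < s) :
    IsCompact (lev g s) :=
  Metric.isCompact_of_isClosed_isBounded (hg.lev_closed s)
    (isBounded_closedBall.subset (hg.lev_sub hs))

lemma sym_mono {u : V} {A B : Set V} (hu : ‖u‖ = 1) (h : A ⊆ B)
    (hB : IsCompact B) : sym u A ⊆ sym u B := by
  intro y hy
  rw [mem_sym_iff hu] at hy ⊢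
  have hsub : chord u (foot u y) A ⊆ chord u (foot u y) B := fun t ht => h ht
  refine ⟨hy.1.mono hsub, hy.2.trans ?_⟩
  exact ENNReal.toReal_mono (chord_isCompact hu _ hB).measure_lt_top.ne (measure_mono hsub)

variable [FiniteDimensional ℝ V]

lemma bddAbove_set (hg : Adm M L ρ g) {u x : V} :
    BddAbove {s : ℝ | s = 0 ∨ (0 < s ∧ x ∈ sym u (lev g s))} := by
  refine ⟨max M 0, ?_⟩
  rintro s (rfl | ⟨_, hx⟩)
  · exact le_max_right _ _
  · obtain ⟨_, _, _, _, ⟨τ, hτ⟩, _⟩ := hx
    have h1 : s ≤ g _ := hτ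
    exact le_max_of_le_left (h1.trans (hg.le _))

/-- The superlevel sets of the symmetral. -/
lemma le_symf_iff (hg : Adm M L ρ g) {u : V} (hu : ‖u‖ = 1) {s : ℝ} (hs : 0 < s) (x : V) :
    s ≤ symf u g x ↔ x ∈ sym u (lev g s) := by
  constructor
  · intro h
    -- all smaller levels
    have h1 : ∀ s', 0 < s' → s' < s → x ∈ sym u (lev g s') := by
      intro s' hs'0 hs'
      have hlt : s' < symf u g x := lt_of_lt_of_le hs' h
      have hne : {s : ℝ | s = 0 ∨ (0 < s ∧ x ∈ sym u (lev g s))}.Nonempty := ⟨0, Or.inl rfl⟩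
      obtain ⟨s'', hs'', hlt'⟩ := exists_lt_of_lt_csSup hne hlt
      rcases hs'' with rfl | ⟨h2, h3⟩
      · linarith
      · exact sym_mono hu (lev_anti g hlt'.le) (hg.lev_compact hs'0) h3
    let r : ℕ → ℝ := fun k => s * (1 - 1 / ((k : ℝ) + 2))
    have hr0 : ∀ k, 0 < r k := by
      intro k
      have : (1 : ℝ) / ((k : ℝ) + 2) < 1 := by
        rw [div_lt_one (by positivity)]
        have : (0 : ℝ) ≤ k := Nat.cast_nonneg k
        linarith
      exact mul_pos hs (by linarith)
    have hrs : ∀ k, r k < s := by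
      intro k
      have : (0 : ℝ) < 1 / ((k : ℝ) + 2) := by positivity
      show s * _ < s
      nlinarith
    have hrmono : Monotone r := by
      intro k l hkl
      have h2 : (1 : ℝ) / ((l : ℝ) + 2) ≤ 1 / ((k : ℝ) + 2) := by
        apply one_div_le_one_div_of_le (by positivity)
        have : (k : ℝ) ≤ l := by exact_mod_cast hkl
        linarith
      show s * _ ≤ s * _
      exact mul_le_mul_of_nonneg_left (by linarith) hs.le
    have hrlim : Tendsto r atTop (𝓝 s) := by
      have h2 : Tendsto (fun k : ℕ => (1 : ℝ) / ((k : ℝ) + 2)) atTop (𝓝 0) := by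
        have h3 := (tendsto_one_div_add_atTop_nhds_zero_nat (𝕜 := ℝ)).comp (tendsto_add_atTop_nat 1)
        refine h3.congr fun k => ?_
        simp only [Function.comp_apply]
        push_cast
        ring
      have h4 := (h2.const_sub 1).const_mul s
      simpa [r, one_div] using h4
    have hC : ∀ k, (chord u (foot u x) (lev g (r k))).Nonempty ∧
        2 * |⟪x, u⟫| ≤ (volume (chord u (foot u x) (lev g (r k)))).toReal :=
      fun k => (mem_sym_iff hu _ _).1 (h1 _ (hr0 k) (hrs k))
    have hcomp : ∀ k, IsCompact (chord u (foot u x) (lev g (r k))) :=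
      fun k => chord_isCompact hu _ (hg.lev_compact (hr0 k))
    have hanti : ∀ k l, k ≤ l → chord u (foot u x) (lev g (r l)) ⊆
        chord u (foot u x) (lev g (r k)) :=
      fun k l hkl t ht => lev_anti g (hrmono hkl) ht
    have hInter : ⋂ k, chord u (foot u x) (lev g (r k)) = chord u (foot u x) (lev g s) := by
      ext t
      rw [mem_iInter]
      constructor
      · intro ht
        exact le_of_tendsto hrlim (Eventually.of_forall fun k => ht k)
      · intro ht k
        exact lev_anti g (hrs k).le ht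
    rw [mem_sym_iff hu]
    constructor
    · rw [← hInter]
      exact IsCompact.nonempty_iInter_of_sequence_nonempty_isCompact_isClosed _
        (fun k => hanti _ _ (Nat.le_succ k)) (fun k => (hC k).1) (hcomp 0)
        (fun k => (hcomp k).isClosed)
    · have h2 : Tendsto (fun k => volume (chord u (foot u x) (lev g (r k)))) atTop
          (𝓝 (volume (⋂ k, chord u (foot u x) (lev g (r k))))) :=
        tendsto_measure_iInter_atTop (fun k => (hcomp k).measurableSet.nullMeasurableSet)
          (fun k l hkl => hanti k l hkl) ⟨0, (hcomp 0).measure_lt_top.ne⟩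
      rw [hInter] at h2
      have h3 := (ENNReal.tendsto_toReal
        (chord_isCompact hu (foot u x) (hg.lev_compact hs)).measure_lt_top.ne).comp h2
      exact ge_of_tendsto' h3 fun k => (hC k).2
  · intro h
    exact le_csSup (bddAbove_set hg) (Or.inr ⟨hs, h⟩)

lemma lev_symf (hg : Adm M L ρ g) {u : V} (hu : ‖u‖ = 1) {s : ℝ} (hs : 0 < s) :
    lev (symf u g) s = sym u (lev g s) := by
  ext x
  exact le_symf_iff hg hu hs x

lemma symf_nonneg (hg : Adm M L ρ g) (u x : V) : 0 ≤ symf u g x :=
  le_csSup (bddAbove_set hg) (Or.inl rfl)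

/-- The symmetral is admissible. -/
lemma Adm.symf (hM : 0 ≤ M) (hL : 0 ≤ L) (hρ : 0 ≤ ρ) (hg : Adm M L ρ g) {u : V} (hu : ‖u‖ = 1) :
    Adm M L ρ (symf u g) := by
  have key : ∀ x y, Q187.PS.symf u g x - L * ‖x - y‖ ≤ Q187.PS.symf u g y := by
    intro x y
    by_cases hle : Q187.PS.symf u g x - L * ‖x - y‖ ≤ 0
    · exact hle.trans (symf_nonneg hg u y)
    push Not at hle
    have hLn : 0 ≤ L * ‖x - y‖ := mul_nonneg hL (norm_nonneg _)
    have hs : 0 < Q187.PS.symf u g x := by linarith
    have hx := (le_symf_iff hg hu hs x).1 le_rfl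
    rw [le_symf_iff hg hu hle y]
    rw [mem_sym_iff hu] at hx ⊢
    set s := Q187.PS.symf u g x with hsdef
    set s' := s - L * ‖x - y‖ with hs'
    set h := |⟪x, u⟫ - ⟪y, u⟫| with hh
    -- the distances
    have hdist : ‖x - y‖ ^ 2 = ‖foot u x - foot u y‖ ^ 2 + h ^ 2 := by
      have e : x - y = (foot u x - foot u y) + (⟪x, u⟫ - ⟪y, u⟫) • u := by
        unfold foot
        module
      have h0 : ⟪foot u x - foot u y, u⟫ = 0 := by
        rw [inner_sub_left, foot_inner hu, foot_inner hu, sub_zero]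
      rw [e, norm_line hu h0, hh, sq_abs]
    have hsub : {t : ℝ | ∃ τ ∈ chord u (foot u x) (lev g s), |t - τ| ≤ h} ⊆
        chord u (foot u y) (lev g s') := by
      rintro t ⟨τ, hτ, htτ⟩
      show s' ≤ g (foot u y + t • u)
      have h1 : s ≤ g (foot u x + τ • u) := hτ
      have h2 := hg.lip (foot u x + τ • u) (foot u y + t • u)
      have h3 : ‖(foot u x + τ • u) - (foot u y + t • u)‖ ≤ ‖x - y‖ := by
        have e : (foot u x + τ • u) - (foot u y + t • u) =
            (foot u x - foot u y) + (τ - t) • u := by module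
        have h0 : ⟪foot u x - foot u y, u⟫ = 0 := by
          rw [inner_sub_left, foot_inner hu, foot_inner hu, sub_zero]
        refine le_of_sq_le_sq ?_ (norm_nonneg _)
        rw [e, norm_line hu h0, hdist]
        have h4 : (τ - t) ^ 2 ≤ h ^ 2 := by
          rw [← sq_abs (τ - t)]
          have : |τ - t| ≤ h := by rwa [abs_sub_comm]
          exact pow_le_pow_left₀ (abs_nonneg _) this 2
        linarith
      have h4 := mul_le_mul_of_nonneg_left h3 hL
      have h5 := (abs_le.1 h2).2
      rw [hs']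
      linarith
    have hcx := chord_isCompact hu (foot u x) (hg.lev_compact hs)
    have hcy := chord_isCompact hu (foot u y) (hg.lev_compact hle)
    obtain ⟨τ0, hτ0⟩ := hx.1
    refine ⟨⟨τ0, hsub ⟨τ0, hτ0, by simp [hh]⟩⟩, ?_⟩
    have hv := (vol_thick hcx hx.1 (abs_nonneg _)).trans (measure_mono hsub)
    have hv2 := ENNReal.toReal_mono hcy.measure_lt_top.ne hv
    rw [ENNReal.toReal_add ENNReal.ofReal_ne_top hcx.measure_lt_top.ne,
      ENNReal.toReal_ofReal (by positivity)] at hv2
    have h6 : |⟪y, u⟫| ≤ |⟪x, u⟫| + h := by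
      have := abs_sub_abs_le_abs_sub ⟪y, u⟫ ⟪x, u⟫
      rw [abs_sub_comm] at this
      linarith
    linarith [hx.2]
  refine ⟨symf_nonneg hg u, ?_, ?_, ?_⟩
  · intro x
    refine csSup_le ⟨0, Or.inl rfl⟩ ?_
    rintro s (rfl | ⟨_, hx⟩)
    · exact hM
    · obtain ⟨_, _, _, _, ⟨τ, hτ⟩, _⟩ := hx
      have h1 : s ≤ g _ := hτ
      exact h1.trans (hg.le _)
  · intro x y
    rw [abs_le]
    have h1 := key x y
    have h2 := key y x
    rw [norm_sub_rev] at h2
    constructor <;> linarith
  · intro x hx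
    refine le_antisymm ?_ (symf_nonneg hg u x)
    by_contra h
    push Not at h
    have h1 := (le_symf_iff hg hu h x).1 le_rfl
    have h2 := sym_subset_closedBall hu hρ (hg.lev_sub h) h1
    rw [mem_closedBall_zero_iff] at h2
    linarith

end

end Q187.PS
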