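import Pool.Agent.Q187.PS.Stm

/-!
# JOB LIM and JOB ESYM
-/

set_option autoImplicit false
set_option linter.unusedSectionVars false

open MeasureTheory Set Filter Topology Metric
open scoped RealInnerProductSpace ENNReal NNReal

namespace Q187.PS

open Pool.Agent.H318R3.St Q187.Steiner

theorem lim : S_Lim := by
  intro M L ρ G hM hL hρ hG U
  have hex : ∀ x, ∃ y, Tendsto (fun i => G i x) (U : Filter ℕ) (𝓝 y) := by
    intro x
    have h1 : (U.map fun i => G i x : Ultrafilter ℝ) ≤ 𝓟 (Icc (0 : ℝ) M) := by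
      rw [le_principal_iff]
      exact Filter.mem_map.2 (Filter.univ_mem' fun i => ⟨(hG i).nonneg x, (hG i).le x⟩)
    obtain ⟨y, -, hy⟩ := isCompact_Icc.ultrafilter_le_nhds _ h1
    exact ⟨y, hy⟩
  choose H hH using hex
  have hA : Adm M L ρ H := by
    refine ⟨fun x => ?_, fun x => ?_, fun x y => ?_, fun x hx => ?_⟩
    · exact ge_of_tendsto' (hH x) fun i => (hG i).nonneg x
    · exact le_of_tendsto' (hH x) fun i => (hG i).le x
    · exact le_of_tendsto' ((hH x).sub (hH y)).abs fun i => (hG i).lip x y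
    · refine tendsto_nhds_unique (hH x) ?_
      simp_rw [fun i => (hG i).out x hx]
      exact tendsto_const_nhds
  refine ⟨H, hA, fun ε hε => ?_⟩
  set δ : ℝ := ε / (3 * (L + 1)) with hδ
  have hδ0 : 0 < δ := by positivity
  have hLδ : L * δ ≤ ε / 3 := by
    rw [hδ]
    have : L * (ε / (3 * (L + 1))) = (ε / 3) * (L / (L + 1)) := by field_simp
    rw [this]
    have h2 : L / (L + 1) ≤ 1 := by
      rw [div_le_one (by positivity)]
      linarith
    nlinarith
  obtain ⟨t, -, htf, ht⟩ := finite_cover_balls_of_compact (isCompact_closedBall (0 : V2) ρ) hδ0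
  have hev : ∀ᶠ i in (U : Filter ℕ), ∀ z ∈ t, |G i z - H z| ≤ ε / 3 := by
    rw [eventually_all_finite htf]
    intro z _
    have h1 := ((hH z).sub_const (H z)).abs
    rw [sub_self, abs_zero] at h1
    exact (h1.eventually (gt_mem_nhds (show (0 : ℝ) < ε / 3 by positivity))).mono fun i hi => hi.le
  filter_upwards [hev] with i hi x
  rcases le_or_gt ‖x‖ ρ with hx | hx
  · have h1 := ht (mem_closedBall_zero_iff.2 hx)
    rw [mem_iUnion₂] at h1
    obtain ⟨z, hz, hxz⟩ := h1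
    rw [mem_ball, dist_eq_norm] at hxz
    have h2 := (hG i).lip x z
    have h3 := hA.lip x z
    have h4 := hi z hz
    have h5 : L * ‖x - z‖ ≤ ε / 3 := (mul_le_mul_of_nonneg_left hxz.le hL).trans hLδ
    have h6 : G i x - H x = (G i x - G i z) + (G i z - H z) - (H x - H z) := by ring
    rw [h6]
    refine (abs_sub _ _).trans ?_
    refine (add_le_add (abs_add_le _ _) le_rfl).trans ?_
    linarith
  · rw [(hG i).out x hx, hA.out x hx]
    simpa using hε.le

lemma inner_toLp {m : ℕ} (y : XX m) (u : V2) :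
    ⟪y, (WithLp.toLp 2 (u, (0 : EuclideanSpace ℝ (Fin m))) : XX m)⟫ = ⟪y.fst, u⟫ := by
  rw [WithLp.prod_inner_apply]
  simp

theorem esym : S_Esym := by
  intro m M L ρ g hM hL hρ hg u hu c hc
  have hu' : ‖(WithLp.toLp 2 (u, (0 : EuclideanSpace ℝ (Fin m))) : XX m)‖ = 1 := by
    rw [← sq_eq_sq₀ (norm_nonneg _) zero_le_one, WithLp.prod_norm_sq_eq_of_L2]
    show ‖u‖ ^ 2 + ‖(0 : EuclideanSpace ℝ (Fin m))‖ ^ 2 = 1 ^ 2
    rw [hu, norm_zero]
    norm_num
  refine ⟨hu', ?_⟩
  ext y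
  rw [mem_sym_iff hu']
  have hlev : 0 < ‖y.snd‖ ^ 2 + c := by positivity
  have hch : chord (WithLp.toLp 2 (u, 0) : XX m) (foot (WithLp.toLp 2 (u, 0)) y) (Eg m g c) =
      chord u (foot u y.fst) (lev g (‖y.snd‖ ^ 2 + c)) := by
    ext s
    have h1 : (foot (WithLp.toLp 2 (u, 0) : XX m) y + s • (WithLp.toLp 2 (u, 0) : XX m)).fst =
        foot u y.fst + s • u := by
      unfold foot
      rw [inner_toLp]
      simp
    have h2 : (foot (WithLp.toLp 2 (u, 0) : XX m) y + s • (WithLp.toLp 2 (u, 0) : XX m)).snd =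
        y.snd := by
      unfold foot
      simp
    show ‖(foot (WithLp.toLp 2 (u, 0) : XX m) y + s • (WithLp.toLp 2 (u, 0) : XX m)).snd‖ ^ 2 + c ≤
      g (foot (WithLp.toLp 2 (u, 0) : XX m) y + s • (WithLp.toLp 2 (u, 0) : XX m)).fst ↔ _
    rw [h1, h2]
    rfl
  rw [hch, inner_toLp]
  show _ ↔ ‖y.snd‖ ^ 2 + c ≤ symf u g y.fst
  rw [le_symf_iff hg hu hlev, mem_sym_iff hu]

end Q187.PS
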