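import Pool.Agent.Q187.PS.Fun

/-!
# Comparison along lines
-/

set_option autoImplicit false
set_option linter.unusedSectionVars false

open MeasureTheory Set Filter Topology Metric
open scoped RealInnerProductSpace ENNReal

namespace Q187.PS

open Pool.Agent.H318R3.St Q187.Steiner

/-- The volume of the symmetric difference. -/
noncomputable def dd (A B : Set ℝ) : ℝ≥0∞ := volume (A \ B) + volume (B \ A)

lemma dd_ge (A B : Set ℝ) :
    volume A ≤ dd A B + volume B ∧ volume B ≤ dd A B + volume A := by
  have h1 : volume A ≤ volume (A \ B) + volume B := by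
    refine (measure_mono (t := (A \ B) ∪ B) ?_).trans (measure_union_le _ _)
    intro x hx
    by_cases h : x ∈ B
    · exact Or.inr h
    · exact Or.inl ⟨hx, h⟩
  have h2 : volume B ≤ volume (B \ A) + volume A := by
    refine (measure_mono (t := (B \ A) ∪ A) ?_).trans (measure_union_le _ _)
    intro x hx
    by_cases h : x ∈ A
    · exact Or.inr h
    · exact Or.inl ⟨hx, h⟩
  unfold dd
  constructor
  · exact h1.trans (add_le_add_left le_self_add _)
  · exact h2.trans (add_le_add_left le_add_self _)

/-- Nested sets. -/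
lemma dd_nested {A B : Set ℝ} (hA : MeasurableSet A) (h : A ⊆ B) (hfin : volume A ≠ ⊤) :
    dd A B = volume B - volume A := by
  unfold dd
  rw [Set.sdiff_eq_empty.2 h, measure_empty, zero_add, measure_sdiff h hA.nullMeasurableSet hfin]

lemma dd_comm (A B : Set ℝ) : dd A B = dd B A := by
  unfold dd
  rw [add_comm]

section

variable {V : Type*} [NormedAddCommGroup V] [InnerProductSpace ℝ V] [FiniteDimensional ℝ V]
  [MeasurableSpace V] [BorelSpace V]

/-- Symmetrization decreases the symmetric difference on lines. -/
lemma dd_sym {u : V} (hu : ‖u‖ = 1) {x y : V} (hx : ⟪x, u⟫ = 0) (hy : ⟪y, u⟫ = 0) {A B : Set V}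
    (hA : IsCompact A) (hB : IsCompact B) :
    dd (chord u x (sym u A)) (chord u y (sym u B)) ≤ dd (chord u x A) (chord u y B) := by
  have hSA := (chord_isCompact hu x (sym_compact hu hA))
  have hSB := (chord_isCompact hu y (sym_compact hu hB))
  -- volumes are preserved
  have hvol : ∀ (z : V), ⟪z, u⟫ = 0 → ∀ K : Set V, IsCompact K →
      volume (chord u z (sym u K)) = volume (chord u z K) := by
    intro z hz K hK
    rcases Set.eq_empty_or_nonempty (chord u z K) with h | h
    · rw [h, chord_sym_empty hu hz h]
    · rw [chord_sym hu hz h, Real.volume_Icc]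
      have hfin : volume (chord u z K) < ⊤ := (chord_isCompact hu _ hK).measure_lt_top
      rw [show (volume (chord u z K)).toReal / 2 - -((volume (chord u z K)).toReal / 2) =
        (volume (chord u z K)).toReal by ring, ENNReal.ofReal_toReal hfin.ne]
  have hA' := hvol x hx A hA
  have hB' := hvol y hy B hB
  -- nested
  have hnest : chord u x (sym u A) ⊆ chord u y (sym u B) ∨
      chord u y (sym u B) ⊆ chord u x (sym u A) := by
    rcases Set.eq_empty_or_nonempty (chord u x A) with h | h
    · left
      rw [chord_sym_empty hu hx h]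
      exact empty_subset _
    rcases Set.eq_empty_or_nonempty (chord u y B) with h' | h'
    · right
      rw [chord_sym_empty hu hy h']
      exact empty_subset _
    rw [chord_sym hu hx h, chord_sym hu hy h']
    rcases le_total ((volume (chord u x A)).toReal) ((volume (chord u y B)).toReal) with h1 | h1
    · left
      exact Icc_subset_Icc (by linarith) (by linarith)
    · right
      exact Icc_subset_Icc (by linarith) (by linarith)
  obtain ⟨h1, h2⟩ := dd_ge (chord u x A) (chord u y B)
  rcases hnest with h | h
  · rw [dd_nested hSA.measurableSet h hSA.measure_lt_top.ne, hA', hB']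
    exact tsub_le_iff_right.2 h2
  · rw [dd_comm, dd_nested hSB.measurableSet h hSB.measure_lt_top.ne, hA', hB']
    exact tsub_le_iff_right.2 h1

end

/-- The weighted distance of two levels. -/
noncomputable def Wt (f : ℝ → ℝ≥0∞) (a b : ℝ) : ℝ≥0∞ :=
  ∫⁻ y in Ioi (0 : ℝ), f y * (({y | y ≤ a} \ {y | y ≤ b}).indicator 1 y +
    ({y | y ≤ b} \ {y | y ≤ a}).indicator 1 y)

/-- Tonelli. -/
lemma lintegral_Wt {f : ℝ → ℝ≥0∞} (hf : Measurable f) {φ ψ : ℝ → ℝ} (hφ : Measurable φ)
    (hψ : Measurable ψ) :
    ∫⁻ s, Wt f (φ s) (ψ s) = ∫⁻ y in Ioi (0 : ℝ), f y * dd {s | y ≤ φ s} {s | y ≤ ψ s} := by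
  have hm1 : MeasurableSet {p : ℝ × ℝ | p.2 ≤ φ p.1 ∧ ¬ p.2 ≤ ψ p.1} :=
    (measurableSet_le measurable_snd (hφ.comp measurable_fst)).inter
      (measurableSet_le measurable_snd (hψ.comp measurable_fst)).compl
  have hm2 : MeasurableSet {p : ℝ × ℝ | p.2 ≤ ψ p.1 ∧ ¬ p.2 ≤ φ p.1} :=
    (measurableSet_le measurable_snd (hψ.comp measurable_fst)).inter
      (measurableSet_le measurable_snd (hφ.comp measurable_fst)).compl
  unfold Wt
  rw [lintegral_lintegral_swap]
  · refine lintegral_congr fun y => ?_
    have h1 : ∀ s, ({y | y ≤ φ s} \ {y | y ≤ ψ s}).indicator (1 : ℝ → ℝ≥0∞) y =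
        ({s | y ≤ φ s} \ {s | y ≤ ψ s}).indicator 1 s := by
      intro s
      by_cases h : y ≤ φ s ∧ ¬ y ≤ ψ s
      · rw [indicator_of_mem (show y ∈ _ from h), indicator_of_mem (show s ∈ _ from h)]
        rfl
      · rw [indicator_of_notMem (show y ∉ _ from h), indicator_of_notMem (show s ∉ _ from h)]
    have h2 : ∀ s, ({y | y ≤ ψ s} \ {y | y ≤ φ s}).indicator (1 : ℝ → ℝ≥0∞) y =
        ({s | y ≤ ψ s} \ {s | y ≤ φ s}).indicator 1 s := by
      intro s
      by_cases h : y ≤ ψ s ∧ ¬ y ≤ φ s
      · rw [indicator_of_mem (show y ∈ _ from h), indicator_of_mem (show s ∈ _ from h)]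
        rfl
      · rw [indicator_of_notMem (show y ∉ _ from h), indicator_of_notMem (show s ∉ _ from h)]
    have hs1 : MeasurableSet ({s | y ≤ φ s} \ {s | y ≤ ψ s}) :=
      (measurableSet_le measurable_const hφ).diff (measurableSet_le measurable_const hψ)
    have hs2 : MeasurableSet ({s | y ≤ ψ s} \ {s | y ≤ φ s}) :=
      (measurableSet_le measurable_const hψ).diff (measurableSet_le measurable_const hφ)
    simp_rw [h1, h2]
    refine (lintegral_const_mul (f y) ((measurable_one.indicator hs1).add
      (measurable_one.indicator hs2))).trans ?_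
    congr 1
    refine (lintegral_add_left (measurable_one.indicator hs1) _).trans ?_
    rw [lintegral_indicator_one hs1, lintegral_indicator_one hs2]
    rfl
  · refine Measurable.aemeasurable ?_
    refine (hf.comp measurable_snd).mul (Measurable.add ?_ ?_)
    · exact (measurable_one.indicator hm1)
    · exact (measurable_one.indicator hm2)

lemma Wt_eq {f : ℝ → ℝ} (hf : Continuous f) (hf0 : ∀ y, 0 ≤ f y) {a b : ℝ} (ha : 0 ≤ a)
    (hb : 0 ≤ b) : Wt (fun y => ENNReal.ofReal (f y)) a b = ENNReal.ofReal |∫ y in a..b, f y| := by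
  have key : ∀ a b : ℝ, 0 ≤ a → a ≤ b →
      Wt (fun y => ENNReal.ofReal (f y)) a b = ENNReal.ofReal |∫ y in a..b, f y| := by
    intro a b ha hab
    unfold Wt
    have h1 : ({y | y ≤ a} \ {y | y ≤ b}) = ∅ := by
      ext y
      simp only [Set.mem_sdiff, mem_ofPred_eq, mem_empty_iff_false, iff_false, not_and, not_not]
      intro h
      linarith
    have h2 : ({y | y ≤ b} \ {y | y ≤ a}) = Ioc a b := by
      ext y
      simp only [Set.mem_sdiff, mem_ofPred_eq, mem_Ioc, not_le]
      tauto
    rw [h1, h2]
    simp only [indicator_empty, zero_add]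
    have h3 : ∀ y, ENNReal.ofReal (f y) * (Ioc a b).indicator 1 y =
        (Ioc a b).indicator (fun y => ENNReal.ofReal (f y)) y := by
      intro y
      by_cases h : y ∈ Ioc a b
      · rw [indicator_of_mem h, indicator_of_mem h]
        simp
      · rw [indicator_of_notMem h, indicator_of_notMem h, mul_zero]
    simp_rw [h3]
    rw [setLIntegral_indicator measurableSet_Ioc]
    have h4 : Ioc a b ∩ Ioi 0 = Ioc a b := by
      refine inter_eq_left.2 fun y hy => ?_
      exact lt_of_le_of_lt ha hy.1
    rw [h4, intervalIntegral.integral_of_le hab, abs_of_nonneg (integral_nonneg hf0),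
      ofReal_integral_eq_lintegral_ofReal]
    · exact (hf.integrableOn_Icc).mono_set Ioc_subset_Icc_self
    · exact Eventually.of_forall hf0
  rcases le_total a b with h | h
  · exact key a b ha h
  · have h1 := key b a hb h
    rw [intervalIntegral.integral_symm, abs_neg] at h1
    rw [← h1]
    unfold Wt
    refine lintegral_congr fun y => ?_
    rw [add_comm]

section

variable {V : Type*} [NormedAddCommGroup V] [InnerProductSpace ℝ V] [FiniteDimensional ℝ V]
  [MeasurableSpace V] [BorelSpace V]

variable {M L ρ : ℝ} {g : V → ℝ}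

lemma foot_foot {u : V} (hu : ‖u‖ = 1) (x : V) (s : ℝ) : foot u (foot u x + s • u) = foot u x := by
  unfold foot
  rw [inner_add_left, inner_smul_left, inner_self_one hu, inner_sub_left, inner_smul_left,
    inner_self_one hu]
  simp

/-- The comparison of differences. -/
theorem diff_le (hM : 0 ≤ M) (hL : 0 ≤ L) (hρ : 0 ≤ ρ) (hg : Adm M L ρ g) {u v : V}
    (hu : ‖u‖ = 1) (hv : ⟪v, u⟫ = 0) (f : V → ℝ → ℝ) (hf : Continuous fun p : V × ℝ => f p.1 p.2)
    (hf0 : ∀ x y, 0 ≤ f x y) :
    ∫⁻ x, ENNReal.ofReal |∫ y in (symf u g (x + v))..(symf u g x), f (foot u x) y| ≤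
      ∫⁻ x, ENNReal.ofReal |∫ y in (g (x + v))..(g x), f (foot u x) y| := by
  have hsg : Adm M L ρ (symf u g) := hg.symf hM hL hρ hu
  -- general form along lines
  have hline : ∀ (k : V → ℝ), Adm M L ρ k →
      ∫⁻ x, ENNReal.ofReal |∫ y in (k (x + v))..(k x), f (foot u x) y| =
      ∫⁻ x in slab u, ∫⁻ y in Ioi (0 : ℝ), ENNReal.ofReal (f (foot u x) y) *
        dd (chord u (foot u x + v) (lev k y)) (chord u (foot u x) (lev k y)) := by
    intro k hk
    have hkc := hk.continuous
    rw [lintegral_line hu]
    · refine lintegral_congr fun x => ?_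
      have hfx : Continuous (f (foot u x)) := hf.comp (Continuous.prodMk_right _)
      have h1 : ∀ s : ℝ, ENNReal.ofReal |∫ y in (k (foot u x + s • u + v))..(k (foot u x + s • u)),
          f (foot u (foot u x + s • u)) y| =
          Wt (fun y => ENNReal.ofReal (f (foot u x) y)) (k (foot u x + v + s • u))
            (k (foot u x + s • u)) := by
        intro s
        rw [foot_foot hu, Wt_eq hfx (hf0 _) (hk.nonneg _) (hk.nonneg _), add_right_comm]
      simp_rw [h1]
      rw [lintegral_Wt]
      · rfl
      · exact hfx.measurable.ennreal_ofReal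
      · exact (hkc.comp (by fun_prop)).measurable
      · exact (hkc.comp (by fun_prop)).measurable
    · refine Measurable.ennreal_ofReal ?_
      have hc : Continuous fun x : V => ∫ y in (k (x + v))..(k x), f (foot u x) y := by
        have hfc : Continuous fun p : V × ℝ => f (foot u p.1) p.2 :=
          hf.comp (((foot_continuous u).comp continuous_fst).prodMk continuous_snd)
        have h2 := intervalIntegral.continuous_parametric_intervalIntegral_of_continuous
          (μ := volume) (a₀ := 0) (f := fun x y => f (foot u x) y) (s := k) hfc hkc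
        have h3 := intervalIntegral.continuous_parametric_intervalIntegral_of_continuous
          (μ := volume) (a₀ := 0) (f := fun x y => f (foot u x) y) (s := fun x => k (x + v)) hfc
          (hkc.comp (by fun_prop))
        refine (h2.sub h3).congr fun x => ?_
        have hfx : Continuous (f (foot u x)) := hf.comp (Continuous.prodMk_right _)
        exact intervalIntegral.integral_interval_sub_left (hfx.intervalIntegrable _ _)
          (hfx.intervalIntegrable _ _)
      exact hc.abs.measurable
  rw [hline _ hsg, hline _ hg]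
  refine lintegral_mono fun x => ?_
  refine setLIntegral_mono' measurableSet_Ioi fun y hy => ?_
  refine mul_le_mul_right ?_ _
  have hx : ⟪foot u x, u⟫ = 0 := foot_inner hu x
  have hxv : ⟪foot u x + v, u⟫ = 0 := by rw [inner_add_left, hx, hv, add_zero]
  rw [lev_symf hg hu hy]
  exact dd_sym hu hxv hx (hg.lev_compact hy) (hg.lev_compact hy)

end

end Q187.PS
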