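import Pool.Agent.Q187.PS.Sard

/-!
# Persistence of the critical set
-/

set_option autoImplicit false
set_option linter.unusedSectionVars false

open MeasureTheory Set Filter Topology Metric
open scoped RealInnerProductSpace ENNReal NNReal

namespace Q187.PS

open Pool.Agent.H318R3.St Q187.Steiner

variable {V : Type*} [NormedAddCommGroup V] [InnerProductSpace ℝ V] [FiniteDimensional ℝ V]
  [MeasurableSpace V] [BorelSpace V]

variable {M L ρ : ℝ} {g : V → ℝ}

lemma line_continuous (x u : V) : Continuous fun s : ℝ => x + s • u := by fun_prop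

/-- Equimeasurability on lines. -/
theorem fiber_eq (hM : 0 ≤ M) (hL : 0 ≤ L) (hρ : 0 ≤ ρ) (hg : Adm M L ρ g) {u : V} (hu : ‖u‖ = 1)
    {x : V} (hx : ⟪x, u⟫ = 0) {J : Set ℝ} (hJ : MeasurableSet J) (hJ0 : J ⊆ Ioi 0) :
    volume {s : ℝ | symf u g (x + s • u) ∈ J} = volume {s : ℝ | g (x + s • u) ∈ J} := by
  have hF : Adm M L ρ (symf u g) := hg.symf hM hL hρ hu
  have hmeas : ∀ k : V → ℝ, Adm M L ρ k → Measurable fun s : ℝ => k (x + s • u) :=
    fun k hk => (hk.continuous.comp (line_continuous x u)).measurable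
  have hpos : ∀ k : V → ℝ, Adm M L ρ k → volume {s : ℝ | k (x + s • u) ∈ Ioi (0 : ℝ)} < ⊤ := by
    intro k hk
    refine lt_of_le_of_lt (measure_mono (t := Icc (-ρ) ρ) ?_) measure_Icc_lt_top
    intro s hs
    rw [mem_Icc, ← abs_le]
    by_contra h
    push Not at h
    have h1 : ρ < ‖x + s • u‖ := by
      refine lt_of_lt_of_le h ?_
      refine le_of_sq_le_sq ?_ (norm_nonneg _)
      rw [norm_line hu hx, sq_abs]
      linarith [sq_nonneg ‖x‖]
    have h2 : (0 : ℝ) < k (x + s • u) := hs
    rw [hk.out _ h1] at h2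
    exact lt_irrefl _ h2
  have hIci : ∀ a : ℝ, 0 < a → volume {s : ℝ | symf u g (x + s • u) ∈ Ici a} =
      volume {s : ℝ | g (x + s • u) ∈ Ici a} := by
    intro a ha
    have e1 : {s : ℝ | symf u g (x + s • u) ∈ Ici a} = chord u x (lev (symf u g) a) := rfl
    have e2 : {s : ℝ | g (x + s • u) ∈ Ici a} = chord u x (lev g a) := rfl
    rw [e1, e2, lev_symf hg hu ha]
    rcases Set.eq_empty_or_nonempty (chord u x (lev g a)) with h | h
    · rw [h, chord_sym_empty hu hx h]
    · rw [chord_sym hu hx h, Real.volume_Icc]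
      have hfin : volume (chord u x (lev g a)) < ⊤ :=
        (chord_isCompact hu _ (hg.lev_compact ha)).measure_lt_top
      rw [show (volume (chord u x (lev g a))).toReal / 2 -
        -((volume (chord u x (lev g a))).toReal / 2) =
        (volume (chord u x (lev g a))).toReal by ring, ENNReal.ofReal_toReal hfin.ne]
  let μ : (V → ℝ) → Measure ℝ := fun k =>
    (Measure.map (fun s : ℝ => k (x + s • u)) volume).restrict (Ioi 0)
  have hμ : ∀ k, Adm M L ρ k → ∀ A, MeasurableSet A →
      μ k A = volume {s : ℝ | k (x + s • u) ∈ A ∩ Ioi 0} := by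
    intro k hk A hA
    simp only [μ]
    rw [Measure.restrict_apply hA, Measure.map_apply (hmeas k hk) (hA.inter measurableSet_Ioi)]
    rfl
  have hfin : IsFiniteMeasure (μ (symf u g)) := by
    refine ⟨?_⟩
    rw [hμ _ hF _ MeasurableSet.univ, univ_inter]
    exact hpos _ hF
  have hext : μ (symf u g) = μ g := by
    refine Measure.ext_of_Ici _ _ fun a => ?_
    rw [hμ _ hF _ measurableSet_Ici, hμ _ hg _ measurableSet_Ici]
    rcases lt_or_ge 0 a with ha | ha
    · have e : Ici a ∩ Ioi 0 = Ici a := inter_eq_left.2 fun y hy => lt_of_lt_of_le ha hy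
      rw [e]
      exact hIci a ha
    · have e : Ici a ∩ Ioi 0 = Ioi 0 :=
        inter_eq_right.2 fun y hy => le_trans ha (le_of_lt hy)
      rw [e]
      have hU : ∀ k : V → ℝ, {s : ℝ | k (x + s • u) ∈ Ioi (0 : ℝ)} =
          ⋃ n : ℕ, {s : ℝ | k (x + s • u) ∈ Ici (1 / ((n : ℝ) + 1))} := by
        intro k
        ext s
        rw [mem_iUnion]
        constructor
        · intro hs
          obtain ⟨n, hn⟩ := exists_nat_one_div_lt (show (0 : ℝ) < k (x + s • u) from hs)
          exact ⟨n, hn.le⟩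
        · rintro ⟨n, hn⟩
          exact lt_of_lt_of_le (by positivity : (0 : ℝ) < 1 / ((n : ℝ) + 1)) hn
      have hmono : ∀ k : V → ℝ, Monotone fun n : ℕ =>
          {s : ℝ | k (x + s • u) ∈ Ici (1 / ((n : ℝ) + 1))} := by
        intro k m n hmn s hs
        refine le_trans ?_ (show 1 / ((m : ℝ) + 1) ≤ k (x + s • u) from hs)
        apply one_div_le_one_div_of_le (by positivity)
        have : (m : ℝ) ≤ n := by exact_mod_cast hmn
        linarith
      rw [hU, hU, (hmono _).measure_iUnion, (hmono _).measure_iUnion]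
      exact iSup_congr fun n => hIci _ (by positivity)
  have h1 : μ (symf u g) J = μ g J := by rw [hext]
  rw [hμ _ hF _ hJ, hμ _ hg _ hJ, inter_eq_left.2 hJ0] at h1
  exact h1

/-- Equimeasurability with the graph map. -/
theorem graph_eq (hM : 0 ≤ M) (hL : 0 ≤ L) (hρ : 0 ≤ ρ) (hg : Adm M L ρ g) {u : V} (hu : ‖u‖ = 1)
    {J : Set ℝ} (hJ : MeasurableSet J) (hJ0 : J ⊆ Ioi 0) {N : Set V} (hN : MeasurableSet N) :
    volume {x | symf u g x ∈ J ∧ gm u (symf u g) x ∈ N} = volume {x | g x ∈ J ∧ gm u g x ∈ N} := by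
  have hF : Adm M L ρ (symf u g) := hg.symf hM hL hρ hu
  have hmeas : ∀ k : V → ℝ, Adm M L ρ k → MeasurableSet {x | k x ∈ J ∧ gm u k x ∈ N} := by
    intro k hk
    exact (hk.continuous.measurable hJ).inter ((gm_continuous hk.continuous).measurable hN)
  have key : ∀ x : V, ⟪x, u⟫ = 0 → volume (chord u x {x | symf u g x ∈ J ∧ gm u (symf u g) x ∈ N}) =
      volume (chord u x {x | g x ∈ J ∧ gm u g x ∈ N}) := by
    intro x hx
    have hfx : foot u x = x := by
      unfold foot
      rw [hx, zero_smul, sub_zero]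
    have e : ∀ k : V → ℝ, chord u x {x | k x ∈ J ∧ gm u k x ∈ N} =
        {s : ℝ | k (x + s • u) ∈ J ∩ {y | x + y • u ∈ N}} := by
      intro k
      ext s
      have h1 := gm_line hu k x s
      rw [hfx] at h1
      show (k (x + s • u) ∈ J ∧ gm u k (x + s • u) ∈ N) ↔ _
      rw [h1]
      rfl
    rw [e, e]
    refine fiber_eq hM hL hρ hg hu hx (hJ.inter ?_) (inter_subset_left.trans hJ0)
    exact (line_continuous x u).measurable hN
  apply le_antisymm
  · exact volume_le_of_chord hu (hmeas _ hF) (hmeas _ hg) fun x hx => (key x hx).le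
  · exact volume_le_of_chord hu (hmeas _ hg) (hmeas _ hF) fun x hx => (key x hx).ge

/-- On the preimage of a null set the derivative in direction `u` vanishes. -/
theorem du_zero (hg : Adm M L ρ g) {u : V} (hu : ‖u‖ = 1) {N : Set V} (hN : MeasurableSet N)
    (hN0 : volume N = 0) : ∀ᵐ x, gm u g x ∈ N → fderiv ℝ g x u = 0 := by
  have hm : MeasurableSet {x | DifferentiableAt ℝ g x ∧ gm u g x ∈ N ∧ fderiv ℝ g x u ≠ 0} := by
    refine (measurableSet_of_differentiableAt ℝ g).inter (MeasurableSet.inter ?_ ?_)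
    · exact (gm_continuous hg.continuous).measurable hN
    · exact (measurable_fderiv_apply_const ℝ g u) (measurableSet_singleton 0).compl
  have h0 : volume {x | DifferentiableAt ℝ g x ∧ gm u g x ∈ N ∧ fderiv ℝ g x u ≠ 0} = 0 := by
    refine null_of_image_null volume hm (f := gm u g) (f' := fun x => gmD u (fderiv ℝ g x))
      (fun x hx => gm_hasFDerivAt hx.1) (fun x hx => gmD_det_ne hu hx.2.2) ?_
    refine measure_mono_null ?_ hN0
    rintro _ ⟨x, hx, rfl⟩
    exact hx.2.1
  have h1 := hg.lipschitz.ae_differentiableAt (μ := volume)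
  have h2 : ∀ᵐ x, x ∉ {x | DifferentiableAt ℝ g x ∧ gm u g x ∈ N ∧ fderiv ℝ g x u ≠ 0} :=
    measure_eq_zero_iff_ae_notMem.1 h0
  filter_upwards [h1, h2] with x hx1 hx2 hxN
  by_contra hne
  exact hx2 ⟨hx1, hxN, hne⟩

lemma Adm.fderiv_le (hL : 0 ≤ L) (hg : Adm M L ρ g) (x v : V) : |fderiv ℝ g x v| ≤ L * ‖v‖ := by
  have h1 := norm_fderiv_le_of_lipschitz ℝ (x₀ := x) hg.lipschitz
  rw [Real.coe_toNNReal L hL] at h1
  rw [← Real.norm_eq_abs]
  exact (ContinuousLinearMap.le_opNorm _ _).trans (mul_le_mul_of_nonneg_right h1 (norm_nonneg _))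

lemma Adm.fderiv_out (hg : Adm M L ρ g) {x : V} (hx : ρ < ‖x‖) : fderiv ℝ g x = 0 := by
  have h1 : g =ᶠ[𝓝 x] fun _ => 0 := by
    have : {y : V | ρ < ‖y‖} ∈ 𝓝 x := (isOpen_lt continuous_const continuous_norm).mem_nhds hx
    filter_upwards [this] with y hy
    exact hg.out y hy
  rw [h1.fderiv_eq]
  simp

/-- The limit of the difference quotients. -/
theorem quot_lim (hg : Adm M L ρ g) {u v : V} (f : V → ℝ) (hf : Continuous f)
    (hf0 : ∀ x, 0 ≤ f x) (hf1 : ∀ x, f x ≤ 1) :
    Tendsto (fun n : ℕ => ∫⁻ x, ENNReal.ofReal (((n : ℝ) + 1) *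
      |∫ y in (g (x + (1 / ((n : ℝ) + 1)) • v))..(g x), f (foot u x + y • u)|)) atTop
      (𝓝 (∫⁻ x, ENNReal.ofReal (f (gm u g x) * |fderiv ℝ g x v|))) := by
  have hgc := hg.continuous
  refine tendsto_lintegral_of_dominated_convergence
    ((closedBall (0 : V) (ρ + ‖v‖)).indicator fun _ => ENNReal.ofReal (L * ‖v‖)) ?_ ?_ ?_ ?_
  · intro n
    refine Measurable.ennreal_ofReal (Measurable.const_mul ?_ _)
    have hfc : Continuous fun p : V × ℝ => f (foot u p.1 + p.2 • u) := by
      refine hf.comp (Continuous.add ?_ ?_)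
      · exact (foot_continuous u).comp continuous_fst
      · exact continuous_snd.smul continuous_const
    have h2 := intervalIntegral.continuous_parametric_intervalIntegral_of_continuous
      (μ := volume) (a₀ := 0) (f := fun x y => f (foot u x + y • u)) (s := g) hfc hgc
    have h3 := intervalIntegral.continuous_parametric_intervalIntegral_of_continuous
      (μ := volume) (a₀ := 0) (f := fun x y => f (foot u x + y • u))
      (s := fun x => g (x + (1 / ((n : ℝ) + 1)) • v)) hfc (hgc.comp (by fun_prop))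
    have h4 : Continuous fun x => ∫ y in (g (x + (1 / ((n : ℝ) + 1)) • v))..(g x),
        f (foot u x + y • u) := by
      refine (h2.sub h3).congr fun x => ?_
      have hfx : Continuous fun y : ℝ => f (foot u x + y • u) := hf.comp (by fun_prop)
      exact intervalIntegral.integral_interval_sub_left (hfx.intervalIntegrable _ _)
        (hfx.intervalIntegrable _ _)
    exact h4.abs.measurable
  · intro n
    refine Eventually.of_forall fun x => ?_
    have hn : (0 : ℝ) < (n : ℝ) + 1 := by positivity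
    by_cases hx : x ∈ closedBall (0 : V) (ρ + ‖v‖)
    · rw [indicator_of_mem hx]
      refine ENNReal.ofReal_le_ofReal ?_
      have h1 := intervalIntegral.norm_integral_le_of_norm_le_const
        (a := g (x + (1 / ((n : ℝ) + 1)) • v)) (b := g x) (f := fun y => f (foot u x + y • u))
        (C := 1) (fun y _ => by rw [Real.norm_eq_abs, abs_of_nonneg (hf0 _)]; exact hf1 _)
      rw [Real.norm_eq_abs, one_mul] at h1
      have h2 := hg.lip x (x + (1 / ((n : ℝ) + 1)) • v)
      rw [sub_add_cancel_left, norm_neg, norm_smul, Real.norm_eq_abs,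
        abs_of_nonneg (show (0 : ℝ) ≤ 1 / ((n : ℝ) + 1) by positivity)] at h2
      calc ((n : ℝ) + 1) * _ ≤ ((n : ℝ) + 1) * (L * (1 / ((n : ℝ) + 1) * ‖v‖)) :=
            mul_le_mul_of_nonneg_left (h1.trans h2) hn.le
        _ = L * ‖v‖ := by field_simp
    · rw [indicator_of_notMem hx]
      rw [mem_closedBall_zero_iff, not_le] at hx
      have h1 : g x = 0 := hg.out x (by linarith [norm_nonneg v])
      have h2 : g (x + (1 / ((n : ℝ) + 1)) • v) = 0 := by
        refine hg.out _ ?_
        have h3 : ‖(1 / ((n : ℝ) + 1)) • v‖ ≤ ‖v‖ := by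
          rw [norm_smul, Real.norm_eq_abs,
            abs_of_nonneg (show (0 : ℝ) ≤ 1 / ((n : ℝ) + 1) by positivity)]
          have : (1 : ℝ) / ((n : ℝ) + 1) ≤ 1 := by
            rw [div_le_one hn]
            linarith [(Nat.cast_nonneg n : (0 : ℝ) ≤ n)]
          exact mul_le_of_le_one_left (norm_nonneg _) this
        have h4 := norm_sub_norm_le x (-((1 / ((n : ℝ) + 1)) • v))
        rw [norm_neg, sub_neg_eq_add] at h4
        linarith
      beta_reduce
      rw [h1, h2, intervalIntegral.integral_same, abs_zero, mul_zero, ENNReal.ofReal_zero]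
  · rw [lintegral_indicator measurableSet_closedBall, setLIntegral_const]
    exact ENNReal.mul_ne_top ENNReal.ofReal_ne_top (isCompact_closedBall _ _).measure_lt_top.ne
  · filter_upwards [hg.lipschitz.ae_differentiableAt (μ := volume)] with x hx
    refine (ENNReal.continuous_ofReal.tendsto _).comp ?_
    have hfx : Continuous fun y : ℝ => f (foot u x + y • u) := hf.comp (by fun_prop)
    have h1 : HasDerivAt (fun b => ∫ y in (g x)..b, f (foot u x + y • u))
        (f (foot u x + g x • u)) (g x) := (hfx.integral_hasStrictDerivAt _ _).hasDerivAt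
    have h2 : HasDerivAt (fun t : ℝ => g (x + t • v)) (fderiv ℝ g x v) 0 := by
      have := hx.hasFDerivAt.hasLineDerivAt v
      exact this
    have h3 : HasDerivAt (fun t : ℝ => ∫ y in (g x)..(g (x + t • v)), f (foot u x + y • u))
        (f (foot u x + g x • u) * fderiv ℝ g x v) 0 := by
      have h1' : HasDerivAt (fun b => ∫ y in (g x)..b, f (foot u x + y • u))
        (f (foot u x + g x • u)) (g (x + (0 : ℝ) • v)) := by simpa using h1
      exact h1'.comp (0 : ℝ) h2
    rw [hasDerivAt_iff_tendsto_slope_zero] at h3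
    have h4 : Tendsto (fun n : ℕ => (1 : ℝ) / ((n : ℝ) + 1)) atTop (𝓝[≠] 0) := by
      rw [tendsto_nhdsWithin_iff]
      refine ⟨tendsto_one_div_add_atTop_nhds_zero_nat, Eventually.of_forall fun n => ?_⟩
      have : (0 : ℝ) < 1 / ((n : ℝ) + 1) := by positivity
      exact this.ne'
    have h5 := ((h3.comp h4).abs)
    rw [abs_mul, abs_of_nonneg (hf0 _)] at h5
    refine h5.congr fun n => ?_
    have hn : (0 : ℝ) < (n : ℝ) + 1 := by positivity
    simp only [Function.comp_apply, zero_add, zero_smul, add_zero, intervalIntegral.integral_same,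
      sub_zero, smul_eq_mul]
    rw [abs_mul, intervalIntegral.integral_symm, abs_neg, one_div, inv_inv, abs_of_pos hn]

/-- Comparison of the derivatives, continuous weights. -/
theorem deriv_cmp (hM : 0 ≤ M) (hL : 0 ≤ L) (hρ : 0 ≤ ρ) (hg : Adm M L ρ g) {u v : V}
    (hu : ‖u‖ = 1) (hv : ⟪v, u⟫ = 0) (f : V → ℝ) (hf : Continuous f)
    (hf0 : ∀ x, 0 ≤ f x) (hf1 : ∀ x, f x ≤ 1) :
    ∫⁻ x, ENNReal.ofReal (f (gm u (symf u g) x) * |fderiv ℝ (symf u g) x v|) ≤
      ∫⁻ x, ENNReal.ofReal (f (gm u g x) * |fderiv ℝ g x v|) := by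
  have hF : Adm M L ρ (symf u g) := hg.symf hM hL hρ hu
  refine le_of_tendsto_of_tendsto' (quot_lim hF f hf hf0 hf1) (quot_lim hg f hf hf0 hf1)
    fun n => ?_
  have hn : (0 : ℝ) ≤ (n : ℝ) + 1 := by positivity
  simp_rw [ENNReal.ofReal_mul hn]
  rw [lintegral_const_mul' _ _ ENNReal.ofReal_ne_top, lintegral_const_mul' _ _ ENNReal.ofReal_ne_top]
  refine mul_le_mul_right ?_ _
  refine diff_le hM hL hρ hg hu (v := (1 / ((n : ℝ) + 1)) • v) ?_
    (fun x y => f (x + y • u)) ?_ (fun x y => hf0 _)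
  · rw [inner_smul_left, hv, mul_zero]
  · exact hf.comp (by fun_prop)

end Q187.PS
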