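import Pool.Agent.Q187.PS.Persist

/-!
# Persistence of the critical set, conclusion
-/

set_option autoImplicit false
set_option linter.unusedSectionVars false

open MeasureTheory Set Filter Topology Metric
open scoped RealInnerProductSpace ENNReal NNReal

namespace Q187.PS

open Pool.Agent.H318R3.St Q187.Steiner

variable {V : Type*} [NormedAddCommGroup V] [InnerProductSpace ℝ V] [FiniteDimensional ℝ V]
  [MeasurableSpace V] [BorelSpace V]

variable {M L ρ : ℝ} {g : V → ℝ}

lemma meas_dv (g : V → ℝ) (v : V) : Measurable fun x => ENNReal.ofReal |fderiv ℝ g x v| := by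
  have h := measurable_fderiv_apply_const ℝ g v
  exact (continuous_abs.measurable.comp h).ennreal_ofReal

/-- Comparison of the derivatives, open sets. -/
theorem deriv_open (hM : 0 ≤ M) (hL : 0 ≤ L) (hρ : 0 ≤ ρ) (hg : Adm M L ρ g) {u v : V}
    (hu : ‖u‖ = 1) (hv : ⟪v, u⟫ = 0) {U : Set V} (hU : IsOpen U) :
    ∫⁻ x in {x | gm u (symf u g) x ∈ U}, ENNReal.ofReal |fderiv ℝ (symf u g) x v| ≤
      ∫⁻ x in {x | gm u g x ∈ U}, ENNReal.ofReal |fderiv ℝ g x v| := by
  have hF : Adm M L ρ (symf u g) := hg.symf hM hL hρ hu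
  have hmF : MeasurableSet {x | gm u (symf u g) x ∈ U} :=
    (gm_continuous hF.continuous).measurable hU.measurableSet
  have hmg : MeasurableSet {x | gm u g x ∈ U} :=
    (gm_continuous hg.continuous).measurable hU.measurableSet
  rcases Uᶜ.eq_empty_or_nonempty with he | hne
  · have hUu : U = univ := compl_empty_iff.1 he
    have h := deriv_cmp hM hL hρ hg hu hv (fun _ => 1) continuous_const (fun _ => zero_le_one)
      (fun _ => le_rfl)
    simp only [one_mul] at h
    rw [hUu]
    simp only [mem_univ, ofPred_true, Measure.restrict_univ]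
    exact h
  -- the approximating functions
  let f : ℕ → V → ℝ := fun n z => min 1 ((n : ℝ) * infDist z Uᶜ)
  have hfc : ∀ n, Continuous (f n) := fun n =>
    continuous_const.min (continuous_const.mul (continuous_infDist_pt _))
  have hf0 : ∀ n z, 0 ≤ f n z := fun n z =>
    le_min zero_le_one (mul_nonneg (Nat.cast_nonneg n) infDist_nonneg)
  have hf1 : ∀ n z, f n z ≤ 1 := fun n z => min_le_left _ _
  have hfout : ∀ n z, z ∉ U → f n z = 0 := by
    intro n z hz
    simp only [f]
    rw [infDist_zero_of_mem (show z ∈ Uᶜ from hz), mul_zero]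
    exact min_eq_right zero_le_one
  have hfin : ∀ z ∈ U, ∀ᶠ n : ℕ in atTop, f n z = 1 := by
    intro z hz
    have hpos : 0 < infDist z Uᶜ := by
      have := (hU.isClosed_compl.notMem_iff_infDist_pos hne).1 (fun h => h hz)
      exact this
    obtain ⟨n0, hn0⟩ := exists_nat_gt (1 / infDist z Uᶜ)
    filter_upwards [eventually_ge_atTop n0] with n hn
    simp only [f]
    refine min_eq_left ?_
    have h1 : (1 : ℝ) / infDist z Uᶜ < n := lt_of_lt_of_le hn0 (by exact_mod_cast hn)
    rw [div_lt_iff₀ hpos] at h1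
    exact h1.le
  have hcmp := fun n => deriv_cmp hM hL hρ hg hu hv (f n) (hfc n) (hf0 n) (hf1 n)
  have hbound : ∀ n, ∫⁻ x, ENNReal.ofReal (f n (gm u g x) * |fderiv ℝ g x v|) ≤
      ∫⁻ x in {x | gm u g x ∈ U}, ENNReal.ofReal |fderiv ℝ g x v| := by
    intro n
    rw [← lintegral_indicator hmg]
    refine lintegral_mono fun x => ?_
    by_cases hx : x ∈ {x | gm u g x ∈ U}
    · rw [indicator_of_mem hx]
      refine ENNReal.ofReal_le_ofReal ?_
      exact mul_le_of_le_one_left (abs_nonneg _) (hf1 _ _)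
    · rw [indicator_of_notMem hx]
      beta_reduce
      rw [hfout n _ hx, zero_mul, ENNReal.ofReal_zero]
  have hlim : ∫⁻ x in {x | gm u (symf u g) x ∈ U}, ENNReal.ofReal |fderiv ℝ (symf u g) x v| ≤
      liminf (fun n => ∫⁻ x, ENNReal.ofReal (f n (gm u (symf u g) x) *
        |fderiv ℝ (symf u g) x v|)) atTop := by
    refine le_trans ?_ (lintegral_liminf_le ?_)
    · rw [← lintegral_indicator hmF]
      refine lintegral_mono fun x => ?_
      by_cases hx : x ∈ {x | gm u (symf u g) x ∈ U}
      · rw [indicator_of_mem hx]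
        have h1 : Tendsto (fun n => ENNReal.ofReal (f n (gm u (symf u g) x) *
            |fderiv ℝ (symf u g) x v|)) atTop (𝓝 (ENNReal.ofReal |fderiv ℝ (symf u g) x v|)) := by
          refine tendsto_const_nhds.congr' ?_
          filter_upwards [hfin _ hx] with n hn
          rw [hn, one_mul]
        rw [h1.liminf_eq]
      · rw [indicator_of_notMem hx]
        exact zero_le
    · intro n
      have h1 : Measurable fun x => f n (gm u (symf u g) x) :=
        ((hfc n).comp (gm_continuous hF.continuous)).measurable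
      have h2 : Measurable fun x => |fderiv ℝ (symf u g) x v| :=
        continuous_abs.measurable.comp (measurable_fderiv_apply_const ℝ _ v)
      exact (h1.mul h2).ennreal_ofReal
  refine hlim.trans ?_
  refine liminf_le_of_frequently_le' ?_
  exact Frequently.of_forall fun n => (hcmp n).trans (hbound n)

/-- Comparison of the derivatives, null sets. -/
theorem deriv_null (hM : 0 ≤ M) (hL : 0 ≤ L) (hρ : 0 ≤ ρ) (hg : Adm M L ρ g) {u v : V}
    (hu : ‖u‖ = 1) (hv : ⟪v, u⟫ = 0) {N : Set V} (hN : MeasurableSet N)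
    (h0 : ∀ᵐ x, gm u g x ∈ N → fderiv ℝ g x v = 0) :
    ∀ᵐ x, gm u (symf u g) x ∈ N → fderiv ℝ (symf u g) x v = 0 := by
  have hF : Adm M L ρ (symf u g) := hg.symf hM hL hρ hu
  have hmgF := (gm_continuous (u := u) hF.continuous).measurable
  have hmgg := (gm_continuous (u := u) hg.continuous).measurable
  let ν : Measure V := (volume.withDensity fun x => ENNReal.ofReal |fderiv ℝ g x v|).map (gm u g)
  have hν : ∀ A, MeasurableSet A → ν A =
      ∫⁻ x in {x | gm u g x ∈ A}, ENNReal.ofReal |fderiv ℝ g x v| := by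
    intro A hA
    simp only [ν]
    rw [Measure.map_apply hmgg hA, withDensity_apply _ (hmgg hA)]
    rfl
  have hfin : IsFiniteMeasure ν := by
    refine ⟨?_⟩
    rw [hν _ MeasurableSet.univ]
    have h1 : ∀ x, ENNReal.ofReal |fderiv ℝ g x v| ≤
        (closedBall (0 : V) ρ).indicator (fun _ => ENNReal.ofReal (L * ‖v‖)) x := by
      intro x
      by_cases hx : x ∈ closedBall (0 : V) ρ
      · rw [indicator_of_mem hx]
        exact ENNReal.ofReal_le_ofReal (hg.fderiv_le hL x v)
      · rw [indicator_of_notMem hx]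
        rw [mem_closedBall_zero_iff, not_le] at hx
        rw [hg.fderiv_out hx]
        simp
    refine lt_of_le_of_lt (setLIntegral_le_lintegral _ _) ?_
    refine lt_of_le_of_lt (lintegral_mono h1) ?_
    rw [lintegral_indicator measurableSet_closedBall, setLIntegral_const]
    exact ENNReal.mul_lt_top ENNReal.ofReal_lt_top (isCompact_closedBall _ _).measure_lt_top
  have hνN : ν N = 0 := by
    rw [hν N hN]
    refine (setLIntegral_congr_fun_ae (hmgg hN) (g := fun _ => 0) ?_).trans (by simp)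
    filter_upwards [h0] with x hx hxN
    rw [hx hxN]
    simp
  have hint : ∫⁻ x in {x | gm u (symf u g) x ∈ N}, ENNReal.ofReal |fderiv ℝ (symf u g) x v| = 0 := by
    refine le_antisymm (le_of_forall_pos_le_add fun ε hε => ?_) zero_le
    rw [zero_add]
    have hlt : ν N < ε := by rw [hνN]; exact hε
    obtain ⟨U, hNU, hUo, hUε⟩ := Set.exists_isOpen_lt_of_lt N ε hlt
    refine (lintegral_mono_set (t := {x | gm u (symf u g) x ∈ U}) fun x hx => hNU hx).trans ?_
    refine (deriv_open hM hL hρ hg hu hv hUo).trans ?_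
    rw [← hν U hUo.measurableSet]
    exact hUε.le
  have hint' := (setLIntegral_eq_zero_iff (hmgF hN) (meas_dv (symf u g) v)).1 hint
  filter_upwards [hint'] with x hx hxN
  have h1 := hx hxN
  rw [ENNReal.ofReal_eq_zero] at h1
  exact abs_eq_zero.1 (le_antisymm h1 (abs_nonneg _))

/-- The critical part of `J` does not decrease. -/
theorem persist (hM : 0 ≤ M) (hL : 0 ≤ L) (hρ : 0 ≤ ρ) (hg : Adm M L ρ g) {u : V}
    (hu : ‖u‖ = 1) (hgen : ∀ᵐ x, fderiv ℝ g x u = 0 → fderiv ℝ g x = 0) {J : Set ℝ}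
    (hJ : MeasurableSet J) (hJ0 : J ⊆ Ioi 0) :
    volume {x | g x ∈ J ∧ fderiv ℝ g x = 0} ≤
      volume {x | symf u g x ∈ J ∧ fderiv ℝ (symf u g) x = 0} := by
  have hF : Adm M L ρ (symf u g) := hg.symf hM hL hρ hu
  let Z : Set V := {x | DifferentiableAt ℝ g x ∧ fderiv ℝ g x u = 0}
  have hZ0 : volume (gm u g '' Z) = 0 := by
    refine addHaar_image_eq_zero_of_det_fderivWithin_eq_zero volume
      (f' := fun x => gmD u (fderiv ℝ g x)) (fun x hx => ?_) (fun x hx => gmD_det_zero hu hx.2)
    exact (gm_hasFDerivAt hx.1).hasFDerivWithinAt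
  let N : Set V := toMeasurable volume (gm u g '' Z)
  have hN : MeasurableSet N := measurableSet_toMeasurable _ _
  have hN0 : volume N = 0 := by rw [measure_toMeasurable, hZ0]
  have hZN : ∀ x ∈ Z, gm u g x ∈ N := fun x hx => subset_toMeasurable _ _ ⟨x, hx, rfl⟩
  -- first inequality
  have h1 : volume {x | g x ∈ J ∧ fderiv ℝ g x = 0} ≤ volume {x | g x ∈ J ∧ gm u g x ∈ N} := by
    refine measure_mono_ae ?_
    filter_upwards [hg.lipschitz.ae_differentiableAt (μ := volume)] with x hx
    rintro ⟨h2, h3⟩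
    refine ⟨h2, hZN x ⟨hx, ?_⟩⟩
    rw [h3]
    rfl
  refine h1.trans ?_
  rw [← graph_eq hM hL hρ hg hu hJ hJ0 hN]
  refine measure_mono_ae ?_
  -- all directional derivatives vanish
  have hdu := du_zero hF hu hN hN0
  have hgu := du_zero hg hu hN hN0
  have hdv : ∀ v : V, ⟪v, u⟫ = 0 →
      ∀ᵐ x, gm u (symf u g) x ∈ N → fderiv ℝ (symf u g) x v = 0 := by
    intro v hv
    refine deriv_null hM hL hρ hg hu hv hN ?_
    filter_upwards [hgu, hgen] with x hx1 hx2 hxN
    rw [hx2 (hx1 hxN)]
    rfl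
  let b := Module.finBasis ℝ V
  have hall : ∀ᵐ x, ∀ i, gm u (symf u g) x ∈ N → fderiv ℝ (symf u g) x (foot u (b i)) = 0 :=
    ae_all_iff.2 fun i => hdv _ (foot_inner hu _)
  filter_upwards [hdu, hall] with x hx1 hx2
  rintro ⟨h2, h3⟩
  refine ⟨h2, ?_⟩
  ext y
  have h4 : (fderiv ℝ (symf u g) x : V →ₗ[ℝ] ℝ) = 0 := by
    refine b.ext fun i => ?_
    have h5 := hx2 i h3
    have h6 := hx1 h3
    have h7 : b i = foot u (b i) + ⟪b i, u⟫ • u := (foot_add u (b i)).symm
    rw [LinearMap.zero_apply]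
    show fderiv ℝ (symf u g) x (b i) = 0
    rw [h7, map_add, map_smul, h5, h6, smul_zero, add_zero]
  have h5 := congrArg (fun l : V →ₗ[ℝ] ℝ => l y) h4
  exact h5

end Q187.PS
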