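import Pool.Agent.Q187.PS.Stm

/-!
# JOB PROF
-/

set_option autoImplicit false
set_option linter.unusedSectionVars false

open MeasureTheory Set Filter Topology Metric
open scoped RealInnerProductSpace ENNReal NNReal

namespace Q187.PS

open Pool.Agent.H318R3.St Q187.Steiner

variable {M L ρ : ℝ}

lemma inv_mono {H : V2 → ℝ} (hH : Adm M L ρ H) {u : V2} (hu : ‖u‖ = 1) (h : symf u H = H)
    {x y : V2} (hf : foot u x = foot u y) (hin : |⟪y, u⟫| ≤ |⟪x, u⟫|) : H x ≤ H y := by
  rcases le_or_gt (H x) 0 with h0 | h0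
  · exact h0.trans (hH.nonneg y)
  · have h1 := (le_symf_iff hH hu h0 x).1 (by rw [h])
    rw [mem_sym_iff hu] at h1
    have h2 : y ∈ sym u (lev H (H x)) := by
      rw [mem_sym_iff hu, ← hf]
      exact ⟨h1.1, by linarith [h1.2]⟩
    have h3 := (le_symf_iff hH hu h0 y).2 h2
    rwa [h] at h3

lemma foot_refl {u : V2} (hu : ‖u‖ = 1) (x : V2) :
    foot u (x - (2 * ⟪x, u⟫) • u) = foot u x := by
  unfold foot
  rw [inner_sub_left, inner_smul_left, inner_self_one hu]
  simp only [conj_trivial, mul_one]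
  module

lemma inner_refl {u : V2} (hu : ‖u‖ = 1) (x : V2) :
    ⟪x - (2 * ⟪x, u⟫) • u, u⟫ = - ⟪x, u⟫ := by
  rw [inner_sub_left, inner_smul_left, inner_self_one hu]
  simp only [conj_trivial, mul_one]
  ring

lemma dir_continuous : Continuous dir := by
  unfold dir
  refine (PiLp.continuous_toLp 2 _).comp ?_
  refine continuous_pi fun i => ?_
  fin_cases i
  · exact Real.continuous_cos
  · exact Real.continuous_sin

/-- Every unit vector is plus or minus a direction of the upper half plane. -/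
lemma exists_dir {u : V2} (hu : ‖u‖ = 1) : ∃ θ ∈ Icc 0 Real.pi, u = dir θ ∨ u = - dir θ := by
  have h1 : u 0 ^ 2 + u 1 ^ 2 = 1 := by
    have := EuclideanSpace.norm_sq_eq u
    rw [hu, Fin.sum_univ_two] at this
    simpa using this.symm
  have ha : -1 ≤ u 0 := by nlinarith [sq_nonneg (u 1)]
  have hb : u 0 ≤ 1 := by nlinarith [sq_nonneg (u 1)]
  rcases le_total 0 (u 1) with h | h
  · refine ⟨Real.arccos (u 0), ⟨Real.arccos_nonneg _, Real.arccos_le_pi _⟩, Or.inl ?_⟩
    ext i
    fin_cases i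
    · simp [dir, Real.cos_arccos ha hb]
    · simp only [dir, Real.sin_arccos]
      show u 1 = √(1 - u 0 ^ 2)
      rw [show 1 - u 0 ^ 2 = u 1 ^ 2 by linarith, Real.sqrt_sq h]
  · refine ⟨Real.arccos (- u 0), ⟨Real.arccos_nonneg _, Real.arccos_le_pi _⟩, Or.inr ?_⟩
    ext i
    fin_cases i
    · simp only [dir]
      show u 0 = - Real.cos (Real.arccos (- u 0))
      rw [Real.cos_arccos (by linarith) (by linarith)]
      ring
    · simp only [dir, Real.sin_arccos]
      show u 1 = - √(1 - (- u 0) ^ 2)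
      rw [show 1 - (- u 0) ^ 2 = (- u 1) ^ 2 by linarith, Real.sqrt_sq (by linarith)]
      ring

theorem prof : S_Prof := by
  intro M L ρ H hM hL hρ hH c hc hvol hle N hN hinv
  have hpi := Real.pi_pos
  -- reflections in good directions
  have hgood : ∀ θ ∈ Ico 0 Real.pi, θ ∉ N → ∀ x, H (x - (2 * ⟪x, dir θ⟫) • dir θ) = H x := by
    intro θ hθ hθN x
    have h := hinv θ hθ hθN
    have hu := norm_dir θ
    have e1 := foot_refl hu x
    have e2 := inner_refl hu x
    refine le_antisymm ?_ ?_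
    · refine inv_mono hH hu h e1 ?_
      rw [e2, abs_neg]
    · refine inv_mono hH hu h e1.symm ?_
      rw [e2, abs_neg]
  -- in all directions
  have hall : ∀ x, ∀ θ ∈ Icc 0 Real.pi, H (x - (2 * ⟪x, dir θ⟫) • dir θ) = H x := by
    intro x θ hθ
    have hcl : IsClosed {θ : ℝ | H (x - (2 * ⟪x, dir θ⟫) • dir θ) = H x} := by
      refine isClosed_eq ?_ continuous_const
      refine hH.continuous.comp ?_
      have hd := dir_continuous
      fun_prop
    have hd : Ioo 0 Real.pi ⊆ closure (Ioo 0 Real.pi ∩ Nᶜ) :=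
      (hN.dense_compl ℝ).open_subset_closure_inter isOpen_Ioo
    have hsub : Ioo 0 Real.pi ∩ Nᶜ ⊆ {θ : ℝ | H (x - (2 * ⟪x, dir θ⟫) • dir θ) = H x} :=
      fun θ hθ => hgood θ ⟨hθ.1.1.le, hθ.1.2⟩ hθ.2 x
    have h1 : closure (Ioo 0 Real.pi) ⊆ {θ : ℝ | H (x - (2 * ⟪x, dir θ⟫) • dir θ) = H x} :=
      (closure_minimal (hd.trans (closure_minimal hsub hcl)) hcl)
    rw [closure_Ioo hpi.ne] at h1
    exact h1 hθ
  -- radial
  have hrad : ∀ x y : V2, ‖x‖ = ‖y‖ → H x = H y := by
    intro x y hxy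
    by_cases hne : x = y
    · rw [hne]
    have hn : ‖x - y‖ ≠ 0 := norm_ne_zero_iff.2 (sub_ne_zero.2 hne)
    set u : V2 := (‖x - y‖)⁻¹ • (x - y) with hu
    have hu1 : ‖u‖ = 1 := by
      rw [hu, norm_smul, norm_inv, norm_norm, inv_mul_cancel₀ hn]
    have hy : x - (2 * ⟪x, u⟫) • u = y := by
      have h1 : 2 * ⟪x, x - y⟫ = ‖x - y‖ ^ 2 := by
        rw [inner_sub_right, real_inner_self_eq_norm_sq, @norm_sub_sq_real, hxy]
        ring
      have h2 : (2 * ⟪x, u⟫) • u = x - y := by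
        rw [hu, inner_smul_right, smul_smul]
        have : 2 * (‖x - y‖⁻¹ * ⟪x, x - y⟫) * ‖x - y‖⁻¹ = 1 := by
          have h3 : 2 * (‖x - y‖⁻¹ * ⟪x, x - y⟫) * ‖x - y‖⁻¹ =
              (2 * ⟪x, x - y⟫) * (‖x - y‖⁻¹ * ‖x - y‖⁻¹) := by ring
          rw [h3, h1]
          field_simp
        rw [this, one_smul]
      rw [h2]
      abel
    obtain ⟨θ, hθ, h | h⟩ := exists_dir hu1
    · have h1 := hall x θ hθ
      rw [← h, hy] at h1
      exact h1.symm
    · have h1 := hall x θ hθ
      have h2 : dir θ = - u := by rw [h, neg_neg]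
      rw [h2, inner_neg_right, show (2 * -⟪x, u⟫) • (-u) = (2 * ⟪x, u⟫) • u by module, hy] at h1
      exact h1.symm
  -- a good direction
  obtain ⟨θ₀, hθ₀, hθN⟩ : ∃ θ ∈ Ico 0 Real.pi, θ ∉ N := by
    by_contra hcon
    push Not at hcon
    have h2 := (hN.mono (fun θ hθ => hcon θ hθ : Ico 0 Real.pi ⊆ N)).measure_zero volume
    rw [Real.volume_Ico, sub_zero, ENNReal.ofReal_eq_zero] at h2
    linarith
  have hmono : ∀ x y : V2, ‖y‖ ≤ ‖x‖ → H x ≤ H y := by
    intro x y hxy
    set u := dir θ₀ with hu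
    have hu1 : ‖u‖ = 1 := norm_dir _
    have e1 : H x = H (‖x‖ • u) := hrad _ _ (by rw [norm_smul, norm_norm, hu1, mul_one])
    have e2 : H y = H (‖y‖ • u) := hrad _ _ (by rw [norm_smul, norm_norm, hu1, mul_one])
    rw [e1, e2]
    have e3 : ∀ a : ℝ, foot u (a • u) = 0 := by
      intro a
      unfold foot
      rw [inner_smul_left, inner_self_one hu1]
      simp
    have e4 : ∀ a : ℝ, ⟪a • u, u⟫ = a := by
      intro a
      rw [inner_smul_left, inner_self_one hu1]
      simp
    refine inv_mono hH hu1 (hinv θ₀ hθ₀ hθN) (by rw [e3, e3]) ?_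
    rw [e4, e4, abs_of_nonneg (norm_nonneg _), abs_of_nonneg (norm_nonneg _)]
    exact hxy
  have hballvol : ∀ r : ℝ, 0 ≤ r → volume (closedBall (0 : V2) r) =
      ENNReal.ofReal (Real.pi * r ^ 2) := by
    intro r hr
    rw [EuclideanSpace.volume_closedBall_fin_two, ← ENNReal.ofReal_pow hr,
      ← ENNReal.ofReal_mul (by positivity), mul_comm]
  -- upper bound
  have hup : ∀ x s, s ∈ Ioc 0 c → s ≤ H x → ‖x‖ ^ 2 ≤ c - s := by
    intro x s hs hsx
    have h1 : closedBall (0 : V2) ‖x‖ ⊆ lev H s := by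
      intro y hy
      rw [mem_closedBall_zero_iff] at hy
      exact hsx.trans (hmono x y hy)
    have h2 := measure_mono (μ := volume) h1
    rw [hballvol _ (norm_nonneg _), hvol s hs] at h2
    have h3 := (ENNReal.ofReal_le_ofReal_iff (mul_nonneg hpi.le (by linarith [hs.2]))).1 h2
    exact le_of_mul_le_mul_left h3 hpi
  have hlow : ∀ x s, s ∈ Ioc 0 c → H x < s → c - s ≤ ‖x‖ ^ 2 := by
    intro x s hs hsx
    have h1 : lev H s ⊆ closedBall (0 : V2) ‖x‖ := by
      intro y hy
      rw [mem_closedBall_zero_iff]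
      by_contra hcon
      push Not at hcon
      have h2 := hmono y x hcon.le
      have h3 : s ≤ H y := hy
      linarith
    have h2 := measure_mono (μ := volume) h1
    rw [hballvol _ (norm_nonneg _), hvol s hs] at h2
    have h3 := (ENNReal.ofReal_le_ofReal_iff (by positivity)).1 h2
    exact le_of_mul_le_mul_left h3 hpi
  intro x
  refine le_antisymm ?_ ?_
  · rcases le_or_gt (H x) 0 with h | h
    · exact h.trans (le_max_left _ _)
    · refine le_trans ?_ (le_max_right _ _)
      linarith [hup x (H x) ⟨h, hle x⟩ le_rfl]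
  · refine max_le (hH.nonneg x) ?_
    by_contra hcon
    push Not at hcon
    -- choose s between H x and c - ‖x‖²
    have h0 := hH.nonneg x
    set s := (H x + (c - ‖x‖ ^ 2)) / 2 with hs
    have hs1 : H x < s := by linarith
    have hs2 : s < c - ‖x‖ ^ 2 := by linarith
    have h1 := hlow x s ⟨by linarith, by nlinarith [sq_nonneg ‖x‖]⟩ hs1
    linarith

end Q187.PS
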