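import Pool.Agent.Q187.PS.Line

/-!
# Images and preimages of null sets
-/

set_option autoImplicit false
set_option linter.unusedSectionVars false

open MeasureTheory Set Filter Topology Metric
open scoped RealInnerProductSpace ENNReal NNReal

namespace Q187.PS

open Pool.Agent.H318R3.St Q187.Steiner

section

variable {V : Type*} [NormedAddCommGroup V] [NormedSpace ℝ V] [FiniteDimensional ℝ V]
  [MeasurableSpace V] [BorelSpace V]

/-- If the Jacobian does not vanish on `s` and the image of `s` is a null set, so is `s`. -/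
theorem null_of_image_null (μ : Measure V) [μ.IsAddHaarMeasure] {f : V → V} {s : Set V}
    (hs : MeasurableSet s) {f' : V → V →L[ℝ] V} (hf' : ∀ x ∈ s, HasFDerivAt f (f' x) x)
    (hdet : ∀ x ∈ s, (f' x).det ≠ 0) (h0 : μ (f '' s) = 0) : μ s = 0 := by
  rcases s.eq_empty_or_nonempty with he | hne
  · rw [he, measure_empty]
  classical
  let r : (V →L[ℝ] V) → ℝ≥0 := fun A =>
    if h : A.det ≠ 0 then ‖((A.toContinuousLinearEquivOfDetNeZero h).symm : V →L[ℝ] V)‖₊⁻¹ / 2
    else 1
  have rpos' : ∀ A, (Subsingleton V) ∨ r A ≠ 0 := by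
    intro A
    rcases subsingleton_or_nontrivial V with hV | hV
    · exact Or.inl hV
    · right
      simp only [r]
      split_ifs with h
      · have : (0 : ℝ≥0) < ‖((A.toContinuousLinearEquivOfDetNeZero h).symm : V →L[ℝ] V)‖₊ :=
          (A.toContinuousLinearEquivOfDetNeZero h).nnnorm_symm_pos
        positivity
      · exact one_ne_zero
  rcases subsingleton_or_nontrivial V with hV | hV
  · have hs' : s = univ := by
      obtain ⟨x, hx⟩ := hne
      ext y
      simp [Subsingleton.elim y x, hx]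
    have : f '' s = univ := by
      obtain ⟨x, hx⟩ := hne
      ext y
      simp only [mem_image, mem_univ, iff_true]
      exact ⟨x, hx, Subsingleton.elim _ _⟩
    rw [hs', ← this, h0]
  have rpos : ∀ A, r A ≠ 0 := fun A => (rpos' A).resolve_left (not_subsingleton V)
  obtain ⟨t, A, -, htm, hst, happ, hA⟩ :=
    exists_partition_approximatesLinearOn_of_hasFDerivWithinAt f s f'
      (fun x hx => (hf' x hx).hasFDerivWithinAt) r rpos
  have hn : ∀ n, μ (s ∩ t n) = 0 := by
    intro n
    obtain ⟨y, hy, hAy⟩ := hA hne n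
    have hd : (A n).det ≠ 0 := by rw [hAy]; exact hdet y hy
    have h1 := happ n
    have hr : r (A n) = ‖(((A n).toContinuousLinearEquivOfDetNeZero hd).symm : V →L[ℝ] V)‖₊⁻¹ / 2 := by
      simp only [r]
      rw [dif_pos hd]
    rw [hr] at h1
    have hpos : (0 : ℝ≥0) < ‖(((A n).toContinuousLinearEquivOfDetNeZero hd).symm : V →L[ℝ] V)‖₊ :=
      ((A n).toContinuousLinearEquivOfDetNeZero hd).nnnorm_symm_pos
    have hinj : InjOn f (s ∩ t n) := by
      have h2 : ApproximatesLinearOn f
          (((A n).toContinuousLinearEquivOfDetNeZero hd : V ≃L[ℝ] V) : V →L[ℝ] V) (s ∩ t n)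
          (‖(((A n).toContinuousLinearEquivOfDetNeZero hd).symm : V →L[ℝ] V)‖₊⁻¹ / 2) := by
        exact h1
      refine h2.injOn (Or.inr ?_)
      exact NNReal.half_lt_self (by positivity)
    have hm := hs.inter (htm n)
    have h3 := lintegral_abs_det_fderiv_eq_addHaar_image μ hm
      (fun x hx => (hf' x hx.1).hasFDerivWithinAt) hinj
    have h4 : μ (f '' (s ∩ t n)) = 0 := measure_mono_null (image_mono inter_subset_left) h0
    rw [h4] at h3
    by_contra hpos'
    have h5 : 0 < ∫⁻ x in s ∩ t n, ENNReal.ofReal |(f' x).det| ∂μ := by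
      have h6 : ∀ x ∈ s ∩ t n, ENNReal.ofReal |(f' x).det| ≠ 0 := by
        intro x hx
        rw [ne_eq, ENNReal.ofReal_eq_zero, not_le]
        exact abs_pos.2 (hdet x hx.1)
      rw [pos_iff_ne_zero]
      intro h7
      have h8 := aemeasurable_ofReal_abs_det_fderivWithin μ hm
        (fun x hx => (hf' x hx.1).hasFDerivWithinAt)
      rw [lintegral_eq_zero_iff' h8] at h7
      have h9 := (ae_restrict_iff' hm).1 h7
      refine hpos' ?_
      rw [← compl_compl (s ∩ t n)]
      rw [← mem_ae_iff]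
      filter_upwards [h9] with x hx
      intro hxs
      exact h6 x hxs (hx hxs)
    rw [h3] at h5
    exact lt_irrefl _ h5
  refine measure_mono_null (t := ⋃ n, s ∩ t n) ?_ (measure_iUnion_null hn)
  intro x hx
  obtain ⟨n, hn⟩ := mem_iUnion.1 (hst hx)
  exact mem_iUnion.2 ⟨n, hx, hn⟩

end

section

variable {V : Type*} [NormedAddCommGroup V] [InnerProductSpace ℝ V] [FiniteDimensional ℝ V]
  [MeasurableSpace V] [BorelSpace V]

/-- The graph map in direction `u`. -/
noncomputable def gm (u : V) (g : V → ℝ) (x : V) : V := foot u x + g x • u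

lemma gm_continuous {u : V} {g : V → ℝ} (hg : Continuous g) : Continuous (gm u g) := by
  unfold gm
  exact (foot_continuous u).add (hg.smul continuous_const)

lemma gm_line {u : V} (hu : ‖u‖ = 1) (g : V → ℝ) (x : V) (s : ℝ) :
    gm u g (foot u x + s • u) = foot u x + g (foot u x + s • u) • u := by
  unfold gm
  rw [foot_foot hu]

/-- The derivative of the graph map. -/
noncomputable def gmD (u : V) (φ : V →L[ℝ] ℝ) : V →L[ℝ] V :=
  ContinuousLinearMap.id ℝ V + (φ - innerSL ℝ u).smulRight u

lemma gm_hasFDerivAt {u : V} {g : V → ℝ} {x : V} (hg : DifferentiableAt ℝ g x) :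
    HasFDerivAt (gm u g) (gmD u (fderiv ℝ g x)) x := by
  have h1 : HasFDerivAt (fun y : V => g y - ⟪u, y⟫) (fderiv ℝ g x - innerSL ℝ u) x :=
    hg.hasFDerivAt.sub (innerSL ℝ u).hasFDerivAt
  have h2 := (hasFDerivAt_id x).add (h1.smul_const u)
  refine h2.congr_of_eventuallyEq (Eventually.of_forall fun y => ?_)
  unfold gm foot
  simp only [Pi.add_apply, id_eq, sub_smul, real_inner_comm u y]
  abel

lemma gmD_apply {u : V} (φ : V →L[ℝ] ℝ) (x : V) : gmD u φ x = x + (φ x - ⟪u, x⟫) • u := by
  simp [gmD]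

lemma gmD_det_zero {u : V} (hu : ‖u‖ = 1) {φ : V →L[ℝ] ℝ} (h : φ u = 0) : (gmD u φ).det = 0 := by
  have h1 : gmD u φ u = 0 := by
    rw [gmD_apply, h, inner_self_one hu]
    simp
  by_contra hne
  have h2 := (gmD u φ).toContinuousLinearEquivOfDetNeZero hne |>.injective
  have h3 : u = 0 := by
    apply h2
    rw [map_zero]
    exact h1
  rw [h3, norm_zero] at hu
  exact zero_ne_one hu

lemma gmD_det_ne {u : V} (hu : ‖u‖ = 1) {φ : V →L[ℝ] ℝ} (h : φ u ≠ 0) : (gmD u φ).det ≠ 0 := by
  intro h0
  have h1 : (gmD u φ : V →ₗ[ℝ] V).det = 0 := h0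
  rw [LinearMap.det_eq_zero_iff_ker_ne_bot] at h1
  refine h1 (LinearMap.ker_eq_bot'.2 fun x hx => ?_)
  have h2 : x + (φ x - ⟪u, x⟫) • u = 0 := by
    rw [← gmD_apply]
    exact hx
  have h3 : x = (-(φ x - ⟪u, x⟫)) • u := by
    rw [neg_smul]
    exact eq_neg_of_add_eq_zero_left h2
  set c := -(φ x - ⟪u, x⟫) with hc
  have h4 : φ x = c * φ u := by rw [h3, map_smul, smul_eq_mul]
  have h5 : ⟪u, x⟫ = c := by rw [h3, inner_smul_right, inner_self_one hu, mul_one]
  have h6 : c * φ u = 0 := by
    rw [h4, h5] at hc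
    linarith
  have h7 : c = 0 := (mul_eq_zero.1 h6).resolve_right h
  rw [h3, h7, zero_smul]

end

end Q187.PS
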