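import Pool.Agent.Q187.PS.Stm

/-!
# The sequence of directions
-/

set_option autoImplicit false
set_option linter.unusedSectionVars false

open MeasureTheory Set Filter Topology Metric
open scoped RealInnerProductSpace ENNReal NNReal

namespace Q187.PS

open Pool.Agent.H318R3.St Q187.Steiner

variable {M L ρ : ℝ}

lemma vol_lev_symf {g : V2 → ℝ} (hg : Adm M L ρ g) {u : V2} (hu : ‖u‖ = 1) {s : ℝ} (hs : 0 < s) :
    volume (lev (symf u g) s) = volume (lev g s) := by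
  rw [lev_symf hg hu hs, sym_vol hu (hg.lev_compact hs)]

lemma symf_le {g : V2 → ℝ} (hg : Adm M L ρ g) {u : V2} (hu : ‖u‖ = 1) {c : ℝ} (hc : 0 ≤ c)
    (h : ∀ x, g x ≤ c) (x : V2) : symf u g x ≤ c := by
  by_contra hlt
  push Not at hlt
  have h1 := (le_symf_iff hg hu (lt_of_le_of_lt hc hlt) x).1 le_rfl
  obtain ⟨_, _, _, _, ⟨τ, hτ⟩, _⟩ := h1
  exact absurd (h _) (not_le.2 (lt_of_lt_of_le hlt hτ))

/-- The functions reachable. -/
structure St (M L ρ c : ℝ) (g : V2 → ℝ) : Prop where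
  adm : Adm M L ρ g
  vol : ∀ s ∈ Ioc 0 c, volume (lev g s) = ENNReal.ofReal (Real.pi * (c - s))
  le : ∀ x, g x ≤ c

lemma St.step {c : ℝ} {g : V2 → ℝ} (hM : 0 ≤ M) (hL : 0 ≤ L) (hρ : 0 ≤ ρ) (hc : 0 < c)
    (hg : St M L ρ c g) {u : V2} (hu : ‖u‖ = 1) : St M L ρ c (symf u g) := by
  refine ⟨hg.adm.symf hM hL hρ hu, fun s hs => ?_, symf_le hg.adm hu hc.le hg.le⟩
  rw [vol_lev_symf hg.adm hu hs.1, hg.vol s hs]

/-- The moment is finite. -/
lemma mom_lt_top {g : V2 → ℝ} (hg : Adm M L ρ g) : mom g < ⊤ := by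
  have h1 : mom g ≤ ∫⁻ x in closedBall (0 : V2) ρ, ENNReal.ofReal (ρ ^ 2) * ENNReal.ofReal M := by
    rw [← lintegral_indicator measurableSet_closedBall]
    refine lintegral_mono fun x => ?_
    by_cases hx : x ∈ closedBall (0 : V2) ρ
    · rw [indicator_of_mem hx]
      rw [mem_closedBall_zero_iff] at hx
      exact mul_le_mul' (ENNReal.ofReal_le_ofReal (pow_le_pow_left₀ (norm_nonneg _) hx 2))
        (ENNReal.ofReal_le_ofReal (hg.le x))
    · rw [indicator_of_notMem hx]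
      rw [mem_closedBall_zero_iff, not_le] at hx
      simp only
      rw [hg.out x hx]
      simp
  refine lt_of_le_of_lt h1 ?_
  rw [setLIntegral_const]
  exact ENNReal.mul_lt_top (ENNReal.mul_lt_top ENNReal.ofReal_lt_top ENNReal.ofReal_lt_top)
    (isCompact_closedBall _ _).measure_lt_top

/-- A good choice of the next direction. -/
lemma choice (hgen : S_Gen) {g : V2 → ℝ} (hρ : 0 ≤ ρ) (hM : 0 ≤ M) (hL : 0 ≤ L)
    (hg : Adm M L ρ g) {ε : ℝ≥0∞} (hε : 0 < ε) :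
    ∃ θ ∈ Ico 0 Real.pi, Gen g (dir θ) ∧ ∀ θ' ∈ Ico 0 Real.pi, Gen g (dir θ') →
      mom (symf (dir θ) g) ≤ mom (symf (dir θ') g) + ε := by
  have hN := hgen M L ρ g hg
  have hex : ∃ θ ∈ Ico 0 Real.pi, Gen g (dir θ) := by
    by_contra hcon
    push Not at hcon
    have h1 : Ico 0 Real.pi ⊆ {θ : ℝ | θ ∈ Ico 0 Real.pi ∧ ¬ Gen g (dir θ)} :=
      fun θ hθ => ⟨hθ, hcon θ hθ⟩
    have h2 := (hN.mono h1).measure_zero volume
    rw [Real.volume_Ico, sub_zero, ENNReal.ofReal_eq_zero] at h2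
    linarith [Real.pi_pos]
  let S : Set ℝ≥0∞ := (fun θ => mom (symf (dir θ) g)) '' {θ | θ ∈ Ico 0 Real.pi ∧ Gen g (dir θ)}
  have hS : S.Nonempty := by
    obtain ⟨θ, h1, h2⟩ := hex
    exact ⟨_, θ, ⟨h1, h2⟩, rfl⟩
  have hfin : sInf S ≠ ⊤ := by
    obtain ⟨θ, h1, h2⟩ := hex
    have h3 : sInf S ≤ mom (symf (dir θ) g) := sInf_le ⟨θ, ⟨h1, h2⟩, rfl⟩
    exact (h3.trans_lt (mom_lt_top (hg.symf hM hL hρ (norm_dir θ)))).ne
  obtain ⟨a, ⟨θ, ⟨hθ1, hθ2⟩, rfl⟩, ha⟩ := exists_lt_of_csInf_lt hS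
    (ENNReal.lt_add_right hfin hε.ne')
  refine ⟨θ, hθ1, hθ2, fun θ' h1 h2 => ?_⟩
  have h3 : sInf S ≤ mom (symf (dir θ') g) := sInf_le ⟨θ', ⟨h1, h2⟩, rfl⟩
  exact ha.le.trans (add_le_add h3 le_rfl)

/-- The error terms. -/
noncomputable def er (i : ℕ) : ℝ≥0∞ := ENNReal.ofReal (1 / ((i : ℝ) + 1))

lemma er_pos (i : ℕ) : 0 < er i := by
  unfold er
  rw [ENNReal.ofReal_pos]
  positivity

lemma er_tendsto : Tendsto er atTop (𝓝 0) := by
  unfold er
  rw [← ENNReal.ofReal_zero]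
  exact ENNReal.tendsto_ofReal tendsto_one_div_add_atTop_nhds_zero_nat

/-- The greedy sequence. -/
lemma greedy (hgen : S_Gen) (hM : 0 ≤ M) (hL : 0 ≤ L) (hρ : 0 ≤ ρ) {c : ℝ} (hc : 0 < c)
    {g : V2 → ℝ} (hg : St M L ρ c g) :
    ∃ (θ : ℕ → ℝ) (G : ℕ → V2 → ℝ), G 0 = g ∧ (∀ i, St M L ρ c (G i)) ∧
      (∀ i, G (i + 1) = symf (dir (θ i)) (G i)) ∧ (∀ i, Gen (G i) (dir (θ i))) ∧
      ∀ i, ∀ θ' ∈ Ico 0 Real.pi, Gen (G i) (dir θ') →
        mom (G (i + 1)) ≤ mom (symf (dir θ') (G i)) + er i := by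
  classical
  have hch : ∀ (i : ℕ) (f : {f : V2 → ℝ // St M L ρ c f}), ∃ θ ∈ Ico 0 Real.pi,
      Gen f.1 (dir θ) ∧ ∀ θ' ∈ Ico 0 Real.pi, Gen f.1 (dir θ') →
      mom (symf (dir θ) f.1) ≤ mom (symf (dir θ') f.1) + er i :=
    fun i f => choice hgen hρ hM hL f.2.adm (er_pos i)
  choose th1 hth1 hth2 hth3 using hch
  let F : ℕ → {f : V2 → ℝ // St M L ρ c f} := fun n => Nat.rec ⟨g, hg⟩
    (fun i f => ⟨symf (dir (th1 i f)) f.1, f.2.step hM hL hρ hc (norm_dir _)⟩) n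
  refine ⟨fun i => th1 i (F i), fun i => (F i).1, rfl, fun i => (F i).2, fun i => rfl,
    fun i => hth2 i (F i), fun i => hth3 i (F i)⟩

lemma small_eps (ρ : ℝ) {K : ℝ≥0∞} (hK : K ≠ ⊤) {a : ℝ} (ha : 0 < a) :
    ∃ ε : ℝ, 0 < ε ∧ ENNReal.ofReal (ρ ^ 2 * ε) * K ≤ ENNReal.ofReal a := by
  lift K to ℝ≥0 using hK
  refine ⟨a / ((ρ ^ 2 + 1) * (K + 1)), by positivity, ?_⟩
  rw [← ENNReal.ofReal_coe_nnreal, ← ENNReal.ofReal_mul (by positivity)]
  refine ENNReal.ofReal_le_ofReal ?_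
  have h1 : ρ ^ 2 * (a / ((ρ ^ 2 + 1) * (K + 1))) * K =
      a * ((ρ ^ 2 * K) / ((ρ ^ 2 + 1) * (K + 1))) := by
    field_simp
  rw [h1]
  have h2 : (ρ ^ 2 * (K : ℝ)) / ((ρ ^ 2 + 1) * (K + 1)) ≤ 1 := by
    rw [div_le_one (by positivity)]
    have := K.2
    have h3 : (0 : ℝ) ≤ K := K.2
    nlinarith [sq_nonneg ρ]
  nlinarith

/-- The main step: limits are paraboloids. -/
lemma limit_eq (hgen : S_Gen) (hmom : S_Mom) (hcont : S_Cont) (hprof : S_Prof)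
    (hM : 0 ≤ M) (hL : 0 ≤ L) (hρ : 0 ≤ ρ) {c : ℝ} (hc : 0 < c) {θ : ℕ → ℝ} {G : ℕ → V2 → ℝ}
    (hSt : ∀ i, St M L ρ c (G i)) (hG : ∀ i, G (i + 1) = symf (dir (θ i)) (G i))
    (hgr : ∀ i, ∀ θ' ∈ Ico 0 Real.pi, Gen (G i) (dir θ') →
        mom (G (i + 1)) ≤ mom (symf (dir θ') (G i)) + er i)
    {U : Ultrafilter ℕ} (hU : (U : Filter ℕ) ≤ atTop) {H : V2 → ℝ} (hH : Adm M L ρ H)
    (hlim : ∀ ε : ℝ, 0 < ε → ∀ᶠ i in (U : Filter ℕ), ∀ x, |G i x - H x| ≤ ε) (x : V2) :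
    H x = max 0 (c - ‖x‖ ^ 2) := by
  -- moments
  set K : ℝ≥0∞ := volume (closedBall (0 : V2) ρ) with hK
  have hKfin : K ≠ ⊤ := (isCompact_closedBall _ _).measure_lt_top.ne
  have hanti : Antitone fun i => mom (G i) := by
    refine antitone_nat_of_succ_le fun i => ?_
    rw [hG i]
    exact (hmom M L ρ (G i) hM hL hρ (hSt i).adm _ (norm_dir _)).1
  set I : ℝ≥0∞ := ⨅ i, mom (G i) with hI
  have hHI : mom H ≤ I := by
    refine le_iInf fun j => ?_
    refine ENNReal.le_of_forall_pos_le_add fun δ hδ _ => ?_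
    obtain ⟨ε, hε, hε'⟩ := small_eps ρ hKfin (a := δ) (by exact_mod_cast hδ)
    rw [ENNReal.ofReal_coe_nnreal] at hε'
    obtain ⟨i, hi1, hi2⟩ := ((hlim ε hε).and (hU (eventually_ge_atTop j))).exists
    have h1 := (hcont M L ρ H (G i) hM hL hρ hH (hSt i).adm ε hε.le
      (fun x => by rw [abs_sub_comm]; exact hi1 x)).2
    calc mom H ≤ mom (G i) + ENNReal.ofReal (ρ ^ 2 * ε) * K := h1
      _ ≤ mom (G j) + δ := add_le_add (hanti hi2) hε'
  set N : Set ℝ := ⋃ i, {θ' : ℝ | θ' ∈ Ico 0 Real.pi ∧ ¬ Gen (G i) (dir θ')} with hN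
  have hNc : N.Countable := countable_iUnion fun i => hgen M L ρ (G i) (hSt i).adm
  have hinv : ∀ θ' ∈ Ico 0 Real.pi, θ' ∉ N → symf (dir θ') H = H := by
    intro θ' hθ' hθN
    have hgood : ∀ i, Gen (G i) (dir θ') := by
      intro i
      by_contra hcon
      exact hθN (mem_iUnion.2 ⟨i, hθ', hcon⟩)
    refine (hmom M L ρ H hM hL hρ hH _ (norm_dir _)).2 (hHI.trans ?_)
    -- I ≤ mom (symf H)
    refine ENNReal.le_of_forall_pos_le_add fun δ hδ _ => ?_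
    have hδ2 : 0 < (δ : ℝ) / 2 := by positivity
    obtain ⟨ε, hε, hε'⟩ := small_eps ρ hKfin hδ2
    have her : ∀ᶠ i in (U : Filter ℕ), er i ≤ ENNReal.ofReal ((δ : ℝ) / 2) := by
      refine hU ?_
      exact (er_tendsto.eventually (gt_mem_nhds (ENNReal.ofReal_pos.2 hδ2))).mono
        fun i hi => hi.le
    obtain ⟨i, hi1, hi2⟩ := ((hlim ε hε).and her).exists
    have hs := (hcont M L ρ (G i) H hM hL hρ (hSt i).adm hH ε hε.le hi1).1 (dir θ') (norm_dir _)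
    have hA1 := (hSt i).adm.symf hM hL hρ (norm_dir θ')
    have hA2 := hH.symf hM hL hρ (norm_dir θ')
    have h1 := (hcont M L ρ _ _ hM hL hρ hA1 hA2 ε hε.le hs).2
    have h2 : ENNReal.ofReal ((δ : ℝ) / 2) + ENNReal.ofReal ((δ : ℝ) / 2) = δ := by
      rw [← ENNReal.ofReal_add hδ2.le hδ2.le, add_halves, ENNReal.ofReal_coe_nnreal]
    calc I ≤ mom (G (i + 1)) := iInf_le _ _
      _ ≤ mom (symf (dir θ') (G i)) + er i := hgr i θ' hθ' (hgood i)
      _ ≤ (mom (symf (dir θ') H) + ENNReal.ofReal (ρ ^ 2 * ε) * K) +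
          ENNReal.ofReal ((δ : ℝ) / 2) := add_le_add h1 hi2
      _ ≤ (mom (symf (dir θ') H) + ENNReal.ofReal ((δ : ℝ) / 2)) +
          ENNReal.ofReal ((δ : ℝ) / 2) := by gcongr
      _ = mom (symf (dir θ') H) + δ := by rw [add_assoc, h2]
  -- the areas
  have hHle : ∀ y, H y ≤ c := by
    intro y
    refine le_of_forall_pos_le_add fun ε hε => ?_
    obtain ⟨i, hi⟩ := (hlim ε hε).exists
    have h1 := (abs_le.1 (hi y)).1
    linarith [(hSt i).le y]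
  have hvol : ∀ s ∈ Ioc 0 c, volume (lev H s) = ENNReal.ofReal (Real.pi * (c - s)) := by
    intro s hs
    have hup : ∀ ε : ℝ, 0 < ε → ε < s →
        volume (lev H s) ≤ ENNReal.ofReal (Real.pi * (c - (s - ε))) := by
      intro ε hε hεs
      obtain ⟨i, hi⟩ := (hlim ε hε).exists
      rw [← (hSt i).vol (s - ε) ⟨by linarith, by linarith [hs.2]⟩]
      refine measure_mono fun y hy => ?_
      have h1 := (abs_le.1 (hi y)).1
      have h2 : s ≤ H y := hy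
      show s - ε ≤ G i y
      linarith
    have hlo : ∀ ε : ℝ, 0 < ε → ENNReal.ofReal (Real.pi * (c - (s + ε))) ≤ volume (lev H s) := by
      intro ε hε
      rcases le_or_gt (s + ε) c with hsc | hsc
      · obtain ⟨i, hi⟩ := (hlim ε hε).exists
        rw [← (hSt i).vol (s + ε) ⟨by linarith [hs.1], hsc⟩]
        refine measure_mono fun y hy => ?_
        have h1 := (abs_le.1 (hi y)).2
        have h2 : s + ε ≤ G i y := hy
        show s ≤ H y
        linarith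
      · rw [ENNReal.ofReal_of_nonpos]
        · exact zero_le
        · have := Real.pi_pos
          nlinarith
    have hcu : Tendsto (fun ε : ℝ => ENNReal.ofReal (Real.pi * (c - (s - ε)))) (𝓝[>] 0)
        (𝓝 (ENNReal.ofReal (Real.pi * (c - s)))) := by
      have h1 : Continuous fun ε : ℝ => Real.pi * (c - (s - ε)) := by fun_prop
      have h2 := (ENNReal.continuous_ofReal.comp h1).tendsto 0
      simp only [Function.comp_def, sub_zero] at h2
      exact h2.mono_left nhdsWithin_le_nhds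
    have hcl : Tendsto (fun ε : ℝ => ENNReal.ofReal (Real.pi * (c - (s + ε)))) (𝓝[>] 0)
        (𝓝 (ENNReal.ofReal (Real.pi * (c - s)))) := by
      have h1 : Continuous fun ε : ℝ => Real.pi * (c - (s + ε)) := by fun_prop
      have h2 := (ENNReal.continuous_ofReal.comp h1).tendsto 0
      simp only [Function.comp_def, add_zero] at h2
      exact h2.mono_left nhdsWithin_le_nhds
    refine le_antisymm (ge_of_tendsto hcu ?_) (le_of_tendsto hcl ?_)
    · filter_upwards [self_mem_nhdsWithin, mem_nhdsWithin_of_mem_nhds (gt_mem_nhds hs.1)]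
        with ε h1 h2
      exact hup ε h1 h2
    · filter_upwards [self_mem_nhdsWithin] with ε h1
      exact hlo ε h1
  exact hprof M L ρ H hM hL hρ hH c hc hvol hHle N hNc hinv x

/-- The sequence of directions. -/
theorem seq (hgen : S_Gen) (hmom : S_Mom) (hcont : S_Cont) (hlim : S_Lim) (hprof : S_Prof) :
    S_Seq := by
  intro M L ρ g hM hL hρ hg c hc hvol hle
  obtain ⟨θ, G, h0, hSt, hG, hGen, hgr⟩ := greedy hgen hM hL hρ hc ⟨hg, hvol, hle⟩
  refine ⟨θ, G, h0, hG, hGen, fun ε hε => ?_⟩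
  rw [Filter.eventually_iff, mem_iff_ultrafilter]
  intro U hU
  obtain ⟨H, hH, hHl⟩ := hlim M L ρ G hM hL hρ (fun i => (hSt i).adm) U
  have heq := limit_eq hgen hmom hcont hprof hM hL hρ hc hSt hG hgr hU hH hHl
  filter_upwards [hHl ε hε] with i hi x
  rw [← heq x]
  exact hi x

end Q187.PS
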