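import Pool.Agent.Q187.PS.Defs
import Pool.Agent.Q187.PS.Persist2

/-!
# Project PS: perimeter along iterated Steiner symmetrizations (MP_37896c_gt), statements

Aim: for every `n ≥ 3` there are a compact set `E` of finite perimeter with nonempty interior in
`ℝⁿ` and directions `u_i` such that the iterated Steiner symmetrals `E_i` converge to the ball
`E⋆` in the Hausdorff distance, but `P(E_i) ≥ P(E⋆) + δ` for all `i`.

The set is `E = {(v, w) ∈ ℝ² × ℝ^m : ‖w‖² + 9 ≤ g(v)}` with a Lipschitz function `g` on the plane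
whose superlevel sets `{g ≥ s}` have the area `π (18 - s)` and whose gradient vanishes on a set of
positive area (a co-area irregular function).  For a symmetrization in a generic direction of the
plane the area of the critical points at heights in `J` does not go down (`persist`, proved), while
the functions converge uniformly to `(18 - ‖v‖²)₊`.  Over the critical points the normal of `∂E_i`
stays away from the radial direction, and the perimeter keeps an excess.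

Proved already: `Fun.lean` (`Adm`, `lev`, `symf`, `lev_symf`, `Adm.symf`, `le_symf_iff`),
`Mom.lean` (`im`, `im_sym_le`, `im_sym_eq`, `im_lt_top`), `Persist2.lean` (`persist`).
`sym u K`, `foot u x`, `chord u x K`: `Pool.Agent.H318R3.St.Basic`; `mem_sym_iff`, `sym_compact`,
`sym_vol`, `norm_line`: `Pool.Agent.Q187.Steiner.Basic`.
-/

set_option autoImplicit false
set_option linter.unusedSectionVars false

open MeasureTheory Set Filter Topology Metric
open scoped RealInnerProductSpace ENNReal NNReal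

namespace Q187.PS

open Pool.Agent.H318R3.St Q187.Steiner

/-! ## Convergence -/

/-- JOB GEN.  All but countably many directions are generic.

Proof.  For `θ ∈ [0, π)` let `A_θ = {x | fderiv g x (dir θ) = 0 ∧ fderiv g x ≠ 0}`, a measurable set
(`measurable_fderiv`, `measurable_fderiv_apply_const`; `g` is continuous).  For `θ ≠ θ'` in `[0, π)`
the vectors `dir θ`, `dir θ'` span the plane (their determinant is `sin (θ' - θ) ≠ 0`), so
`A_θ ∩ A_θ' = ∅`.  By `Measure.countable_meas_pos_of_disjoint_iUnion` (or a variant; index type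
`Ico 0 π`) only countably many have positive measure. -/
def S_Gen : Prop := ∀ (M L ρ : ℝ) (g : V2 → ℝ), Adm M L ρ g →
  {θ : ℝ | θ ∈ Ico 0 Real.pi ∧ ¬ Gen g (dir θ)}.Countable

/-- JOB MOM.  The moment does not go up; equality only for invariant functions.

Proof.  Layer cake: `ofReal (g x) = ∫⁻ s in Ioi 0, indicator (lev g s) 1 x` (`lintegral` of the
indicator of `Ioc 0 (g x)`), hence by Tonelli `mom g = ∫⁻ s in Ioi 0, im (lev g s)`, and the same for
`symf u g` (it is `Adm` by `Adm.symf`), where `lev (symf u g) s = sym u (lev g s)` for `s > 0`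
(`lev_symf`).  So `mom (symf u g) ≤ mom g` by `im_sym_le`.  `mom g < ∞` since `g ≤ M` vanishes
outside a ball.  If `mom g ≤ mom (symf u g)` then (`ae_eq_of_ae_le_of_lintegral_le`) for a.e.
`s > 0` the two moments agree, so `volume (lev g s \ sym u (lev g s)) = 0` by `im_sym_eq`, and
as the volumes agree (`sym_vol`) and are finite also `volume (sym u (lev g s) \ lev g s) = 0`.
The good `s` are dense in `(0, ∞)`.  If `symf u g x < g x` at some `x` then the open set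
`{symf u g < g}` is nonempty and contained in the union over a countable dense set of good `s` of
`lev g s \ lev (symf u g) s` (if `0 ≤ a < b` there is a good `s` with `a < s < b`), a null set:
contradiction.  In the same way `g x < symf u g x` is impossible. -/
def S_Mom : Prop := ∀ (M L ρ : ℝ) (g : V2 → ℝ), 0 ≤ M → 0 ≤ L → 0 ≤ ρ → Adm M L ρ g →
  ∀ u : V2, ‖u‖ = 1 →
    mom (symf u g) ≤ mom g ∧ (mom g ≤ mom (symf u g) → symf u g = g)

/-- JOB CONT.  The symmetral depends in a Lipschitz way on the function, and so does the moment.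

Proof.  If `g ≤ h + ε` then `symf u g ≤ symf u h + ε`: let `s = symf u g x`; if `s ≤ ε` there is
nothing to prove (`symf_nonneg`); otherwise `x ∈ sym u (lev g s) ⊆ sym u (lev h (s - ε))`
(`le_symf_iff`, `sym_mono`, `Adm.lev_compact`), so `s - ε ≤ symf u h x`.  Moment:
`ofReal (g x) ≤ ofReal (h x) + ofReal ε` on the ball `closedBall 0 ρ`, both functions vanish outside,
and `‖x‖² ≤ ρ²` on the ball. -/
def S_Cont : Prop := ∀ (M L ρ : ℝ) (g h : V2 → ℝ), 0 ≤ M → 0 ≤ L → 0 ≤ ρ →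
  Adm M L ρ g → Adm M L ρ h → ∀ ε : ℝ, 0 ≤ ε → (∀ x, |g x - h x| ≤ ε) →
    (∀ u : V2, ‖u‖ = 1 → ∀ x, |symf u g x - symf u h x| ≤ ε) ∧
    mom g ≤ mom h + ENNReal.ofReal (ρ ^ 2 * ε) * volume (closedBall (0 : V2) ρ)

/-- JOB LIM.  Limits along ultrafilters exist and are uniform.

Proof.  For each `x` the numbers `G i x` lie in the compact interval `Icc 0 M`, so they converge
along `U` (`isCompact_Icc.ultrafilter_le_nhds`, applied to `U.map fun i => G i x`); call the limit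
`H x`.  The inequalities in `Adm` pass to the limit (`le_of_tendsto`).  Uniformity: `ε > 0`;
`closedBall 0 ρ` is covered by finitely many balls of radius `δ` with `L δ ≤ ε / 3`
(`IsCompact.finite_cover_balls`) with centres `x_j`; eventually along `U` one has
`|G i x_j - H x_j| ≤ ε / 3` for all `j`, and then `|G i x - H x| ≤ ε` for all `x` in the ball; outside
both are zero. -/
def S_Lim : Prop := ∀ (M L ρ : ℝ) (G : ℕ → V2 → ℝ), 0 ≤ M → 0 ≤ L → 0 ≤ ρ →
  (∀ i, Adm M L ρ (G i)) → ∀ U : Ultrafilter ℕ, ∃ H : V2 → ℝ, Adm M L ρ H ∧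
    ∀ ε : ℝ, 0 < ε → ∀ᶠ i in (U : Filter ℕ), ∀ x, |G i x - H x| ≤ ε

/-- JOB PROF.  A function invariant under the symmetrizations of a co-countable set of directions,
with given areas of the superlevel sets, is the paraboloid.

Proof.  (1) For `u = dir θ` with `θ ∉ N`: by `le_symf_iff`, `mem_sym_iff` the condition
`x ∈ sym u (lev H s)` depends only on `foot u x` and `|⟪x, u⟫|`, so `H (x - (2 * ⟪x, u⟫) • u) = H x`
(same superlevel sets for `s > 0`, and `H ≥ 0`).  Both sides are continuous in `θ` and the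
complement of a countable set is dense (`Set.Countable.dense_compl`, used in `Ioo 0 π`), so it holds
for all `θ ∈ [0, π]`.
(2) `H x = H y` when `‖x‖ = ‖y‖`: if `x ≠ y` then `u = (x - y) / ‖x - y‖` is `± dir θ` with
`θ ∈ [0, π)` (polar angle of a unit vector, e.g. from `Complex.arg`), and
`y = x - (2 * ⟪x, u⟫) • u`.
(3) If `s > 0`, `x ∈ lev H s` and `0 ≤ t ≤ 1` then `t • x ∈ lev H s`: by (2) we may replace `x` by
`‖x‖ • dir θ` with some `θ ∈ [0, π)`, `θ ∉ N` (exists); for `u = dir θ` one has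
`foot u x = 0 = foot u (t • x)`, `|⟪t • x, u⟫| ≤ |⟪x, u⟫|`, and `x ∈ sym u (lev H s)` gives
`t • x ∈ sym u (lev H s)` by `mem_sym_iff`.
(4) So for `0 < s < c` the set `lev H s`, compact (`Adm.lev_compact`) and nonempty (it has positive
area), is `closedBall 0 r` with `r` the greatest norm of its points; its area `π r²`
(`EuclideanSpace.volume_closedBall_fin_two` or `InnerProductSpace.volume_closedBall`) is
`π (c - s)`, so `s ≤ H x ↔ ‖x‖² ≤ c - s` for all `0 < s < c`.  With `0 ≤ H ≤ c` this gives the claim. -/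
def S_Prof : Prop := ∀ (M L ρ : ℝ) (H : V2 → ℝ), 0 ≤ M → 0 ≤ L → 0 ≤ ρ → Adm M L ρ H →
  ∀ c : ℝ, 0 < c → (∀ s ∈ Ioc 0 c, volume (lev H s) = ENNReal.ofReal (Real.pi * (c - s))) →
  (∀ x, H x ≤ c) → ∀ N : Set ℝ, N.Countable →
  (∀ θ ∈ Ico 0 Real.pi, θ ∉ N → symf (dir θ) H = H) → ∀ x, H x = max 0 (c - ‖x‖ ^ 2)

/-- JOB SEQ.  The sequence of directions (uses `S_Gen`, `S_Mom`, `S_Cont`, `S_Lim`, `S_Prof`, each
may be assumed).

Proof.  All functions below are `Adm M L ρ` by `Adm.symf` and `≤ c`... (`lev (symf u g) s` has the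
volume of `lev g s` by `lev_symf`, `sym_vol`; and `symf u g ≤ c` since for `s > c` the set `lev g s`
is empty, so `sym u (lev g s)` is).  Given `G i` let
`T_i = {θ ∈ [0, π) | Gen (G i) (dir θ)}`, nonempty since its complement in `[0, π)` is countable
(`S_Gen`), `m_i = ⨅ θ ∈ T_i, mom (symf (dir θ) (G i))`, finite, and choose `θ_i ∈ T_i` with
`mom (symf (dir θ_i) (G i)) ≤ m_i + 1 / (i + 1)`; `G (i + 1) = symf (dir θ_i) (G i)`.  (Use a
dependent recursion on the subtype of admissible functions, or `exists_seq`-style choice.)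
The numbers `mom (G i)` are nonincreasing; let `I` be their limit.  Let `U ≤ atTop` be an
ultrafilter, `H` from `S_Lim`.  `N = ⋃ i ([0, π) \ T_i)` is countable.  For `θ ∈ [0, π) \ N` and all
`i`: `mom (G (i + 1)) ≤ mom (symf (dir θ) (G i)) + 1 / (i + 1)`.  By `S_Cont` `mom (G i) → mom H` and
`mom (symf (dir θ) (G i)) → mom (symf (dir θ) H)` along `U`, so `mom H = I ≤ mom (symf (dir θ) H)` and
`symf (dir θ) H = H` by `S_Mom`.  The areas: `lev (G i) (s + ε) ⊆ lev H s ⊆ lev (G i) (s - ε)` for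
`U`-many `i`, so `volume (lev H s) = ofReal (π (c - s))` for `0 < s ≤ c` (let `ε → 0`; for `s = c`
the left inclusion is not needed), and `H ≤ c`.  By `S_Prof` `H` is the paraboloid.  As this holds
for every ultrafilter `U ≤ atTop`, the uniform convergence holds along `atTop`
(`Filter.eventually` along `atTop` iff along every ultrafilter below it, e.g.
`Filter.le_iff_ultrafilter` / `Filter.tendsto_iff_ultrafilter`). -/
def S_Seq : Prop := ∀ (M L ρ : ℝ) (g : V2 → ℝ), 0 ≤ M → 0 ≤ L → 0 ≤ ρ → Adm M L ρ g →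
  ∀ c : ℝ, 0 < c → (∀ s ∈ Ioc 0 c, volume (lev g s) = ENNReal.ofReal (Real.pi * (c - s))) →
  (∀ x, g x ≤ c) → ∃ (θ : ℕ → ℝ) (G : ℕ → V2 → ℝ), G 0 = g ∧
    (∀ i, G (i + 1) = symf (dir (θ i)) (G i)) ∧ (∀ i, Gen (G i) (dir (θ i))) ∧
    ∀ ε : ℝ, 0 < ε → ∀ᶠ i in atTop, ∀ x, |G i x - max 0 (c - ‖x‖ ^ 2)| ≤ ε

/-! ## The starting function -/

/-- JOB NU.  The measure with random base four digits in `{0, 1}`.

Proof.  `bit n t = ((⌊2 ^ (n + 1) * t⌋ % 2 : ℤ) : ℝ) ∈ {0, 1}`,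
`four t = ∑' n, bit n t * (1 / 4) ^ (n + 1)` (summable, measurable, values in `[0, 1/3]`),
`ν = Measure.map four (volume.restrict (Ico 0 1))`.  For `t ∈ [0, 1)`, `b ∈ {0, 1}`:
`bit 0 ((t + b) / 2) = b` and `bit (n + 1) ((t + b) / 2) = bit n t` (since
`⌊2 ^ (n + 1) * (t + b)⌋ = ⌊2 ^ (n + 1) * t⌋ + 2 ^ (n + 1) * b`), so
`four ((t + b) / 2) = (four t + b) / 4`.  `self`: split `[0, 1) = [0, 1/2) ∪ [1/2, 1)` and use that
`t ↦ (t + b) / 2` maps `[0, 1)` onto the half with the factor `1 / 2` of the measure.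
`sing`: `D₀ = four '' Ico 0 1 ⊆ {v / 4 | v ∈ D₀} ∪ {(v + 1) / 4 | v ∈ D₀}`, so
`volume D₀ ≤ 2 * (1 / 4) * volume D₀`, and `volume D₀ < ∞`, hence `volume D₀ = 0`; take
`D = toMeasurable volume D₀`. -/
def S_Nu : Prop := ∃ ν : Measure ℝ, Dig ν

/-- JOB SUM.  The measure `2ν * ν` is uniform, and `ν` has no atoms.

Proof.  `Q s = ((ν.prod ν) {p | 2 * p.1 + p.2 ≤ s}).toReal`, `Q s = 0` for `s < 0` and `Q s = 1` for
`s ≥ 1` (support in `[0, 1/3]²`).  From `self` applied twice (`measure_prod` sections or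
`Measure.prod_apply` with `lintegral` and `self` for lintegrals; equivalently
`ν = 2⁻¹ • map (·/4) ν + 2⁻¹ • map ((·+1)/4) ν`, `Measure.map_prod_map`):
`Q s = (Q (4 s) + Q (4 s - 1) + Q (4 s - 2) + Q (4 s - 3)) / 4`.  `U s = max 0 (min 1 s)` satisfies
the same equation, and `U = Q` off `[0, 1)`.  For given `s` at most one of
`4 s - j`, `j = 0, 1, 2, 3`, lies in `[0, 1)`, so `|Q s - U s| ≤ (1 / 4) * sup |Q - U|` and `Q = U`
(iterate: `|Q - U| ≤ (1 / 4) ^ n` for all `n`).  Then the measure of `{a < 2 p.1 + p.2 ≤ b}` is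
`U b - U a ≤ b - a`.  Atoms: `ν {v} ^ 2 = (ν.prod ν) {(v, v)} ≤` measure of
`{3 v - ε < 2 p.1 + p.2 ≤ 3 v} ≤ ε`. -/
def S_Sum : Prop := ∀ ν : Measure ℝ, Dig ν →
  (∀ a b : ℝ, a ≤ b →
    (ν.prod ν) {p | a < 2 * p.1 + p.2 ∧ 2 * p.1 + p.2 ≤ b} ≤ ENNReal.ofReal (b - a)) ∧
  ∀ v : ℝ, ν {v} = 0

/-- JOB SPRD.  The spreading function.

Proof.  `γ v = v + (ν (Iic v)).toReal` is continuous (no atoms), strictly increasing, `γ v - v` lies in
`[0, 1]`, hence surjective.  `β` is the inverse: `γ (β x) = x`, `β (γ v) = v`, strictly increasing.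
`lip`: for `v ≤ v'` `γ v' - γ v ≥ v' - v`.  `near`: `|x - β x| = |γ (β x) - β x| ≤ 1`.
`map`: both measures are locally finite and agree on the intervals `Ioc u v`:
`β ⁻¹' Ioc u v = Ioc (γ u) (γ v)` has the length
`γ v - γ u = (v - u) + ν (Ioc u v)` (e.g. `Real.measure_ext_Ioo_rat` or
`Measure.ext_of_Ioc`, see `Mathlib/MeasureTheory/Constructions/BorelSpace/Order.lean`). -/
def S_Sprd : Prop := ∀ ν : Measure ℝ, Dig ν → (∀ v : ℝ, ν {v} = 0) → ∃ β : ℝ → ℝ, Spread ν β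

/-- JOB ZERO.  The derivative of `β` vanishes on a set of length one.

Proof.  `D` from `Dig.sing`, `D' = D ∩ Icc 0 (1 / 3)`, `A = β ⁻¹' D'`.  By `Spread.map`
`volume A = volume D' + ν D' = 0 + 1`.  `β` is Lipschitz, so differentiable a.e.
(`LipschitzWith.ae_differentiableAt`).  Let `A₁ = {x ∈ A | DifferentiableAt ℝ β x}`;
`∫⁻ x in A₁, ofReal |deriv β x| = volume (β '' A₁) ≤ volume D' = 0` (area formula
`lintegral_abs_deriv_eq_...`/`lintegral_abs_det_fderiv_eq_addHaar_image` for the injective map `β`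
on the measurable set `A₁`), so `deriv β x = 0` for a.e. `x ∈ A₁`.
`A₀ = {x ∈ A₁ | deriv β x = 0}`. -/
def S_Zero : Prop := ∀ (ν : Measure ℝ) (β : ℝ → ℝ), Dig ν → Spread ν β →
  ∃ A : Set ℝ, MeasurableSet A ∧ volume A = 1 ∧
    ∀ x ∈ A, β x ∈ Icc 0 (1 / 3) ∧ HasDerivAt β 0 x

/-- JOB AREA.  The areas of the level strips of `HH β` (`S_Sum` may be assumed).

Proof.  Under the measure preserving map `v ↦ (v 0, v 1)` from `V2` to `ℝ × ℝ` (see
`PiLp.volume_preserving_ofLp`/`EuclideanSpace.volume_preserving_symm_measurableEquiv_toLp` and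
`MeasureTheory.volume_preserving_finTwoArrow`) followed by `Prod.map β β`
(`Measure.map_prod_map`) the area becomes `μ.prod μ` with `μ = volume + ν`: the area of
`{s < HH β v ≤ t}` is `(μ.prod μ) {p | s < 2 * |p.1| + |p.2| ∧ 2 * |p.1| + |p.2| ≤ t}`.
Expand `μ.prod μ` (`Measure.prod_add`, `Measure.add_prod`):
`volume × volume`: for `|p.1| ≤ t / 2` the section in `p.2` has length `≤ 2 (t - s)`, otherwise it is
empty: `≤ t * 2 (t - s)`.  `volume × ν`: for each `p.2` the section in `p.1` has length `≤ t - s`.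
`ν × volume`: for each `p.1` the section in `p.2` has length `≤ 2 (t - s)`.  `ν × ν`: almost surely
`p.1, p.2 ∈ [0, 1/3]`, so `≤ t - s` by `S_Sum`.  Sum: `(2 t + 4) (t - s)`.
Second claim: the area of `{HH β v ≤ 0}` is zero because `β` is injective (at most one point).
Third claim: `μ.prod μ ≥ volume.prod volume`, and the set contains
`Icc (-4) 4 ×ˢ Icc (-8) 8` of area `128 ≥ 18 π`. -/
def S_Area : Prop := ∀ (ν : Measure ℝ) (β : ℝ → ℝ), Dig ν → Spread ν β →
  (∀ s t : ℝ, 0 ≤ s → s ≤ t →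
    volume {v : V2 | s < HH β v ∧ HH β v ≤ t} ≤ ENNReal.ofReal ((2 * t + 4) * (t - s))) ∧
  volume {v : V2 | HH β v ≤ 0} = 0 ∧
  ENNReal.ofReal (18 * Real.pi) ≤ volume {v : V2 | HH β v ≤ 16}

/-- JOB STRT.  The starting function (`S_Zero`, `S_Area` may be assumed).

Proof.  `HH β` is continuous, `|HH β v - HH β v'| ≤ 2 |v 0 - v' 0| + |v 1 - v' 1| ≤ 3 ‖v - v'‖`,
`HH β v ≥ |β (v 0)| + |β (v 1)| ≥ |v 0| + |v 1| - 2 ≥ ‖v‖ - 2`; `β` is onto (continuous, near the
identity), so `HH β` takes every value in `[0, ∞)`.  `area β` is finite, nondecreasing,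
`area β 0 = 0`, `|area β t - area β s| ≤ 36 |t - s|` on `[0, 16]`, `area β 16 ≥ 18 π`,
strictly increasing on `[0, ∞)` (`{s < HH β < t}` is open and not empty).
`Adm`: `0 ≤ start ≤ 18` clear; Lipschitz with constant `36 * 3 / π ≤ 36`; `start = 0` when
`HH β v ≥ 16`, in particular when `‖v‖ > 18`.
Areas: `0 < s ≤ 18`, `τ = π (18 - s) ∈ [0, 18 π)`; there is `t ∈ [0, 16)` with `area β t = τ`
(intermediate value theorem), and `s ≤ start β v ↔ area β (min (HH β v) 16) ≤ area β t ↔ HH β v ≤ t`,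
a set of area `area β t = τ`.
Critical points: let `A` be from `S_Zero` and `K = {v | v 0 ∈ A ∧ v 1 ∈ A}`, of area one.  For
`v ∈ K`: `|start β v' - start β v| ≤ (36 / π) |HH β v' - HH β v| ≤
(36 / π) (2 |β (v' 0) - β (v 0)| + |β (v' 1) - β (v 1)|) = o(‖v' - v‖)`, so `HasFDerivAt (start β) 0 v`.
`HH β v ≤ 1`, `area β 1 ≤ 6` (from `S_Area` with `s = 0`, `t = 1` and `area β 0 = 0`), so
`start β v ≥ 18 - 6 / π ≥ 16`.  The set where `start β v ≥ 18 - 1 / 8` has the area `π / 8 < 1 / 2`. -/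
def S_Strt : Prop := ∀ (ν : Measure ℝ) (β : ℝ → ℝ), Dig ν → Spread ν β →
  Adm 18 36 18 (start β) ∧
  (∀ s ∈ Ioc (0 : ℝ) 18, volume (lev (start β) s) = ENNReal.ofReal (Real.pi * (18 - s))) ∧
  ENNReal.ofReal (1 / 2) ≤ volume (crit (start β) (Icc 16 (18 - 1 / 8)))

/-! ## Upper bounds for perimeters -/

/-- JOB MINK.  The perimeter is at most the outer Minkowski content.

Proof.  Let `φ` be `C¹` with compact support and `‖φ‖ ≤ 1`; it is Lipschitz with some constant `K`.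
For `0 < t < 1 / (K + 1)` the map `F_t x = x + t • φ x` is injective with derivative
`1 + t • φ' x`, whose determinant is positive for small `t`, and `F_t '' E ⊆ cthickening t E`.  So
`∫_E det (1 + t φ' x) dx = volume (F_t '' E) ≤ volume E + C t`
(`lintegral_abs_det_fderiv_eq_addHaar_image`).  The determinant is
`1 + t * trace (φ' x) + t² * r(t, x)` with `r` bounded for `0 < t < 1`, `x` in the (compact) support:
in a basis it is a polynomial (`Matrix.det_one_add_smul`), or use that `det` is differentiable at `1`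
with derivative the trace.  Hence `∫_E trace (φ' x) dx ≤ C + o(1)` as `t → 0`. -/
def S_Mink : Prop := ∀ (X : Type) [NormedAddCommGroup X] [InnerProductSpace ℝ X]
  [FiniteDimensional ℝ X] [MeasurableSpace X] [BorelSpace X] (E : Set X) (C : ℝ), IsCompact E →
  0 ≤ C →
  (∀ᶠ t in 𝓝[>] (0 : ℝ), volume (cthickening t E) ≤ volume E + ENNReal.ofReal (C * t)) →
  per E ≤ ENNReal.ofReal C

/-- JOB BALL.  The perimeter of a ball (`S_Mink` may be assumed).

Proof.  `cthickening t (closedBall 0 R) ⊆ closedBall 0 (R + t)`, of volume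
`((R + t) / R) ^ n * volume (closedBall 0 R)` (`Measure.addHaar_closedBall`, ...), and
`((R + t) / R) ^ n ≤ 1 + c t` for small `t > 0` for every `c > n / R`.  Apply `S_Mink` with
`C = c * volume (closedBall 0 R)` and let `c → n / R`. -/
def S_Ball : Prop := ∀ (X : Type) [NormedAddCommGroup X] [InnerProductSpace ℝ X]
  [FiniteDimensional ℝ X] [MeasurableSpace X] [BorelSpace X] (R : ℝ), 0 < R →
  per (closedBall (0 : X) R) ≤
    ENNReal.ofReal (Module.finrank ℝ X * (volume (closedBall (0 : X) R)).toReal / R)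

/-- JOB EVOL.  The volume of the bodies.

Proof.  `XX m` with its volume is the product of `V2` and `EuclideanSpace ℝ (Fin m)`
(`WithLp.volume_preserving_ofLp`).  Tonelli: `volume (Eg m g c) =
∫⁻ w, volume (lev g (‖w‖ ^ 2 + c))`, the same for `g⋆ v = max 0 (18 - ‖v‖ ^ 2)`, whose superlevel
sets have the same areas: `lev g⋆ s = closedBall 0 √(18 - s)` for `0 < s ≤ 18`, empty for `s > 18`
(and `lev g s = ∅` for `s > 18` as `g ≤ 18`).  And
`Eg m g⋆ c = {‖v‖² + ‖w‖² ≤ 18 - c} = closedBall 0 √(18 - c)` for `0 < c ≤ 18`. -/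
def S_Evol : Prop := ∀ (m : ℕ) (L ρ : ℝ) (g : V2 → ℝ), 0 ≤ L → 0 ≤ ρ → Adm 18 L ρ g →
  (∀ s ∈ Ioc (0 : ℝ) 18, volume (lev g s) = ENNReal.ofReal (Real.pi * (18 - s))) →
  ∀ c : ℝ, 0 < c → c ≤ 18 → volume (Eg m g c) = volume (closedBall (0 : XX m) √(18 - c))

/-- JOB EFIN.  The bodies have finite perimeter (`S_Mink`, `S_Evol` may be assumed).

Proof.  For `0 < t < 1` small: `cthickening t (Eg m g 9) ⊆ Eg m g (9 - C t)` with
`C = L + 2 * 3 + 1`: if `‖v' - v‖, ‖w' - w‖ ≤ t` and `‖w‖² + 9 ≤ g v ≤ 18` then `‖w‖ ≤ 3`,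
`‖w'‖² ≤ ‖w‖² + 6 t + t²`, `g v' ≥ g v - L t`.  (`Eg m g 9` is compact: closed and bounded; points of
`cthickening t` have distance `≤ t` to a point of the compact set.)  Its volume is
`volume (closedBall 0 √(9 + C t)) ≤ volume (closedBall 0 3) * (1 + C' t)`.  Apply `S_Mink`. -/
def S_Efin : Prop := ∀ (m : ℕ) (L ρ : ℝ) (g : V2 → ℝ), 0 ≤ L → 0 ≤ ρ → Adm 18 L ρ g →
  (∀ s ∈ Ioc (0 : ℝ) 18, volume (lev g s) = ENNReal.ofReal (Real.pi * (18 - s))) →
  per (Eg m g 9) < ⊤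

/-! ## The lower bound

The functions `th` (cut-off), `bb r`, `kk m`, `bv m`, `dv m r χ`, `hh m r g` are in `Defs.lean`. -/

/-- JOB RAD.  The flux of a radial field through a sphere.

Proof.  `f s = m * b (s ^ 2) + 2 * s ^ 2 * deriv b (s ^ 2)`.  In polar coordinates
(`integral_fun_norm_addHaar` for `f * indicator (Iic r)`) the left side is
`m * volume (ball 0 1) * ∫ s in 0..r, s ^ (m - 1) * f s`, and
`s ^ (m - 1) * f s` is the derivative of `s ^ m * b (s ^ 2)` (`m ≥ 1`).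
Second claim: the same with `f s = th (s ^ 2)`: the integral is
`m * bv m * ∫ s in 0..r, s ^ (m - 1) * th (s ^ 2)`, and the substitution `τ = s ^ 2`
(or: both sides vanish at `r = 0` and have the same derivative in `r`) gives
`∫ s in 0..r, s ^ (m - 1) * th (s ^ 2) = (1 / 2) * ∫ τ in 0..r ^ 2, kk m τ`
(`kk m (s ^ 2) = th (s ^ 2) * s ^ m / s ^ 2` for `s ≥ 0`; `kk m` is continuous because `th` vanishes on
`(-∞, 1]`). -/
def S_Rad : Prop := ∀ (m : ℕ), 1 ≤ m →
  (∀ (b : ℝ → ℝ), ContDiff ℝ 1 b → ∀ r : ℝ, 0 ≤ r →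
  ∫ w in closedBall (0 : EuclideanSpace ℝ (Fin m)) r,
    (m * b (‖w‖ ^ 2) + 2 * ‖w‖ ^ 2 * deriv b (‖w‖ ^ 2)) = m * bv m * r ^ m * b (r ^ 2)) ∧
  ∀ r : ℝ, 0 ≤ r → ∫ w in closedBall (0 : EuclideanSpace ℝ (Fin m)) r, th (‖w‖ ^ 2) =
    m * bv m / 2 * ∫ τ in (0 : ℝ)..r ^ 2, kk m τ

/-- JOB IBP.  Integration by parts for Lipschitz functions.

Proof.  `q = ψ ∘ g` is Lipschitz (`g` is Lipschitz with compact support, `ψ` is `C¹`) and
`fderiv q v = deriv ψ (g v) • fderiv g v` at every point of differentiability of `g` (a.e.).  With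
`e_j` the two basis vectors: `∫ q * (fderiv (fun v => χ v * v j) v e_j) =
- ∫ (χ v * v j) * fderiv q v e_j` (`LipschitzWith.integral_lineDeriv_mul_eq` or
`integral_mul_fderiv_eq_neg_fderiv_mul_of_integrable`), and
`∑ j, fderiv (fun v => χ v * v j) v e_j = 2 χ v + fderiv χ v v`,
`∑ j, v j * fderiv q v e_j = fderiv q v v`. -/
def S_Ibp : Prop := ∀ (M L ρ : ℝ) (g : V2 → ℝ), 0 ≤ M → 0 ≤ L → 0 ≤ ρ → Adm M L ρ g →
  ∀ ψ : ℝ → ℝ, ContDiff ℝ 1 ψ → ∀ χ : V2 → ℝ, ContDiff ℝ 1 χ → HasCompactSupport χ →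
  ∫ v, ψ (g v) * (2 * χ v + fderiv ℝ χ v v) = - ∫ v, χ v * (deriv ψ (g v) * fderiv ℝ g v v)

/-- JOB APPR.  Smooth approximation of the indicator of a set.

Proof.  Choose a compact `K ⊆ F` and an open bounded `O ⊇ F` with `volume (O \ K)` small
(`MeasurableSet.exists_isCompact_diff_lt`, `Set.exists_isOpen_lt_of_lt`), and a smooth `χ` with
`0 ≤ χ ≤ 1`, `χ = 1` on `K`, compact support in `O` (`exists_contMDiff_...`/`exists_smooth_...`, e.g.
`exists_contMDiff_zero_iff_one_iff_of_isClosed` with the model `𝓘(ℝ, V2)`, or convolution).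
`|∫ χ h - ∫_F h| ≤ C * volume (O \ K)`. -/
def S_Appr : Prop := ∀ (h : V2 → ℝ) (C : ℝ), Measurable h → (∀ v, |h v| ≤ C) →
  ∀ F : Set V2, MeasurableSet F → Bornology.IsBounded F → ∀ ε : ℝ, 0 < ε →
  ∃ χ : V2 → ℝ, ContDiff ℝ 1 χ ∧ HasCompactSupport χ ∧ (∀ v, 0 ≤ χ v) ∧ (∀ v, χ v ≤ 1) ∧
    ∫ v in F, h v ≤ (∫ v, χ v * h v) + ε

/-- JOB LOWA.  The test field.

Proof.  `th` is smooth with `0 ≤ th ≤ 1`, `th = 0` on `(-∞, 1]`; hence `bb r` is smooth (near `s ≤ 1/2` it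
is zero, for `s > 0` the root is smooth).  Let
`Ψ (v, w) = (1 / r) • (v, w) + χ v • (-(th (‖w‖²) / r) • v, bb r (‖w‖²) • w)
= (1 - χ v * th (‖w‖²)) • (1 / r) • (v, w) + χ v • (0, (th (‖w‖²) / √(‖w‖²)) • w)`.
The second form shows `‖Ψ x‖ ≤ 1` for `‖x‖ ≤ r`: with `λ = χ v * th (‖w‖²) ∈ [0, 1]` the norm is at
most `(1 - λ) * 1 + λ`.  Let `η` be a smooth bump function with `η = 1` on `closedBall 0 ((ρ + r) / 2)`,
support in `closedBall 0 r`, `0 ≤ η ≤ 1` (`ContDiffBump`), `Φ = η • Ψ`.  On `closedBall 0 ρ` the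
derivative of `Φ` is that of `Ψ`.  Its trace: use the orthonormal basis of `XX m`
(`(e_j, 0)`, `(0, f_i)`), or `trace` of the block map: the trace of `x ↦ A x` on `V × W` is
`trace (A_VV) + trace (A_WW)` (`LinearMap.trace_eq_sum_inner` with
`OrthonormalBasis.prod`, or `LinearMap.trace_prodMap'` after moving along the linear
equivalence with the product): the `V`-part of `v ↦ -(th/r) χ v • v` has the divergence
`-(th / r) (2 χ v + χ'(v) v)` and `w ↦ bb r (‖w‖²) • w` has the divergence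
`m bb r (‖w‖²) + 2 ‖w‖² (bb r)'(‖w‖²)`. -/
def S_LowA : Prop := ∀ (m : ℕ) (χ : V2 → ℝ), ContDiff ℝ 1 χ → (∀ v, 0 ≤ χ v) → (∀ v, χ v ≤ 1) →
  ∀ ρ r : ℝ, 0 < ρ → ρ < r → ∃ Φ : XX m → XX m, ContDiff ℝ 1 Φ ∧ HasCompactSupport Φ ∧
    (∀ x, ‖Φ x‖ ≤ 1) ∧ ∀ x ∈ closedBall (0 : XX m) ρ,
      LinearMap.trace ℝ (XX m) (fderiv ℝ Φ x : XX m →ₗ[ℝ] XX m) = dv m r χ x

/-- JOB LOWB.  The integral of the divergence (`S_Rad`, `S_Ibp` may be assumed).

Proof.  `dv m r χ` is continuous and `Eg m g 9` is compact (closed; `‖w‖² ≤ 9`, `‖v‖ ≤ ρ₀`), so all is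
integrable.  Fubini over `V2 × ℝ^m` (`WithLp.volume_preserving_ofLp`,
`MeasureTheory.integral_prod`): for fixed `v` the section is `closedBall 0 √(g v - 9)` if `9 ≤ g v`
and empty otherwise.  Third term of `dv`: by `S_Rad` with `b = bb r` the inner integral is
`χ v * (m * bv m * √(g v - 9) ^ m * bb r (g v - 9))` (also when `g v < 9`: both sides are zero; at
`g v = 9` fine).  Second term: the inner integral of `th (‖w‖²)` is `ψ (g v)` with
`ψ t = m * bv m / 2 * ∫ τ in 0..t - 9, kk m τ` (for `t < 9` this is zero as well since `kk m = 0` on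
`(-∞, 1]`), a `C¹` function with `deriv ψ t = m * bv m / 2 * kk m (t - 9)`, and
`S_Ibp` gives `- (1 / r) ∫ ψ (g v) (2 χ v + χ'(v) v) = (1 / r) ∫ χ v * (deriv ψ (g v) * fderiv g v v)`. -/
def S_LowB : Prop := ∀ (m : ℕ), 1 ≤ m → ∀ (L ρ₀ : ℝ) (g : V2 → ℝ), 0 ≤ L → 0 ≤ ρ₀ →
  Adm 18 L ρ₀ g → ∀ χ : V2 → ℝ, ContDiff ℝ 1 χ → HasCompactSupport χ → ∀ r : ℝ, 0 < r →
  ∫ x in Eg m g 9, dv m r χ x =
    (m + 2) * (volume (Eg m g 9)).toReal / r + ∫ v, χ v * hh m r g v

/-- JOB LOWC.  The lower bound for the perimeter (`S_Appr`, `S_LowA`, `S_LowB` may be assumed).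

Proof.  `hh m r g` is measurable and bounded: `0 ≤ g ≤ 18`, `kk m`, `bb r` are continuous, so bounded
on `[-9, 9]`, `|fderiv g v v| ≤ L ‖v‖ ≤ L ρ₀` for `‖v‖ ≤ ρ₀` (`norm_fderiv_le_of_lip'` /
`Adm.fderiv_le`), and `fderiv g v = 0` for `‖v‖ > ρ₀` (`Adm.fderiv_out` in `Persist.lean`).
Let `F = crit g (Icc 16 (18 - 1 / 8))` (measurable, inside `closedBall 0 ρ₀`).  On `F`
`fderiv g v = 0`, `s = g v - 9 ∈ [7, 9 - 1 / 8]`, `th s = 1`,
`hh m r g v = m bv √s ^ (m - 1) (1 - √s / r) ≥ m bv √7 ^ (m - 1) (1 - √(9 - 1/8) / 3) =: 2 δ₁ > 0`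
because `r ≥ 3`.  So `∫_F hh ≥ δ₁`.  With `χ` from `S_Appr` (for `ε = δ₁ / 2`), `Φ` from
`S_LowA`, and `S_LowB`:
`per (Eg m g 9) ≥ ofReal (∫_{Eg} trace Φ') = ofReal ((m + 2) |Eg| / r + ∫ χ hh)
≥ ofReal ((m + 2) |Eg| / r + δ₁ / 2)`.  Take `δ = δ₁ / 2`. -/
def S_LowC : Prop := ∀ m : ℕ, 1 ≤ m → ∃ δ : ℝ, 0 < δ ∧
  ∀ (L ρ₀ : ℝ) (g : V2 → ℝ), 0 ≤ L → 0 ≤ ρ₀ → Adm 18 L ρ₀ g →
  ENNReal.ofReal (1 / 2) ≤ volume (crit g (Icc 16 (18 - 1 / 8))) →
  ∀ ρ r : ℝ, 0 < ρ → ρ < r → 3 ≤ r → Eg m g 9 ⊆ closedBall 0 ρ →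
  ENNReal.ofReal ((m + 2) * (volume (Eg m g 9)).toReal / r + δ) ≤ per (Eg m g 9)

/-! ## The end -/

/-- JOB ESYM.  Symmetrization of the bodies.

Proof.  `u' = toLp (u, 0)`.  For `y = (v, w)`: `foot u' y = (foot u v, w)`, `⟪y, u'⟫ = ⟪v, u⟫`, and
`chord u' (foot u' y) (Eg m g c) = {s | ‖w‖² + c ≤ g (foot u v + s • u)} =
chord u (foot u v) (lev g (‖w‖² + c))`.  Now `mem_sym_iff` (twice) and `lev_symf`/`le_symf_iff` with the
level `‖w‖² + c > 0`. -/
def S_Esym : Prop := ∀ (m : ℕ) (M L ρ : ℝ) (g : V2 → ℝ), 0 ≤ M → 0 ≤ L → 0 ≤ ρ → Adm M L ρ g →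
  ∀ u : V2, ‖u‖ = 1 → ∀ c : ℝ, 0 < c →
  ‖(WithLp.toLp 2 (u, (0 : EuclideanSpace ℝ (Fin m))) : XX m)‖ = 1 ∧
  sym (WithLp.toLp 2 (u, 0) : XX m) (Eg m g c) = Eg m (symf u g) c

end Q187.PS
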