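import Pool.Agent.Q187.PS.Asm

/-!
# Transfer along a linear isometry
-/

set_option autoImplicit false
set_option linter.unusedSectionVars false

open MeasureTheory Set Filter Topology Metric
open scoped RealInnerProductSpace ENNReal NNReal

namespace Q187.PS

open Pool.Agent.H318R3.St Q187.Steiner

section

variable {X Y : Type} [NormedAddCommGroup X] [InnerProductSpace ℝ X]
  [NormedAddCommGroup Y] [InnerProductSpace ℝ Y]

lemma chord_iso (e : X ≃ₗᵢ[ℝ] Y) (u x : X) (K : Set X) :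
    chord (e u) (e x) (e '' K) = chord u x K := by
  ext s
  show e x + s • e u ∈ e '' K ↔ x + s • u ∈ K
  rw [← map_smul, ← map_add]
  exact e.injective.mem_set_image

lemma sym_iso (e : X ≃ₗᵢ[ℝ] Y) (u : X) (K : Set X) : sym (e u) (e '' K) = e '' sym u K := by
  ext y
  constructor
  · rintro ⟨x, t, rfl, h1, ⟨s, hs⟩, h3⟩
    obtain ⟨x, rfl⟩ := e.surjective x
    rw [chord_iso] at h3
    rw [LinearIsometryEquiv.inner_map_map] at h1
    rw [← map_smul, ← map_add, e.injective.mem_set_image] at hs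
    exact ⟨x + t • u, ⟨x, t, rfl, h1, ⟨s, hs⟩, h3⟩, by rw [map_add, map_smul]⟩
  · rintro ⟨_, ⟨x, t, rfl, h1, ⟨s, hs⟩, h3⟩, rfl⟩
    refine ⟨e x, t, by rw [map_add, map_smul], by rwa [LinearIsometryEquiv.inner_map_map],
      ⟨s, ?_⟩, by rwa [chord_iso]⟩
    rw [← map_smul, ← map_add]
    exact mem_image_of_mem e hs

lemma iter_iso (e : X ≃ₗᵢ[ℝ] Y) (u : ℕ → X) (K : Set X) (i : ℕ) :
    iter (fun j => e (u j)) (e '' K) i = e '' iter u K i := by
  induction i with
  | zero => rfl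
  | succ i ih =>
    show sym (e (u i)) (iter (fun j => e (u j)) (e '' K) i) = e '' sym (u i) (iter u K i)
    rw [ih, sym_iso]

lemma ball_iso (e : X ≃ₗᵢ[ℝ] Y) (r : ℝ) : e '' closedBall (0 : X) r = closedBall (0 : Y) r := by
  rw [LinearIsometryEquiv.image_closedBall, map_zero]

variable [FiniteDimensional ℝ X] [MeasurableSpace X] [BorelSpace X]
  [FiniteDimensional ℝ Y] [MeasurableSpace Y] [BorelSpace Y]

lemma vol_iso (e : X ≃ₗᵢ[ℝ] Y) (K : Set X) : volume (e '' K) = volume K := by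
  have h := e.symm.measurePreserving.measure_preimage_equiv (f := e.symm.toMeasurableEquiv) K
  rw [← h]
  congr 1
  ext y
  constructor
  · rintro ⟨x, hx, rfl⟩
    show e.symm (e x) ∈ K
    rwa [e.symm_apply_apply]
  · intro hy
    exact ⟨e.symm y, hy, e.apply_symm_apply y⟩

lemma per_iso_le (e : X ≃ₗᵢ[ℝ] Y) (K : Set X) : per (e '' K) ≤ per K := by
  refine iSup_le fun φ => iSup_le fun h1 => iSup_le fun h2 => iSup_le fun h3 => ?_
  let ψ : X → X := fun x => e.symm (φ (e x))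
  have hψ1 : ContDiff ℝ 1 ψ := e.symm.contDiff.comp (h1.comp e.contDiff)
  have hψ2 : HasCompactSupport ψ := by
    have h4 : HasCompactSupport (φ ∘ e) := h2.comp_homeomorph e.toHomeomorph
    exact h4.comp_left (g := e.symm) (map_zero _)
  have hψ3 : ∀ x, ‖ψ x‖ ≤ 1 := fun x => by
    show ‖e.symm (φ (e x))‖ ≤ 1
    rw [e.symm.norm_map]
    exact h3 _
  have htr : ∀ x, LinearMap.trace ℝ X (fderiv ℝ ψ x : X →ₗ[ℝ] X) =
      LinearMap.trace ℝ Y (fderiv ℝ φ (e x) : Y →ₗ[ℝ] Y) := by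
    intro x
    have h4 : HasFDerivAt φ (fderiv ℝ φ (e x)) (e x) :=
      (h1.differentiable one_ne_zero _).hasFDerivAt
    have h5 : HasFDerivAt ψ ((e.symm : Y →L[ℝ] X).comp ((fderiv ℝ φ (e x)).comp (e : X →L[ℝ] Y)))
        x :=
      (e.symm : Y →L[ℝ] X).hasFDerivAt.comp x
        (h4.comp x (e : X →L[ℝ] Y).hasFDerivAt)
    rw [h5.fderiv]
    rw [← LinearMap.trace_conj' _ e.toLinearEquiv]
    congr 1
    ext y
    simp [LinearEquiv.conj_apply]
  have hint : ∫ y in e '' K, LinearMap.trace ℝ Y (fderiv ℝ φ y : Y →ₗ[ℝ] Y) =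
      ∫ x in K, LinearMap.trace ℝ X (fderiv ℝ ψ x : X →ₗ[ℝ] X) := by
    simp_rw [htr]
    exact e.measurePreserving.setIntegral_image_emb e.toHomeomorph.measurableEmbedding _ _
  rw [hint]
  exact le_iSup_of_le ψ (le_iSup_of_le hψ1 (le_iSup_of_le hψ2 (le_iSup_of_le hψ3 le_rfl)))

lemma per_iso (e : X ≃ₗᵢ[ℝ] Y) (K : Set X) : per (e '' K) = per K := by
  refine le_antisymm (per_iso_le e K) ?_
  have h := per_iso_le e.symm (e '' K)
  rw [← image_comp] at h
  have h2 : (e.symm ∘ e : X → X) '' K = K := by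
    have : (e.symm ∘ e : X → X) = id := by
      ext x
      simp
    rw [this, image_id]
  rwa [h2] at h

theorem Main.transfer (e : X ≃ₗᵢ[ℝ] Y) (h : Main X) : Main Y := by
  obtain ⟨E, u, δ, h1, h2, h3, h4, h5, h6, h7, h8⟩ := h
  refine ⟨e '' E, fun i => e (u i), δ, h1, h2.image e.continuous, ?_, ?_, ?_, ?_, ?_, ?_⟩
  · obtain ⟨x, hx⟩ := h3
    have := e.toHomeomorph.image_interior E
    refine ⟨e x, ?_⟩
    have h9 : e x ∈ e.toHomeomorph '' interior E := mem_image_of_mem _ hx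
    rw [this] at h9
    exact h9
  · rw [per_iso]
    exact h4
  · intro i
    rw [e.norm_map]
    exact h5 i
  · rw [vol_iso, h6, ← ball_iso e, vol_iso]
  · intro ε hε
    filter_upwards [h7 ε hε] with i hi
    rw [iter_iso, ← ball_iso e, ← ball_iso e]
    exact ⟨image_mono hi.1, image_mono hi.2⟩
  · intro i
    rw [iter_iso, ← ball_iso e, per_iso, per_iso]
    exact h8 i

end

/-- Every Euclidean space of dimension at least three. -/
theorem main_euclid {n : ℕ} (hn : 3 ≤ n) (h : ∀ m : ℕ, 1 ≤ m → Main (XX m)) :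
    Main (EuclideanSpace ℝ (Fin n)) := by
  obtain ⟨m, rfl⟩ : ∃ m, n = m + 2 := ⟨n - 2, by omega⟩
  exact (h m (by omega)).transfer
    ((stdOrthonormalBasis ℝ (XX m)).reindex (finCongr finrank_XX)).repr

end Q187.PS
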